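import Pool.Agent.H13.HS.Nonred

/-! # Reduction to the nonredundant corners -/

set_option autoImplicit false
set_option linter.unusedSectionVars false
set_option linter.unusedVariables false

namespace Pool.Agent.H13.HS

open Finset MvPolynomial

variable {e : ℕ}

theorem finrank_le_of_span {k V : Type*} [Field k] [AddCommGroup V] [Module k V] (S : Set V)
    (hS : S.Finite) (h : Submodule.span k S = ⊤) : Module.finrank k V ≤ S.ncard := by
  rw [← finrank_top k V, ← h]
  have := hS.fintype
  refine (finrank_span_le_card S).trans ?_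
  rw [Set.ncard_eq_toFinset_card']

namespace Dat

variable (D : Dat e)

/-- the key-maximal monomial of the class -/
noncomputable def st (u : Mon e) : Mon e := (D.exists_max u).choose

theorem st_same (u : Mon e) : D.Same (D.st u) u := (D.exists_max u).choose_spec.1

theorem st_max (u : Mon e) {x : Mon e} (h : D.Same x u) : key x ≤ key (D.st u) :=
  (D.exists_max u).choose_spec.2 x h

theorem st_congr {u v : Mon e} (h : D.Same u v) : D.st u = D.st v :=
  key_injective (le_antisymm (D.st_max v ((D.st_same u).trans h))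
    (D.st_max u ((D.st_same v).trans h.symm)))

theorem st_st (u : Mon e) : D.st (D.st u) = D.st u := D.st_congr (D.st_same u)

theorem st_of_std {u : Mon e} (h : D.Std u) : D.st u = u :=
  key_injective (le_antisymm (h.2 _ (D.st_same u)) (D.st_max u (Same.refl D u)))

theorem key_lt_st {u : Mon e} (hu : ¬ D.Std u) (hK : ¬ D.K u) : key u < key (D.st u) := by
  by_contra hcon
  push Not at hcon
  apply hu
  refine ⟨hK, ?_⟩
  intro v hv
  exact (D.st_max u hv).trans hcon

variable {k : Type} [Field k]

/-- the maximal ideal -/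
noncomputable abbrev mm (k : Type) [Field k] (e : ℕ) : Ideal (MvPolynomial (Fin (e + 1)) k) :=
  Ideal.span (Set.range (MvPolynomial.X : Fin (e + 1) → MvPolynomial (Fin (e + 1)) k))

/-- a monomial -/
noncomputable abbrev mo (k : Type) [Field k] {e : ℕ} (u : Mon e) : MvPolynomial (Fin (e + 1)) k :=
  monomial u 1

theorem mo_add (u v : Mon e) : mo k (u + v) = mo k u * mo k v := by
  simp [mo, monomial_mul]

theorem X_mem_mm (i : Fin (e + 1)) : (X i : MvPolynomial (Fin (e + 1)) k) ∈ mm k e :=
  Ideal.subset_span ⟨i, rfl⟩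

theorem mo_single (i : Fin (e + 1)) : mo k (Finsupp.single i 1) = X i := rfl

theorem mo_mem_mm {c : Mon e} (hc : c ≠ 0) : mo k c ∈ mm k e := by
  obtain ⟨i, hi⟩ := Finsupp.support_nonempty_iff.2 hc
  rw [← sub_single_add c hi, mo_add, mo_single]
  exact Ideal.mul_mem_left _ _ (X_mem_mm i)

/-- the generator attached to a corner -/
noncomputable def fM (k : Type) [Field k] (M : Mon e) : MvPolynomial (Fin (e + 1)) k := by
  classical
  exact if D.K M then mo k M else mo k M - mo k (D.st M)

section Reduce

variable (I : Ideal (MvPolynomial (Fin (e + 1)) k))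
  (hK : ∀ u, D.K u → mo k u ∈ I)
  (hS : ∀ u v, D.Same u v → mo k u - mo k v ∈ I)

include hK hS in
theorem redun_mem {M : Mon e} (hM : D.Redun M) : mo k M ∈ mm k e * I := by
  obtain ⟨h0, N', hN', hKN⟩ := hM
  set N := M - Finsupp.single 0 1 with hN
  have hM : M = N + Finsupp.single 0 1 := (sub_single_add M (Finsupp.mem_support_iff.2 h0)).symm
  have h1 : mo k M = X 0 * (mo k N - mo k (N' + Finsupp.single (Fin.last e) 1))
      + X (Fin.last e) * mo k (N' + Finsupp.single 0 1) := by
    rw [hM, mo_add, mo_add, mo_add, mo_single, mo_single]; ring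
  rw [h1]
  apply Ideal.add_mem
  · exact Ideal.mul_mem_mul (X_mem_mm _) (hS _ _ hN'.symm)
  · exact Ideal.mul_mem_mul (X_mem_mm _) (hK _ hKN)

include hK hS in
theorem fM_mem (M : Mon e) : D.fM k M ∈ I := by
  classical
  rw [fM]
  split_ifs with h
  · exact hK _ h
  · exact hS _ _ (D.st_same M).symm

include hK hS in
theorem reduce (T : Submodule k (MvPolynomial (Fin (e + 1)) k))
    (hT1 : ∀ x ∈ mm k e * I, x ∈ T) (hT2 : ∀ M ∈ D.NC, D.fM k M ∈ T) (u : Mon e) :
    (D.K u → mo k u ∈ T) ∧ (¬ D.K u → mo k u - mo k (D.st u) ∈ T) := by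
  classical
  induction hn : ({v | D.Same v u ∧ key u < key v} : Set (Mon e)).ncard
    using Nat.strong_induction_on generalizing u with
  | _ n ih =>
  by_cases hu : D.Std u
  · refine ⟨fun h => absurd h hu.1, fun _ => ?_⟩
    rw [D.st_of_std hu, sub_self]
    exact T.zero_mem
  · obtain ⟨M, hMu, hM⟩ := D.exists_corner hu
    obtain ⟨c, rfl⟩ := exists_add_of_le hMu
    by_cases hc : c = 0
    · subst hc
      rw [add_zero]
      by_cases hR : D.Redun M
      · have hKM := D.corner_K hM hR.1
        exact ⟨fun _ => hT1 _ (D.redun_mem I hK hS hR), fun h => absurd hKM h⟩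
      · have h1 := hT2 M ⟨hM, hR⟩
        rw [fM] at h1
        constructor
        · intro h
          rwa [if_pos h] at h1
        · intro h
          rwa [if_neg h] at h1
    · have hcm : mo k c ∈ mm k e := mo_mem_mm hc
      by_cases hKM : D.K M
      · refine ⟨fun _ => ?_, fun h => absurd (hKM.add c) h⟩
        rw [mo_add, mul_comm]
        exact hT1 _ (Ideal.mul_mem_mul hcm (hK _ hKM))
      · have h1 : mo k c * (mo k M - mo k (D.st M)) ∈ T :=
          hT1 _ (Ideal.mul_mem_mul hcm (hS _ _ (D.st_same M).symm))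
        have h2 : mo k c * (mo k M - mo k (D.st M)) = mo k (M + c) - mo k (D.st M + c) := by
          rw [mo_add, mo_add]; ring
        rw [h2] at h1
        have hsame : D.Same (D.st M + c) (M + c) := (D.st_same M).add (Same.refl D c)
        have hkey : key (M + c) < key (D.st M + c) := by
          rw [key_add, key_add]
          exact add_lt_add_left (D.key_lt_st hM.1 hKM) _
        have hlt : ({v | D.Same v (D.st M + c) ∧ key (D.st M + c) < key v} : Set (Mon e)).ncard
            < n := by
          rw [← hn]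
          apply Set.ncard_lt_ncard
          · refine ⟨?_, ?_⟩
            · intro v hv
              exact ⟨hv.1.trans hsame, hkey.trans hv.2⟩
            · intro hsub
              have := hsub (show (D.st M + c) ∈ {v | D.Same v (M + c) ∧ key (M + c) < key v} from
                ⟨hsame, hkey⟩)
              exact lt_irrefl _ this.2
          · exact (D.finite_same (M + c)).subset fun v hv => hv.1
        obtain ⟨ih1, ih2⟩ := ih _ hlt (D.st M + c) rfl
        constructor
        · intro h
          have h3 := T.add_mem h1 (ih1 (h.congr hsame.symm))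
          rwa [sub_add_cancel] at h3
        · intro h
          have h3 := T.add_mem h1 (ih2 (fun h' => h (h'.congr hsame)))
          rw [D.st_congr hsame] at h3
          rwa [sub_add_sub_cancel] at h3

end Reduce

/-- the class sum -/
noncomputable def csum (u0 : Mon e) (f : MvPolynomial (Fin (e + 1)) k) : k :=
  ∑ v ∈ (D.finite_same u0).toFinset, coeff v f

/-- polynomials with vanishing class sums are in the reduced span -/
theorem mem_of_csum (I : Ideal (MvPolynomial (Fin (e + 1)) k))
    (hK : ∀ u, D.K u → mo k u ∈ I)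
    (hS : ∀ u v, D.Same u v → mo k u - mo k v ∈ I)
    (T : Submodule k (MvPolynomial (Fin (e + 1)) k))
    (hT1 : ∀ x ∈ mm k e * I, x ∈ T) (hT2 : ∀ M ∈ D.NC, D.fM k M ∈ T)
    {f : MvPolynomial (Fin (e + 1)) k} (hf : ∀ u0, ¬ D.K u0 → D.csum u0 f = 0) : f ∈ T := by
  classical
  set σ : Mon e → MvPolynomial (Fin (e + 1)) k := fun u => if D.K u then 0 else mo k (D.st u)
    with hσ
  have h1 : f = ∑ u ∈ f.support, coeff u f • (mo k u - σ u)
      + ∑ u ∈ f.support, coeff u f • σ u := by
    rw [← Finset.sum_add_distrib]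
    conv_lhs => rw [MvPolynomial.as_sum f]
    apply Finset.sum_congr rfl
    intro u _
    rw [← smul_add, sub_add_cancel, mo, smul_monomial, smul_eq_mul, mul_one]
  have h2 : ∑ u ∈ f.support, coeff u f • (mo k u - σ u) ∈ T := by
    apply T.sum_mem
    intro u _
    apply T.smul_mem
    have h3 := D.reduce I hK hS T hT1 hT2 u
    simp only [hσ]
    split_ifs with h
    · rw [sub_zero]; exact h3.1 h
    · exact h3.2 h
  have h3 : ∑ u ∈ f.support, coeff u f • σ u = 0 := by
    rw [← Finset.sum_fiberwise_of_maps_to (g := D.st) (t := f.support.image D.st)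
      (fun u hu => Finset.mem_image_of_mem _ hu)]
    apply Finset.sum_eq_zero
    intro P hP
    rw [Finset.mem_image] at hP
    obtain ⟨u1, hu1, rfl⟩ := hP
    have hfib : ∀ u, D.st u = D.st u1 ↔ D.Same u (D.st u1) := by
      intro u
      constructor
      · intro h
        rw [← h]; exact (D.st_same u).symm
      · intro h
        rw [D.st_congr h, D.st_st]
    by_cases hKP : D.K (D.st u1)
    · apply Finset.sum_eq_zero
      intro u hu
      rw [Finset.mem_filter, hfib] at hu
      simp only [hσ]
      rw [if_pos (hKP.congr hu.2.symm), smul_zero]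
    · have h4 : ∀ u ∈ f.support.filter (fun u => D.st u = D.st u1),
          coeff u f • σ u = coeff u f • mo k (D.st u1) := by
        intro u hu
        rw [Finset.mem_filter] at hu
        have h5 := (hfib u).1 hu.2
        simp only [hσ]
        rw [if_neg (fun h => hKP (h.congr h5)), hu.2]
      rw [Finset.sum_congr rfl h4, ← Finset.sum_smul]
      have h5 : ∑ u ∈ f.support.filter (fun u => D.st u = D.st u1), coeff u f
          = D.csum (D.st u1) f := by
        rw [csum]
        apply Finset.sum_subset_zero_on_sdiff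
        · intro u hu
          rw [Finset.mem_filter, hfib] at hu
          rw [Set.Finite.mem_toFinset]
          exact hu.2
        · intro u hu
          rw [Finset.mem_sdiff, Set.Finite.mem_toFinset, Finset.mem_filter, hfib] at hu
          by_contra hcon
          exact hu.2 ⟨MvPolynomial.mem_support_iff.2 hcon, hu.1⟩
        · intro u _; rfl
      rw [h5, hf _ hKP, zero_smul]
  rw [h1, h3, add_zero]
  exact h2

/-- the number of generators is at most the number of nonredundant corners -/
theorem finrank_le (I : Ideal (MvPolynomial (Fin (e + 1)) k))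
    (hK : ∀ u, D.K u → mo k u ∈ I)
    (hS : ∀ u v, D.Same u v → mo k u - mo k v ∈ I)
    (hf : ∀ f ∈ I, ∀ u0, ¬ D.K u0 → D.csum u0 f = 0) :
    Module.finrank k (↥I ⧸ ((Ideal.span (Set.range
                (MvPolynomial.X : Fin (e + 1) → MvPolynomial (Fin (e + 1)) k))) •
              (⊤ : Submodule (MvPolynomial (Fin (e + 1)) k) ↥I))) ≤ D.NC.ncard := by
  classical
  set R := MvPolynomial (Fin (e + 1)) k with hR
  set P : Submodule R I := (mm k e) • (⊤ : Submodule R I) with hP
  set T : Submodule k R := (Submodule.restrictScalars k (mm k e * I : Ideal R)) ⊔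
    Submodule.span k (D.fM k '' D.NC) with hT
  have hT1 : ∀ x ∈ mm k e * I, x ∈ T := fun x hx =>
    Submodule.mem_sup_left (by rwa [Submodule.restrictScalars_mem])
  have hT2 : ∀ M ∈ D.NC, D.fM k M ∈ T := fun M hM =>
    Submodule.mem_sup_right (Submodule.subset_span ⟨M, hM, rfl⟩)
  -- elements of `mm * I` vanish in the quotient
  have hP0 : ∀ (x : R) (hx : x ∈ I), x ∈ mm k e * I → (⟨x, hx⟩ : I) ∈ P := by
    intro x hx hx2
    have h1 : (P.map I.subtype) = mm k e * I := by
      rw [hP, Submodule.map_smul'', Submodule.map_top, Submodule.range_subtype]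
      rfl
    rw [← h1, Submodule.mem_map] at hx2
    obtain ⟨y, hy, hyx⟩ := hx2
    have : y = ⟨x, hx⟩ := Subtype.ext hyx
    rwa [← this]
  set S : Set (I ⧸ P) := (fun M => (Submodule.Quotient.mk ⟨D.fM k M, D.fM_mem I hK hS M⟩ : I ⧸ P))
    '' D.NC with hSdef
  have hspan : ∀ y ∈ Submodule.span k (D.fM k '' D.NC), ∃ hy : y ∈ I,
      (Submodule.Quotient.mk ⟨y, hy⟩ : I ⧸ P) ∈ Submodule.span k S := by
    intro y hy
    induction hy using Submodule.span_induction with
    | mem x hx =>
      obtain ⟨M, hM, rfl⟩ := hx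
      exact ⟨D.fM_mem I hK hS M, Submodule.subset_span ⟨M, hM, rfl⟩⟩
    | zero => exact ⟨I.zero_mem, Submodule.zero_mem _⟩
    | add x y _ _ hx hy =>
      obtain ⟨hx1, hx2⟩ := hx
      obtain ⟨hy1, hy2⟩ := hy
      exact ⟨I.add_mem hx1 hy1, Submodule.add_mem _ hx2 hy2⟩
    | smul a x _ hx =>
      obtain ⟨hx1, hx2⟩ := hx
      refine ⟨?_, ?_⟩
      · rw [MvPolynomial.smul_eq_C_mul]; exact I.mul_mem_left _ hx1
      · exact Submodule.smul_mem _ a hx2
  have hle : mm k e * I ≤ I := Ideal.mul_le_right
  have htop : Submodule.span k S = ⊤ := by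
    rw [eq_top_iff]
    intro q _
    obtain ⟨⟨x, hx⟩, rfl⟩ := Submodule.Quotient.mk_surjective _ q
    have hxT : x ∈ T := D.mem_of_csum I hK hS T hT1 hT2 (hf x hx)
    rw [hT, Submodule.mem_sup] at hxT
    obtain ⟨s, hs, y, hy, hsy⟩ := hxT
    rw [Submodule.restrictScalars_mem] at hs
    obtain ⟨hyI, hyS⟩ := hspan y hy
    have hs' : s ∈ mm k e * I := hs
    have hsI : s ∈ I := hle hs'
    have h1 : (Submodule.Quotient.mk ⟨x, hx⟩ : I ⧸ P) = Submodule.Quotient.mk ⟨y, hyI⟩ := by
      rw [Submodule.Quotient.eq]
      have h2 : (⟨x, hx⟩ : I) - ⟨y, hyI⟩ = ⟨s, hsI⟩ := by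
        apply Subtype.ext
        simp only [AddSubgroupClass.coe_sub]
        rw [← hsy]; ring
      rw [h2]
      exact hP0 s hsI hs
    rw [h1]
    exact hyS
  have hSfin : S.Finite := D.NC_finite.image _
  have h1 : Module.finrank k (I ⧸ P) ≤ S.ncard := finrank_le_of_span S hSfin htop
  exact h1.trans (Set.ncard_image_le D.NC_finite)

end Dat

end Pool.Agent.H13.HS
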