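import Mathlib

/-! # Monomials, classes, the order and the standard monomials -/

set_option autoImplicit false
set_option linter.unusedSectionVars false
set_option linter.unusedVariables false

namespace Pool.Agent.H13.HS

open Finset

abbrev Mon (e : ℕ) := Fin (e + 1) →₀ ℕ

variable {e : ℕ}

/-- total degree -/
def dg (u : Mon e) : ℕ := ∑ i, u i

theorem dg_add (u v : Mon e) : dg (u + v) = dg u + dg v := by
  simp [dg, Finset.sum_add_distrib]

theorem dg_zero : dg (0 : Mon e) = 0 := by simp [dg]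

theorem dg_single (i : Fin (e + 1)) (n : ℕ) : dg (Finsupp.single i n) = n := by
  simp [dg, Finsupp.single_apply]

/-- the data -/
structure Dat (e : ℕ) where
  b : Fin (e + 1) → ℕ
  m : ℕ
  γ : ℕ
  he : 1 ≤ e
  hb : StrictMono b
  hb0 : b 0 = 0
  hgcd : Finset.univ.gcd b = 1
  hm : 1 ≤ m
  hγ : 1 ≤ γ
  hmin : ∀ i : Fin (e + 1), ∀ (u : Mon e) (k : ℕ), 0 < k → dg u = 1 + k * γ →
    ∑ j, u j * b j + k * m ≠ b i

namespace Dat

variable (D : Dat e)

def w : ℕ := D.b (Fin.last e)

/-- the second weight -/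
def rho (u : Mon e) : ℕ := ∑ i, u i * D.b i

theorem rho_add (u v : Mon e) : D.rho (u + v) = D.rho u + D.rho v := by
  simp [rho, add_mul, Finset.sum_add_distrib]

theorem rho_zero : D.rho (0 : Mon e) = 0 := by simp [rho]

theorem rho_single (i : Fin (e + 1)) (n : ℕ) : D.rho (Finsupp.single i n) = n * D.b i := by
  simp [rho, Finsupp.single_apply]

include D in
theorem zero_ne_last : (0 : Fin (e + 1)) ≠ Fin.last e := by
  have := D.he
  intro h
  have h2 := congrArg Fin.val h
  simp at h2
  omega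

theorem w_pos : 0 < D.w := by
  have h1 : (0 : Fin (e + 1)) < Fin.last e := by
    rw [Fin.lt_def]; simp; exact D.he
  have := D.hb h1
  rw [D.hb0] at this
  exact this

theorem b_le_w (i : Fin (e + 1)) : D.b i ≤ D.w := D.hb.monotone (Fin.le_last i)

theorem b_lt_w {i : Fin (e + 1)} (hi : i ≠ Fin.last e) : D.b i < D.w :=
  D.hb (lt_of_le_of_ne (Fin.le_last i) hi)

theorem b_pos {i : Fin (e + 1)} (hi : i ≠ 0) : 0 < D.b i := by
  have := D.hb (lt_of_le_of_ne (Fin.zero_le i) (Ne.symm hi))
  rw [D.hb0] at this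
  exact this

theorem rho_le (u : Mon e) : D.rho u ≤ dg u * D.w := by
  rw [rho, dg, Finset.sum_mul]
  exact Finset.sum_le_sum fun i _ => Nat.mul_le_mul_left _ (D.b_le_w i)

/-- same class in `ℕ × ℕ` -/
def Same (u v : Mon e) : Prop := dg u = dg v ∧ D.rho u = D.rho v

theorem Same.refl (u : Mon e) : D.Same u u := ⟨rfl, rfl⟩

variable {D} in
theorem Same.symm {u v : Mon e} (h : D.Same u v) : D.Same v u := ⟨h.1.symm, h.2.symm⟩

variable {D} in
theorem Same.trans {u v x : Mon e} (h : D.Same u v) (h' : D.Same v x) : D.Same u x :=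
  ⟨h.1.trans h'.1, h.2.trans h'.2⟩

variable {D} in
theorem Same.add {u v u' v' : Mon e} (h : D.Same u v) (h' : D.Same u' v') :
    D.Same (u + u') (v + v') := by
  constructor
  · rw [dg_add, dg_add, h.1, h'.1]
  · rw [rho_add, rho_add, h.2, h'.2]

/-- `u` lies in the non-maximal-order part -/
def K (u : Mon e) : Prop := ∃ (u' : Mon e) (k : ℕ), 0 < k ∧ dg u' = dg u + k * D.γ ∧
  D.rho u' + k * D.m = D.rho u

variable {D} in
theorem K.add {u : Mon e} (h : D.K u) (s : Mon e) : D.K (u + s) := by
  obtain ⟨u', k, hk, h1, h2⟩ := h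
  refine ⟨u' + s, k, hk, ?_, ?_⟩
  · rw [dg_add, dg_add, h1]; ring
  · rw [rho_add, rho_add, ← h2]; ring

variable {D} in
theorem K.congr {u v : Mon e} (h : D.K u) (h' : D.Same u v) : D.K v := by
  obtain ⟨u', k, hk, h1, h2⟩ := h
  exact ⟨u', k, hk, by rw [h1, h'.1], by rw [h2, h'.2]⟩

/-- the order key: first the exponent of `x_0`, then of `x_w`, then lexicographic -/
def key (u : Mon e) : ℕ ×ₗ ℕ ×ₗ Lex (Mon e) := toLex (u 0, toLex (u (Fin.last e), toLex u))

theorem key_add (u v : Mon e) : key (u + v) = key u + key v := rfl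

theorem key_injective : Function.Injective (key : Mon e → _) := by
  intro u v h
  have h1 : (u 0, toLex (u (Fin.last e), toLex u)) = (v 0, toLex (v (Fin.last e), toLex v)) :=
    toLex.injective h
  have h2 := congrArg Prod.snd h1
  have h3 : (u (Fin.last e), toLex u) = (v (Fin.last e), toLex v) := toLex.injective h2
  exact toLex.injective (congrArg Prod.snd h3)

theorem key_lt_of_zero {u v : Mon e} (h : u 0 < v 0) : key u < key v := by
  rw [key, key, Prod.Lex.toLex_lt_toLex]
  left; exact h

theorem key_lt_of_last {u v : Mon e} (h0 : u 0 ≤ v 0) (h : u (Fin.last e) < v (Fin.last e)) :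
    key u < key v := by
  rw [key, key, Prod.Lex.toLex_lt_toLex]
  rcases h0.lt_or_eq with h1 | h1
  · left; exact h1
  · right
    refine ⟨h1, ?_⟩
    show toLex (u (Fin.last e), toLex u) < toLex (v (Fin.last e), toLex v)
    rw [Prod.Lex.toLex_lt_toLex]
    left; exact h

theorem zero_le_of_key_le {u v : Mon e} (h : key u ≤ key v) : u 0 ≤ v 0 := by
  by_contra hcon
  push Not at hcon
  exact absurd (key_lt_of_zero hcon) (not_lt.2 h)

/-- standard monomials -/
def Std (u : Mon e) : Prop := ¬ D.K u ∧ ∀ v, D.Same v u → key v ≤ key u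

variable {D} in
theorem Std.unique {u v : Mon e} (hu : D.Std u) (hv : D.Std v) (h : D.Same u v) : u = v :=
  key_injective (le_antisymm (hv.2 u h) (hu.2 v h.symm))

variable {D} in
theorem Std.of_add {u s : Mon e} (h : D.Std (u + s)) : D.Std u := by
  refine ⟨fun hK => h.1 (hK.add s), ?_⟩
  intro v hv
  have h1 := h.2 (v + s) (hv.add (Same.refl D s))
  rw [key_add, key_add] at h1
  exact le_of_add_le_add_right h1

variable {D} in
theorem Std.of_le {u v : Mon e} (h : D.Std v) (huv : u ≤ v) : D.Std u := by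
  obtain ⟨s, rfl⟩ := exists_add_of_le huv
  exact h.of_add

variable {D} in
/-- a standard monomial without `x_0`, `x_w` is alone against monomials with `x_0` or `x_w` -/
theorem Std.no_outer {u v : Mon e} (h : D.Std u) (h0 : u 0 = 0) (hl : u (Fin.last e) = 0)
    (hv : D.Same v u) (h' : 0 < v 0 ∨ 0 < v (Fin.last e)) : False := by
  have h1 := h.2 v hv
  apply absurd h1 (not_le.2 _)
  rcases h' with h' | h'
  · exact key_lt_of_zero (by omega)
  · exact key_lt_of_last (by omega) (by omega)

theorem finite_same (u : Mon e) : {v : Mon e | D.Same v u}.Finite := by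
  apply Set.Finite.subset (Set.finite_Iic (Finsupp.equivFunOnFinite.symm (fun _ => dg u) : Mon e))
  intro v hv
  rw [Set.mem_Iic]
  intro i
  have h1 : dg v = dg u := hv.1
  simp only [Finsupp.equivFunOnFinite_symm_apply_apply]
  rw [← h1, dg]
  exact Finset.single_le_sum (f := fun i => v i) (fun _ _ => Nat.zero_le _) (Finset.mem_univ i)

theorem exists_max (u : Mon e) : ∃ v, D.Same v u ∧ ∀ x, D.Same x u → key x ≤ key v := by
  obtain ⟨v, hv, hmax⟩ := Set.exists_max_image _ key (D.finite_same u) ⟨u, Same.refl D u⟩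
  exact ⟨v, hv, hmax⟩

end Dat

end Pool.Agent.H13.HS
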