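import Pool.Agent.H13.HS.Iso

/-! # Growth of iterated sumsets and the deficiency sum -/

set_option autoImplicit false
set_option linter.unusedSectionVars false
set_option linter.unusedVariables false

namespace Pool.Agent.H13.HS

open Finset Pointwise

section Growth

variable {G : Type*} [AddCommGroup G] [Fintype G] [DecidableEq G]

theorem nsmul_subset_succ {B : Finset G} (h0 : (0 : G) ∈ B) (j : ℕ) : j • B ⊆ (j + 1) • B := by
  rw [succ_nsmul]
  exact subset_add_of_zero_mem h0 _

theorem zero_mem_nsmul {B : Finset G} (h0 : (0 : G) ∈ B) (j : ℕ) : (0 : G) ∈ j • B := by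
  induction j with
  | zero => rw [zero_nsmul]; exact Finset.mem_singleton_self 0
  | succ j ih => exact nsmul_subset_succ h0 j ih

theorem nsmul_mono' {B : Finset G} (h0 : (0 : G) ∈ B) {i j : ℕ} (h : i ≤ j) : i • B ⊆ j • B := by
  induction h with
  | refl => exact Finset.Subset.refl _
  | step _ ih => exact ih.trans (nsmul_subset_succ h0 _)

theorem growth {B : Finset G} (h0 : (0 : G) ∈ B) {κ : ℕ}
    (hmin : ∀ X, Adm B X → X.card + κ ≤ (X + B).card) (j : ℕ) :
    min (Fintype.card G) (B.card + j * κ) ≤ ((j + 1) • B).card := by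
  induction j with
  | zero => simp
  | succ j ih =>
    by_cases h : (j + 1 + 1) • B = univ
    · rw [h, Finset.card_univ]; exact min_le_left _ _
    · have hadm : Adm B ((j + 1) • B) := by
        refine ⟨⟨0, zero_mem_nsmul h0 _⟩, ?_⟩
        rwa [succ_nsmul] at h
      have h1 := hmin _ hadm
      rw [← succ_nsmul] at h1
      have h2 : (j + 1) * κ = j * κ + κ := by ring
      rw [h2]
      omega

theorem exists_nsmul_univ {B : Finset G} (h0 : (0 : G) ∈ B) {κ : ℕ} (hκ : 1 ≤ κ)
    (hmin : ∀ X, Adm B X → X.card + κ ≤ (X + B).card) : ∃ J, (J + 1) • B = univ := by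
  refine ⟨Fintype.card G, ?_⟩
  apply Finset.eq_univ_of_card
  apply le_antisymm (Finset.card_le_univ _)
  have h1 := growth h0 hmin (Fintype.card G)
  have h2 : Fintype.card G ≤ Fintype.card G * κ := Nat.le_mul_of_pos_right _ hκ
  omega

theorem arith_sum (κ ρ : ℕ) (hρ : ρ < κ) (q J : ℕ) :
    2 * ∑ j ∈ range J, (q * κ + ρ - j * κ) ≤ (q + 1) * (q * κ + 2 * ρ) := by
  induction q generalizing J with
  | zero =>
    cases J with
    | zero => simp
    | succ J =>
      rw [Finset.sum_range_succ']
      have : ∑ k ∈ range J, (0 * κ + ρ - (k + 1) * κ) = 0 := by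
        apply Finset.sum_eq_zero
        intro k _
        have : κ ≤ (k + 1) * κ := Nat.le_mul_of_pos_left _ (Nat.succ_pos k)
        omega
      rw [this]; simp
  | succ q ih =>
    cases J with
    | zero => simp
    | succ J =>
      rw [Finset.sum_range_succ']
      have h1 : ∑ k ∈ range J, ((q + 1) * κ + ρ - (k + 1) * κ) = ∑ k ∈ range J, (q * κ + ρ - k * κ) := by
        apply Finset.sum_congr rfl
        intro k _
        have e1 : (q + 1) * κ = q * κ + κ := by ring
        have e2 : (k + 1) * κ = k * κ + κ := by ring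
        omega
      rw [h1]
      have h2 := ih J
      have h3 : (q + 1 + 1) * ((q + 1) * κ + 2 * ρ) =
          (q + 1) * (q * κ + 2 * ρ) + 2 * ((q + 1) * κ + ρ) := by ring
      rw [h3]
      simp only [zero_mul, Nat.sub_zero]
      omega

theorem two_delta_le {B : Finset G} (h0 : (0 : G) ∈ B) {κ : ℕ}
    (hmin : ∀ X, Adm B X → X.card + κ ≤ (X + B).card) (q ρ : ℕ) (hρ : ρ < κ)
    (ht : Fintype.card G = B.card + (q * κ + ρ)) (J : ℕ) :
    2 * ∑ j ∈ range J, (Fintype.card G - ((j + 1) • B).card) ≤ (q + 1) * (q * κ + 2 * ρ) := by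
  refine le_trans ?_ (arith_sum κ ρ hρ q J)
  apply Nat.mul_le_mul_left
  apply Finset.sum_le_sum
  intro j _
  have := growth h0 hmin j
  omega

/-- Double counting of the deficiencies. -/
theorem sum_deficiency (B : Finset G) (J : ℕ) :
    ∑ c : G, ((range J).filter (fun j => c ∉ (j + 1) • B)).card
      = ∑ j ∈ range J, (Fintype.card G - ((j + 1) • B).card) := by
  simp only [Finset.card_filter]
  rw [Finset.sum_comm]
  apply Finset.sum_congr rfl
  intro j _
  rw [← Finset.card_filter, Finset.filter_not]
  rw [Finset.card_sdiff_of_subset (Finset.filter_subset _ _), Finset.card_univ]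
  congr 2
  ext x
  simp

end Growth

end Pool.Agent.H13.HS
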