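import Pool.Agent.H13.HS.Basic
import Pool.Agent.H13.HS.Growth

/-! # Counting by classes modulo the width -/

set_option autoImplicit false
set_option linter.unusedSectionVars false
set_option linter.unusedVariables false

namespace Pool.Agent.H13.HS

open Finset Pointwise

/-- counting an antichain in `ℕ × ℕ` -/
theorem count_class (S : Finset (ℕ × ℕ))
    (hanti : ∀ p ∈ S, ∀ p' ∈ S, p.1 ≤ p'.1 → p.2 ≤ p'.2 → p = p')
    (αy qy α0 q0 : ℕ) (h : ∀ p ∈ S, α0 ≤ p.1 ∧ q0 ≤ p.2 ∧ (p.2 < qy ∨ p.1 ≤ αy)) :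
    S.card ≤ (qy - q0) + (αy + 1 - α0) := by
  classical
  have hinj2 : ∀ p ∈ S, ∀ p' ∈ S, p.2 = p'.2 → p = p' := by
    intro p hp p' hp' h2
    rcases le_total p.1 p'.1 with h1 | h1
    · exact hanti p hp p' hp' h1 h2.le
    · exact (hanti p' hp' p hp h1 h2.symm.le).symm
  have hinj1 : ∀ p ∈ S, ∀ p' ∈ S, p.1 = p'.1 → p = p' := by
    intro p hp p' hp' h1
    rcases le_total p.2 p'.2 with h2 | h2
    · exact hanti p hp p' hp' h1.le h2
    · exact (hanti p' hp' p hp h1.symm.le h2).symm
  rw [← Finset.card_filter_add_card_filter_not (s := S) (fun p => p.2 < qy)]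
  apply Nat.add_le_add
  · have h1 : (S.filter (fun p => p.2 < qy)).card ≤ (Finset.Ico q0 qy).card := by
      apply Finset.card_le_card_of_injOn (fun p => p.2)
      · intro p hp
        have hp' := Finset.mem_filter.1 hp
        simp only [Finset.coe_Ico, Set.mem_Ico]
        exact ⟨(h p hp'.1).2.1, hp'.2⟩
      · intro p hp p' hp' heq
        exact hinj2 p (Finset.mem_filter.1 hp).1 p' (Finset.mem_filter.1 hp').1 heq
    rwa [Nat.card_Ico] at h1
  · have h1 : (S.filter (fun p => ¬ p.2 < qy)).card ≤ (Finset.Icc α0 αy).card := by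
      apply Finset.card_le_card_of_injOn (fun p => p.1)
      · intro p hp
        have hp' := Finset.mem_filter.1 hp
        simp only [Finset.coe_Icc, Set.mem_Icc]
        refine ⟨(h p hp'.1).1, ?_⟩
        rcases (h p hp'.1).2.2 with h3 | h3
        · exact absurd h3 hp'.2
        · exact h3
      · intro p hp p' hp' heq
        exact hinj1 p (Finset.mem_filter.1 hp).1 p' (Finset.mem_filter.1 hp').1 heq
    rwa [Nat.card_Icc] at h1

variable {e : ℕ}

namespace Dat

variable (D : Dat e)

instance : NeZero D.w := ⟨D.w_pos.ne'⟩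

/-- the generators modulo the width -/
def B : Finset (ZMod D.w) := univ.image (fun i => (D.b i : ZMod D.w))

theorem zero_mem_B : (0 : ZMod D.w) ∈ D.B := by
  rw [B, Finset.mem_image]
  exact ⟨0, Finset.mem_univ _, by rw [D.hb0]; simp⟩

theorem card_B : D.B.card = e := by
  classical
  have h1 : D.B = (univ.erase (Fin.last e)).image (fun i => (D.b i : ZMod D.w)) := by
    apply Finset.Subset.antisymm
    · intro c hc
      rw [B, Finset.mem_image] at hc
      obtain ⟨i, _, rfl⟩ := hc
      rw [Finset.mem_image]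
      by_cases h : i = Fin.last e
      · refine ⟨0, Finset.mem_erase.2 ⟨D.zero_ne_last, Finset.mem_univ _⟩, ?_⟩
        subst h
        rw [D.hb0]
        show ((0 : ℕ) : ZMod D.w) = ((D.w : ℕ) : ZMod D.w)
        simp
      · exact ⟨i, Finset.mem_erase.2 ⟨h, Finset.mem_univ _⟩, rfl⟩
    · exact Finset.image_subset_image (Finset.erase_subset _ _)
  rw [h1, Finset.card_image_of_injOn]
  · rw [Finset.card_erase_of_mem (Finset.mem_univ _), Finset.card_univ, Fintype.card_fin]
    omega
  · intro i hi j hj h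
    have hi' := D.b_lt_w (Finset.mem_erase.1 hi).1
    have hj' := D.b_lt_w (Finset.mem_erase.1 hj).1
    have h2 := congrArg ZMod.val h
    simp only [ZMod.val_natCast, Nat.mod_eq_of_lt hi', Nat.mod_eq_of_lt hj'] at h2
    exact D.hb.injective h2

/-- the class of a monomial modulo the width -/
def cl (u : Mon e) : ZMod D.w := (D.rho u : ZMod D.w)

/-- second coordinate -/
def qc (u : Mon e) : ℕ := D.rho u / D.w

/-- first coordinate -/
def ac (u : Mon e) : ℕ := dg u - D.qc u

theorem qc_le (u : Mon e) : D.qc u ≤ dg u := by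
  rw [qc]
  exact Nat.div_le_of_le_mul (by rw [mul_comm]; exact D.rho_le u)

theorem dg_eq (u : Mon e) : dg u = D.ac u + D.qc u := by
  rw [ac]
  have := D.qc_le u
  omega

theorem val_cl (u : Mon e) : (D.cl u).val = D.rho u % D.w := by
  rw [cl, ZMod.val_natCast]

theorem rho_eq (u : Mon e) : D.rho u = (D.cl u).val + D.qc u * D.w := by
  rw [val_cl, qc, mul_comm]
  exact (Nat.mod_add_div _ _).symm

theorem same_of {u v : Mon e} (hc : D.cl u = D.cl v) (ha : D.ac u = D.ac v)
    (hq : D.qc u = D.qc v) : D.Same u v := by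
  constructor
  · rw [D.dg_eq u, D.dg_eq v, ha, hq]
  · rw [D.rho_eq u, D.rho_eq v, hc, hq]

theorem ac_pos {u : Mon e} (h : D.cl u ≠ 0) : 1 ≤ D.ac u := by
  by_contra hcon
  have h0 : D.ac u = 0 := by omega
  have h1 := D.rho_le u
  have h2 := D.rho_eq u
  have h3 := D.dg_eq u
  rw [h0, zero_add] at h3
  rw [h3] at h1
  have h4 : (D.cl u).val = 0 := by omega
  exact h ((ZMod.val_eq_zero _).1 h4)

/-- moving up by `x_0` and `x_w` -/
theorem same_up {u v : Mon e} {s t : ℕ} (hc : D.cl u = D.cl v) (ha : D.ac u + s = D.ac v)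
    (hq : D.qc u + t = D.qc v) :
    D.Same (u + (Finsupp.single 0 s + Finsupp.single (Fin.last e) t)) v := by
  constructor
  · rw [dg_add, dg_add, dg_single, dg_single, D.dg_eq u, D.dg_eq v]; omega
  · rw [rho_add, rho_add, rho_single, rho_single, D.hb0, D.rho_eq u, D.rho_eq v, hc, ← hq]
    show _ + (s * 0 + t * D.w) = _
    ring

include D in
theorem up_zero (u : Mon e) (s t : ℕ) :
    (u + (Finsupp.single 0 s + Finsupp.single (Fin.last e) t) : Mon e) 0 = u 0 + s := by
  have h := D.zero_ne_last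
  simp [Finsupp.single_apply, h.symm]

include D in
theorem up_last (u : Mon e) (s t : ℕ) :
    (u + (Finsupp.single 0 s + Finsupp.single (Fin.last e) t) : Mon e) (Fin.last e)
      = u (Fin.last e) + t := by
  have h := D.zero_ne_last
  simp [Finsupp.single_apply, h]

/-- elements of the `j`-fold sumset come from monomials of degree `j` -/
theorem exists_of_mem_nsmul {j : ℕ} {c : ZMod D.w} (h : c ∈ j • D.B) :
    ∃ u : Mon e, dg u = j ∧ D.cl u = c := by
  induction j generalizing c with
  | zero =>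
    rw [zero_nsmul] at h
    have : c = 0 := by simpa using h
    subst this
    exact ⟨0, dg_zero, by rw [cl, rho_zero]; simp⟩
  | succ j ih =>
    rw [succ_nsmul, Finset.mem_add] at h
    obtain ⟨x, hx, y, hy, rfl⟩ := h
    obtain ⟨u, hu1, hu2⟩ := ih hx
    rw [B, Finset.mem_image] at hy
    obtain ⟨i, _, rfl⟩ := hy
    refine ⟨u + Finsupp.single i 1, ?_, ?_⟩
    · rw [dg_add, dg_single, hu1]
    · rw [cl, rho_add, rho_single, Nat.cast_add, one_mul, ← hu2, cl]

/-- number of missing sumsets -/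
def dc (J : ℕ) (c : ZMod D.w) : ℕ := ((range J).filter (fun j => c ∉ (j + 1) • D.B)).card

theorem exists_low {J : ℕ} (hJ : (J + 1) • D.B = univ) (c : ZMod D.w) :
    ∃ y : Mon e, D.cl y = c ∧ dg y ≤ D.dc J c + 1 := by
  classical
  have hex : ∃ j, c ∈ (j + 1) • D.B := ⟨J, by rw [hJ]; exact Finset.mem_univ _⟩
  obtain ⟨y, hy1, hy2⟩ := D.exists_of_mem_nsmul (Nat.find_spec hex)
  refine ⟨y, hy2, ?_⟩
  rw [hy1]
  have hle : Nat.find hex ≤ J := Nat.find_min' hex (by rw [hJ]; exact Finset.mem_univ _)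
  have hsub : range (Nat.find hex) ⊆ (range J).filter (fun j => c ∉ (j + 1) • D.B) := by
    intro j hj
    rw [Finset.mem_range] at hj
    rw [Finset.mem_filter, Finset.mem_range]
    exact ⟨by omega, Nat.find_min hex hj⟩
  have := Finset.card_le_card hsub
  rw [Finset.card_range] at this
  rw [dc]
  omega

/-- Count of the inner standard monomials in one class. -/
theorem count_OG_class (F : Finset (Mon e))
    (hF : ∀ u ∈ F, D.Std u ∧ u 0 = 0 ∧ u (Fin.last e) = 0) (c : ZMod D.w)
    (hc : ∀ u ∈ F, D.cl u = c) (y : Mon e) (hy : D.cl y = c) (α0 q0 : ℕ)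
    (hα0 : ∀ u, D.cl u = c → α0 ≤ D.ac u) (hq0 : ∀ u, D.cl u = c → q0 ≤ D.qc u) :
    F.card + (α0 + q0) ≤ dg y + 1 := by
  classical
  have hinj : Set.InjOn (fun u => (D.ac u, D.qc u)) (F : Set (Mon e)) := by
    intro u hu v hv h
    simp only [Prod.mk.injEq] at h
    exact (hF u hu).1.unique (hF v hv).1 (D.same_of ((hc u hu).trans (hc v hv).symm) h.1 h.2)
  have h1 : F.card = (F.image (fun u => (D.ac u, D.qc u))).card :=
    (Finset.card_image_of_injOn hinj).symm
  -- a standard inner monomial is not strictly above a monomial of the same class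
  have habove : ∀ u ∈ F, ∀ v : Mon e, D.cl v = c → D.ac v ≤ D.ac u → D.qc v ≤ D.qc u →
      D.ac v = D.ac u ∧ D.qc v = D.qc u := by
    intro u hu v hv ha hq
    by_contra hcon
    have hs := D.same_up (u := v) (v := u) (s := D.ac u - D.ac v) (t := D.qc u - D.qc v)
      (hv.trans (hc u hu).symm) (by omega) (by omega)
    apply (hF u hu).1.no_outer (hF u hu).2.1 (hF u hu).2.2 hs
    rw [D.up_zero, D.up_last]
    omega
  have h2 := count_class (F.image (fun u => (D.ac u, D.qc u))) (by
    intro p hp p' hp' h1 h2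
    rw [Finset.mem_image] at hp hp'
    obtain ⟨u, hu, rfl⟩ := hp
    obtain ⟨v, hv, rfl⟩ := hp'
    have := habove v hv u (hc u hu) h1 h2
    exact Prod.ext this.1 this.2) (D.ac y) (D.qc y) α0 q0 (by
    intro p hp
    rw [Finset.mem_image] at hp
    obtain ⟨u, hu, rfl⟩ := hp
    refine ⟨hα0 u (hc u hu), hq0 u (hc u hu), ?_⟩
    by_contra hcon
    push Not at hcon
    have := habove u hu y hy hcon.2.le hcon.1
    simp only at hcon
    omega)
  rw [← h1] at h2
  have h3 := hα0 y hy
  have h4 := hq0 y hy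
  have h5 := D.dg_eq y
  omega

/-- The bound for the number of inner standard monomials. -/
theorem NG_bound (F : Finset (Mon e))
    (hF : ∀ u ∈ F, D.Std u ∧ u 0 = 0 ∧ u (Fin.last e) = 0) {J : ℕ} (hJ : (J + 1) • D.B = univ)
    (α0 q0 : ZMod D.w → ℕ)
    (hα0 : ∀ u, D.cl u ≠ 0 → α0 (D.cl u) ≤ D.ac u)
    (hq0 : ∀ u, D.cl u ≠ 0 → q0 (D.cl u) ≤ D.qc u)
    (h1 : ∀ c, c ≠ 0 → 1 ≤ α0 c + q0 c) :
    F.card + ∑ c ∈ univ.erase (0 : ZMod D.w), (α0 c + q0 c - 1)
      ≤ D.w + ∑ c, D.dc J c := by
  classical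
  have hfib : F.card = ∑ c : ZMod D.w, (F.filter (fun u => D.cl u = c)).card :=
    Finset.card_eq_sum_card_fiberwise (fun u _ => by simp)
  have hz : (F.filter (fun u => D.cl u = (0 : ZMod D.w))).card ≤ 1 := by
    have := D.count_OG_class (F.filter (fun u => D.cl u = (0 : ZMod D.w)))
      (fun u hu => hF u (Finset.mem_filter.1 hu).1) 0 (fun u hu => (Finset.mem_filter.1 hu).2)
      0 (by rw [cl, rho_zero]; simp) 0 0 (fun _ _ => Nat.zero_le _) (fun _ _ => Nat.zero_le _)
    rw [dg_zero] at this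
    omega
  have hnz : ∀ c ∈ univ.erase (0 : ZMod D.w),
      (F.filter (fun u => D.cl u = c)).card + (α0 c + q0 c - 1) ≤ D.dc J c + 1 := by
    intro c hc
    have hc0 := (Finset.mem_erase.1 hc).1
    obtain ⟨y, hy1, hy2⟩ := D.exists_low hJ c
    have := D.count_OG_class (F.filter (fun u => D.cl u = c))
      (fun u hu => hF u (Finset.mem_filter.1 hu).1) c (fun u hu => (Finset.mem_filter.1 hu).2)
      y hy1 (α0 c) (q0 c) (fun u hu => by
        have := hα0 u (by rw [hu]; exact hc0)
        rwa [hu] at this) (fun u hu => by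
        have := hq0 u (by rw [hu]; exact hc0)
        rwa [hu] at this)
    have := h1 c hc0
    omega
  have hsum := Finset.sum_le_sum hnz
  rw [Finset.sum_add_distrib, Finset.sum_add_distrib, Finset.sum_const, smul_eq_mul, mul_one,
    Finset.card_erase_of_mem (Finset.mem_univ _), Finset.card_univ, ZMod.card] at hsum
  rw [hfib, ← Finset.add_sum_erase _ _ (Finset.mem_univ (0 : ZMod D.w)),
    ← Finset.add_sum_erase _ (fun c => D.dc J c) (Finset.mem_univ (0 : ZMod D.w))]
  have := D.w_pos
  omega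

end Dat

end Pool.Agent.H13.HS
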