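import Mathlib

/-! # Counting the corners of an order ideal of monomials -/

set_option autoImplicit false
set_option linter.unusedSectionVars false
set_option linter.unusedVariables false

namespace Pool.Agent.H13.HS

open Finset

theorem sub_single_add {ι : Type*} [DecidableEq ι] (M : ι →₀ ℕ) {i : ι} (hi : i ∈ M.support) :
    M - Finsupp.single i 1 + Finsupp.single i 1 = M := by
  ext j
  simp only [Finsupp.coe_add, Finsupp.coe_tsub, Pi.add_apply, Pi.sub_apply]
  by_cases h : i = j
  · subst h
    have : M i ≠ 0 := Finsupp.mem_support_iff.1 hi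
    simp only [Finsupp.single_eq_same]
    omega
  · rw [Finsupp.single_eq_of_ne' h]; omega

/-- half of the count -/
theorem corner_half {ι : Type*} [LinearOrder ι] (V : Finset ι) (O T : Finset (ι →₀ ℕ))
    (R : ι → ι → Prop) [∀ a b, Decidable (R a b)]
    (ext : ∀ s : Finset ι, s.Nonempty → ∃ b ∈ s, ∀ i ∈ s, R i b)
    (hT : ∀ M ∈ T, M.support ⊆ V ∧ M.support.Nonempty ∧
      ∀ i ∈ M.support, M - Finsupp.single i 1 ∈ O.erase 0) :
    T.card ≤ ∑ u ∈ O.erase 0, (V.filter (fun b => ∀ i ∈ u.support, R i b)).card := by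
  classical
  rw [← Finset.card_sigma]
  rcases T.eq_empty_or_nonempty with hTe | ⟨M0, hM0⟩
  · subst hTe; simp
  obtain ⟨i0, _⟩ := (hT M0 hM0).2.1
  have hch : ∀ M : ι →₀ ℕ, ∃ b : ι, M ∈ T → b ∈ M.support ∧ ∀ i ∈ M.support, R i b := by
    intro M
    by_cases hM : M ∈ T
    · obtain ⟨b, hb, hb2⟩ := ext M.support (hT M hM).2.1
      exact ⟨b, fun _ => ⟨hb, hb2⟩⟩
    · exact ⟨i0, fun h => absurd h hM⟩
  choose β hβ using hch
  apply Finset.card_le_card_of_injOn (fun M => (⟨M - Finsupp.single (β M) 1, β M⟩ : Σ _ : ι →₀ ℕ, ι))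
  · intro M hM
    have hM' : M ∈ T := hM
    obtain ⟨hV, hne, hO⟩ := hT M hM'
    obtain ⟨hb, hb2⟩ := hβ M hM'
    simp only [Finset.mem_coe, Finset.mem_sigma, Finset.mem_filter]
    refine ⟨hO _ hb, hV hb, ?_⟩
    intro i hi
    apply hb2
    rw [Finsupp.mem_support_iff] at hi ⊢
    intro h0
    apply hi
    simp [h0]
  · intro M hM M' hM' h
    simp only [Sigma.mk.injEq, heq_eq_eq] at h
    obtain ⟨h1, h2⟩ := h
    rw [← sub_single_add M (hβ M hM).1, ← sub_single_add M' (hβ M' hM').1, h1, h2]

theorem corner_bound {ι : Type*} [LinearOrder ι] (V : Finset ι) (O C : Finset (ι →₀ ℕ))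
    (hOV : ∀ u ∈ O, u.support ⊆ V) (h0 : 0 ∈ O) (hvar : ∀ i ∈ V, Finsupp.single i 1 ∈ O)
    (hdown : ∀ u ∈ O, ∀ i ∈ u.support, u - Finsupp.single i 1 ∈ O)
    (hC : ∀ M ∈ C, M.support ⊆ V ∧ M ∉ O ∧ ∀ i ∈ M.support, M - Finsupp.single i 1 ∈ O) :
    2 * C.card + 2 * O.card
      ≤ O.card * V.card + (O.filter (fun u => u.support.card = 1)).card + V.card + 2 := by
  classical
  set D : Finset (ι →₀ ℕ) := insert 0 (V.image (fun i => Finsupp.single i 1)) with hD
  have hDO : D ⊆ O := by
    intro u hu
    rw [hD, Finset.mem_insert, Finset.mem_image] at hu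
    rcases hu with rfl | ⟨i, hi, rfl⟩
    · exact h0
    · exact hvar i hi
  have hDcard : D.card = V.card + 1 := by
    rw [hD, Finset.card_insert_of_notMem, Finset.card_image_of_injective]
    · intro i j h
      exact (Finsupp.single_left_injective one_ne_zero) h
    · rw [Finset.mem_image]
      rintro ⟨i, _, hi⟩
      have := DFunLike.congr_fun hi i
      simp at this
  set T : Finset (ι →₀ ℕ) := C ∪ (O \ D) with hTdef
  have hTcard : T.card + (V.card + 1) = C.card + O.card := by
    have hdisj : Disjoint C (O \ D) := by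
      rw [Finset.disjoint_left]
      intro M hM hM2
      exact (hC M hM).2.1 (Finset.mem_sdiff.1 hM2).1
    rw [hTdef, Finset.card_union_of_disjoint hdisj, Finset.card_sdiff_of_subset hDO, hDcard]
    have := Finset.card_le_card hDO
    omega
  have hT : ∀ M ∈ T, M.support ⊆ V ∧ M.support.Nonempty ∧
      ∀ i ∈ M.support, M - Finsupp.single i 1 ∈ O.erase 0 := by
    intro M hM
    have h1 : M.support ⊆ V ∧ M ∉ D ∧ ∀ i ∈ M.support, M - Finsupp.single i 1 ∈ O := by
      rw [hTdef, Finset.mem_union, Finset.mem_sdiff] at hM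
      rcases hM with h | h
      · exact ⟨(hC M h).1, fun h' => (hC M h).2.1 (hDO h'), (hC M h).2.2⟩
      · exact ⟨hOV M h.1, h.2, hdown M h.1⟩
    obtain ⟨hV, hMD, hO⟩ := h1
    refine ⟨hV, ?_, ?_⟩
    · rw [Finsupp.support_nonempty_iff]
      rintro rfl
      exact hMD (by rw [hD]; exact Finset.mem_insert_self _ _)
    · intro i hi
      rw [Finset.mem_erase]
      refine ⟨?_, hO i hi⟩
      intro h
      apply hMD
      rw [hD, Finset.mem_insert, Finset.mem_image]
      right
      refine ⟨i, hV hi, ?_⟩
      rw [← sub_single_add M hi, h, zero_add]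
  have hplus := corner_half V O T (fun i b => i ≤ b)
    (fun s hs => ⟨s.max' hs, Finset.max'_mem s hs, fun i hi => Finset.le_max' s i hi⟩) hT
  have hminus := corner_half V O T (fun i b => b ≤ i)
    (fun s hs => ⟨s.min' hs, Finset.min'_mem s hs, fun i hi => Finset.min'_le s i hi⟩) hT
  have hpt : ∀ u ∈ O.erase 0,
      (V.filter (fun b => ∀ i ∈ u.support, i ≤ b)).card
        + (V.filter (fun b => ∀ i ∈ u.support, b ≤ i)).card
        ≤ V.card + (if u.support.card = 1 then 1 else 0) := by
    intro u hu
    have hu0 : u.support.Nonempty := by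
      rw [Finsupp.support_nonempty_iff]
      exact (Finset.mem_erase.1 hu).1
    rw [← Finset.card_union_add_card_inter]
    apply Nat.add_le_add
    · exact Finset.card_le_card (Finset.union_subset (Finset.filter_subset _ _)
        (Finset.filter_subset _ _))
    · split_ifs with h
      · obtain ⟨j, hj⟩ := Finset.card_eq_one.1 h
        have hsub : (V.filter (fun b => ∀ i ∈ u.support, i ≤ b)) ∩
            (V.filter (fun b => ∀ i ∈ u.support, b ≤ i)) ⊆ {j} := by
          intro b hb
          rw [Finset.mem_inter, Finset.mem_filter, Finset.mem_filter] at hb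
          have hj2 : j ∈ u.support := by rw [hj]; exact Finset.mem_singleton_self j
          rw [Finset.mem_singleton]
          exact le_antisymm (hb.2.2 j hj2) (hb.1.2 j hj2)
        calc _ ≤ ({j} : Finset ι).card := Finset.card_le_card hsub
          _ = 1 := Finset.card_singleton j
      · rw [Nat.le_zero, Finset.card_eq_zero, Finset.eq_empty_iff_forall_notMem]
        intro b hb
        rw [Finset.mem_inter, Finset.mem_filter, Finset.mem_filter] at hb
        apply h
        have hs : u.support = {b} := by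
          apply Finset.eq_singleton_iff_nonempty_unique_mem.2
          exact ⟨hu0, fun x hx => le_antisymm (hb.1.2 x hx) (hb.2.2 x hx)⟩
        rw [hs, Finset.card_singleton]
  have hsum := Finset.sum_le_sum hpt
  rw [Finset.sum_add_distrib, Finset.sum_add_distrib, Finset.sum_const, ← Finset.card_filter] at hsum
  have hfil : ((O.erase 0).filter (fun u => u.support.card = 1)).card
      ≤ (O.filter (fun u => u.support.card = 1)).card :=
    Finset.card_le_card (Finset.filter_subset_filter _ (Finset.erase_subset _ _))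
  have herase : (O.erase 0).card + 1 = O.card := Finset.card_erase_add_one h0
  have hmul : (O.erase 0).card * V.card + V.card = O.card * V.card := by
    rw [← herase]; ring
  rw [smul_eq_mul] at hsum
  omega

end Pool.Agent.H13.HS
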