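import Pool.Agent.H13.HS.Toric

/-! # Assembling the bound -/

set_option autoImplicit false
set_option linter.unusedSectionVars false
set_option linter.unusedVariables false

namespace Pool.Agent.H13.HS

open Finset MvPolynomial

variable {e : ℕ}

/-- the data attached to a minimally generated numerical semigroup with at least two generators -/
theorem exists_dat (he : 1 ≤ e) (g : Fin (e + 1) → ℕ) (hg : StrictMono g)
    (hgcd : Finset.univ.gcd g = 1)
    (hmin : ∀ i, g i ∉ AddSubmonoid.closure (g '' {j | j ≠ i})) :
    ∃ D : Dat e, (∀ i, g i = D.m + D.γ * D.b i) ∧ Nat.Coprime D.m D.γ ∧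
      D.w ≤ g (Fin.last e) - g 0 := by
  classical
  have hg0 : ∀ i, 1 ≤ g i := by
    intro i
    by_contra hcon
    have h0 : g i = 0 := by omega
    apply hmin i
    rw [h0]
    exact AddSubmonoid.zero_mem _
  have hle : ∀ i, g 0 ≤ g i := fun i => hg.monotone (Fin.zero_le i)
  set γ := Finset.univ.gcd (fun i => g i - g 0) with hγdef
  have hdvd : ∀ i, γ ∣ g i - g 0 := fun i => Finset.gcd_dvd (Finset.mem_univ i)
  have hlast0 : g 0 < g (Fin.last e) := by
    apply hg
    rw [Fin.lt_def]; simp; exact he
  have hγ : 1 ≤ γ := by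
    rcases Nat.eq_zero_or_pos γ with h | h
    · exfalso
      have := hdvd (Fin.last e)
      rw [h, zero_dvd_iff] at this
      omega
    · exact h
  set b : Fin (e + 1) → ℕ := fun i => (g i - g 0) / γ with hb
  have hbg : ∀ i, g i = g 0 + γ * b i := by
    intro i
    have h1 : γ * b i = g i - g 0 := Nat.mul_div_cancel' (hdvd i)
    rw [h1]
    have := hle i
    omega
  have hbmono : StrictMono b := by
    intro i j hij
    have h1 := hg hij
    rw [hbg i, hbg j] at h1
    exact Nat.lt_of_mul_lt_mul_left (Nat.lt_of_add_lt_add_left h1)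
  have hb0 : b 0 = 0 := by simp [hb]
  have hbgcd : Finset.univ.gcd b = 1 := by
    have h1 := Finset.gcd_div_eq_one (s := (Finset.univ : Finset (Fin (e + 1))))
      (f := fun i => g i - g 0) (i := Fin.last e) (Finset.mem_univ _) (by omega)
    exact h1
  have hcop : Nat.Coprime (g 0) γ := by
    have h1 : Nat.gcd (g 0) γ ∣ Finset.univ.gcd g := by
      apply Finset.dvd_gcd
      intro i _
      rw [hbg i]
      exact Nat.dvd_add (Nat.gcd_dvd_left _ _) ((Nat.gcd_dvd_right _ _).mul_right _)
    rw [hgcd, Nat.dvd_one] at h1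
    exact h1
  have hminb : ∀ i : Fin (e + 1), ∀ (u : Mon e) (k : ℕ), 0 < k → dg u = 1 + k * γ →
      ∑ j, u j * b j + k * g 0 ≠ b i := by
    intro i u k hk hdg hsum
    -- `g i = Σ u j g j` with `dg u ≥ 2`
    have hgi : ∑ j, u j * g j = g i := by
      have h1 : ∑ j, u j * g j = dg u * g 0 + γ * ∑ j, u j * b j := by
        rw [dg, Finset.sum_mul, Finset.mul_sum, ← Finset.sum_add_distrib]
        apply Finset.sum_congr rfl
        intro j _
        conv_lhs => rw [hbg j]
        ring
      rw [h1, hbg i, ← hsum, hdg]; ring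
    have hdg2 : 2 ≤ dg u := by
      rw [hdg]
      have : 0 < k * γ := Nat.mul_pos hk hγ
      omega
    have hui : u i = 0 := by
      by_contra hne
      have h1 := sub_single_add u (Finsupp.mem_support_iff.2 hne)
      set u' := u - Finsupp.single i 1 with hu'
      have h2 : dg u' ≠ 0 := by
        have := congrArg dg h1
        rw [dg_add, dg_single] at this
        omega
      obtain ⟨l, hl⟩ := exists_single_le h2
      have h3 : ∑ j, u j * g j = ∑ j, u' j * g j + g i := by
        rw [← h1]
        simp [add_mul, Finset.sum_add_distrib, Finsupp.single_apply]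
      have h4 : u' l * g l ≤ ∑ j, u' j * g j :=
        Finset.single_le_sum (f := fun j => u' j * g j) (fun _ _ => Nat.zero_le _)
          (Finset.mem_univ l)
      have h5 : 0 < u' l * g l := Nat.mul_pos (Nat.pos_of_ne_zero hl) (hg0 l)
      omega
    apply hmin i
    rw [← hgi]
    apply AddSubmonoid.sum_mem
    intro j _
    by_cases hj : j = i
    · rw [hj, hui, zero_mul]; exact AddSubmonoid.zero_mem _
    · rw [← smul_eq_mul]
      have h1 : g j ∈ AddSubmonoid.closure (g '' {j | j ≠ i}) :=
        AddSubmonoid.subset_closure ⟨j, hj, rfl⟩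
      exact AddSubmonoid.nsmul_mem _ h1 _
  refine ⟨⟨b, g 0, γ, he, hbmono, hb0, hbgcd, hg0 0, hγ, hminb⟩, hbg, hcop, ?_⟩
  show b (Fin.last e) ≤ g (Fin.last e) - g 0
  exact Nat.div_le_self _ _

/-- The Herzog–Stamate bound. -/
theorem herzog_stamate (k : Type) [Field k] (e : ℕ) (g : Fin (e + 1) → ℕ) (hg : StrictMono g)
    (hgcd : Finset.univ.gcd g = 1)
    (hmin : ∀ i, g i ∉ AddSubmonoid.closure (g '' {j | j ≠ i}))
    (Istar : Ideal (MvPolynomial (Fin (e + 1)) k))
    (hI : Istar = Ideal.span {h : MvPolynomial (Fin (e + 1)) k |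
          ∃ f ∈ RingHom.ker (MvPolynomial.aeval
              (fun i : Fin (e + 1) => (Polynomial.X : Polynomial k) ^ g i)),
            ∃ n : ℕ, MvPolynomial.homogeneousComponent n f = h ∧
              ∀ m < n, MvPolynomial.homogeneousComponent m f = 0}) :
    Module.finrank k
            (↥Istar ⧸ ((Ideal.span (Set.range
                (MvPolynomial.X : Fin (e + 1) → MvPolynomial (Fin (e + 1)) k))) •
              (⊤ : Submodule (MvPolynomial (Fin (e + 1)) k) ↥Istar)))
          ≤ Nat.choose (g (Fin.last e) - g 0 + 1) 2 := by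
  subst hI
  rcases Nat.eq_zero_or_pos e with he | he
  · subst he
    -- a single generator: the kernel is zero
    have hg0 : 1 ≤ g 0 := by
      by_contra hcon
      have h0 : g 0 = 0 := by omega
      apply hmin 0
      rw [h0]
      exact AddSubmonoid.zero_mem _
    have hker : ∀ f : MvPolynomial (Fin (0 + 1)) k, MvPolynomial.aeval
        (fun i : Fin (0 + 1) => (Polynomial.X : Polynomial k) ^ g i) f = 0 → f = 0 := by
      intro f hf
      ext u
      rw [coeff_zero]
      have h1 := congrArg (fun p => Polynomial.coeff p (g 0 * u 0)) hf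
      simp only [Polynomial.coeff_zero] at h1
      rw [MvPolynomial.aeval_def, MvPolynomial.eval₂_eq', Polynomial.finsetSum_coeff] at h1
      have h2 : ∀ v ∈ f.support, (algebraMap k (Polynomial k) (coeff v f) *
          ∏ i, ((Polynomial.X : Polynomial k) ^ g i) ^ v i).coeff (g 0 * u 0)
          = if v = u then coeff v f else 0 := by
        intro v _
        have h3 : ∏ i : Fin (0 + 1), ((Polynomial.X : Polynomial k) ^ g i) ^ v i
            = Polynomial.X ^ (g 0 * v 0) := by
          rw [Fin.prod_univ_one, ← pow_mul]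
        rw [h3, Polynomial.algebraMap_eq, Polynomial.coeff_C_mul_X_pow]
        by_cases h : v = u
        · rw [if_pos h, if_pos (by rw [h])]
        · rw [if_neg h, if_neg]
          intro h4
          apply h
          have h5 := Nat.eq_of_mul_eq_mul_left hg0 h4
          ext i
          have hi : i = 0 := Fin.fin_one_eq_zero i
          rw [hi, h5]
      rw [Finset.sum_congr rfl h2, Finset.sum_ite_eq'] at h1
      by_cases h : u ∈ f.support
      · rwa [if_pos h] at h1
      · exact MvPolynomial.notMem_support_iff.1 h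
    have hbot : Ideal.span {h : MvPolynomial (Fin (0 + 1)) k |
          ∃ f ∈ RingHom.ker (MvPolynomial.aeval
              (fun i : Fin (0 + 1) => (Polynomial.X : Polynomial k) ^ g i)),
            ∃ n : ℕ, MvPolynomial.homogeneousComponent n f = h ∧
              ∀ m < n, MvPolynomial.homogeneousComponent m f = 0} = ⊥ := by
      rw [eq_bot_iff, Ideal.span_le]
      rintro h ⟨f, hf, n, rfl, _⟩
      rw [RingHom.mem_ker] at hf
      rw [hker f hf, map_zero]
      exact Submodule.zero_mem _
    rw [hbot]
    have hsub : Subsingleton (↥(⊥ : Ideal (MvPolynomial (Fin (0 + 1)) k)) ⧸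
        ((Ideal.span (Set.range
                (MvPolynomial.X : Fin (0 + 1) → MvPolynomial (Fin (0 + 1)) k))) •
              (⊤ : Submodule (MvPolynomial (Fin (0 + 1)) k)
                ↥(⊥ : Ideal (MvPolynomial (Fin (0 + 1)) k))))) := by
      refine ⟨?_⟩
      intro x y
      obtain ⟨x, rfl⟩ := Submodule.Quotient.mk_surjective _ x
      obtain ⟨y, rfl⟩ := Submodule.Quotient.mk_surjective _ y
      rw [Subsingleton.elim x y]
    rw [Module.finrank_zero_of_subsingleton]
    exact Nat.zero_le _
  · obtain ⟨D, hgD, hcop, hw⟩ := exists_dat he g hg hgcd hmin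
    have h1 := D.main_bound (k := k) g hgD hcop
    have h2 := D.NC_ncard
    have h3 : D.NC.ncard ≤ Nat.choose (D.w + 1) 2 := by
      rw [Nat.choose_two_right]
      rw [Nat.le_div_iff_mul_le (by norm_num)]
      simp only [Nat.add_sub_cancel]
      omega
    have h4 : Nat.choose (D.w + 1) 2 ≤ Nat.choose (g (Fin.last e) - g 0 + 1) 2 :=
      Nat.choose_le_choose 2 (by omega)
    exact h1.trans (h3.trans h4)

end Pool.Agent.H13.HS
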