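import Pool.Agent.H13.HS.Gr

/-! # Generators of the ideal of the tangent cone -/

set_option autoImplicit false
set_option linter.unusedVariables false

namespace Pool.Agent.H13.HS

open MvPolynomial

variable {e : ℕ} {k : Type} [Field k]

theorem hc_X_mul (i : Fin (e + 1)) (b : MvPolynomial (Fin (e + 1)) k) (n : ℕ) :
    homogeneousComponent (n + 1) (X i * b) = X i * homogeneousComponent n b := by
  classical
  ext u
  rw [coeff_homogeneousComponent, coeff_X_mul', coeff_X_mul', coeff_homogeneousComponent]
  by_cases h : i ∈ u.support
  · rw [if_pos h, if_pos h]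
    have h1 : Finsupp.degree u = Finsupp.degree (u - Finsupp.single i 1) + 1 := by
      conv_lhs => rw [← sub_single_add u h]
      rw [map_add, Finsupp.degree_single]
    by_cases h2 : Finsupp.degree (u - Finsupp.single i 1) = n
    · rw [if_pos (by omega), if_pos h2]
    · rw [if_neg (by omega), if_neg h2]
  · rw [if_neg h, if_neg h, ite_self]

theorem hc_X_mul_zero (i : Fin (e + 1)) (b : MvPolynomial (Fin (e + 1)) k) :
    homogeneousComponent 0 (X i * b) = 0 := by
  classical
  ext u
  rw [coeff_homogeneousComponent, coeff_X_mul', coeff_zero]
  by_cases h : i ∈ u.support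
  · rw [if_neg]
    rw [Finsupp.degree_eq_zero_iff]
    rintro rfl
    simp at h
  · rw [if_neg h, ite_self]

namespace Dat

variable (D : Dat e)

/-- The ideal has at most `|NC|` generators, each of which is a monomial or a difference of two
monomials of the same degree. -/
theorem exists_gens (I : Ideal (MvPolynomial (Fin (e + 1)) k))
    (hK : ∀ u, D.K u → mo k u ∈ I)
    (hS : ∀ u v, D.Same u v → mo k u - mo k v ∈ I)
    (hf : ∀ f ∈ I, ∀ u0, ¬ D.K u0 → D.csum u0 f = 0) :
    ∃ s : Finset (MvPolynomial (Fin (e + 1)) k), s.card ≤ D.NC.ncard ∧
      (∀ f ∈ s, ∃ u v : Fin (e + 1) →₀ ℕ, Finsupp.degree u = Finsupp.degree v ∧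
        (f = monomial u 1 ∨ f = monomial u 1 - monomial v 1)) ∧
      Ideal.span (s : Set (MvPolynomial (Fin (e + 1)) k)) = I := by
  classical
  set s : Finset (MvPolynomial (Fin (e + 1)) k) := D.NC_finite.toFinset.image (D.fM k) with hs
  have hshape : ∀ M : Mon e, ∃ u v : Fin (e + 1) →₀ ℕ, Finsupp.degree u = Finsupp.degree v ∧
      Finsupp.degree u = dg M ∧
        (D.fM k M = monomial u 1 ∨ D.fM k M = monomial u 1 - monomial v 1) := by
    intro M
    rw [fM]
    split_ifs with h
    · exact ⟨M, M, rfl, dg_eq_degree M, Or.inl rfl⟩
    · exact ⟨M, D.st M, by rw [dg_eq_degree, dg_eq_degree, (D.st_same M).1], dg_eq_degree M,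
        Or.inr rfl⟩
  have hhom : ∀ M n, homogeneousComponent n (D.fM k M) = D.fM k M ∨
      homogeneousComponent n (D.fM k M) = 0 := by
    intro M n
    obtain ⟨u, v, huv, -, h⟩ := hshape M
    have hh : (D.fM k M).IsHomogeneous (Finsupp.degree u) := by
      rcases h with h | h
      · rw [h]; exact isHomogeneous_monomial _ rfl
      · rw [h]
        exact (isHomogeneous_monomial _ rfl).sub (isHomogeneous_monomial _ huv.symm)
    rw [homogeneousComponent_of_mem hh]
    split_ifs
    · exact Or.inl rfl
    · exact Or.inr rfl
  refine ⟨s, ?_, ?_, ?_⟩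
  · rw [hs]
    refine Finset.card_image_le.trans ?_
    rw [Set.ncard_eq_toFinset_card _ D.NC_finite]
  · intro f hfs
    rw [hs, Finset.mem_image] at hfs
    obtain ⟨M, _, rfl⟩ := hfs
    obtain ⟨u, v, h1, _, h2⟩ := hshape M
    exact ⟨u, v, h1, h2⟩
  · apply le_antisymm
    · rw [Ideal.span_le]
      intro f hfs
      rw [hs, Finset.mem_coe, Finset.mem_image] at hfs
      obtain ⟨M, _, rfl⟩ := hfs
      exact D.fM_mem I hK hS M
    · set J := Ideal.span (s : Set (MvPolynomial (Fin (e + 1)) k)) with hJ
      have hsJ : ∀ M ∈ D.NC, D.fM k M ∈ J := by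
        intro M hM
        apply Ideal.subset_span
        rw [hs, Finset.mem_coe, Finset.mem_image]
        exact ⟨M, by rwa [Set.Finite.mem_toFinset], rfl⟩
      set T : Submodule k (MvPolynomial (Fin (e + 1)) k) :=
        (Submodule.restrictScalars k (mm k e * I : Ideal (MvPolynomial (Fin (e + 1)) k))) ⊔
        Submodule.span k (D.fM k '' D.NC) with hT
      have hT1 : ∀ x ∈ mm k e * I, x ∈ T := fun x hx =>
        Submodule.mem_sup_left (by rwa [Submodule.restrictScalars_mem])
      have hT2 : ∀ M ∈ D.NC, D.fM k M ∈ T := fun M hM =>
        Submodule.mem_sup_right (Submodule.subset_span ⟨M, hM, rfl⟩)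
      have hy : ∀ n, ∀ y ∈ Submodule.span k (D.fM k '' D.NC), homogeneousComponent n y ∈ J := by
        intro n y hy
        induction hy using Submodule.span_induction with
        | mem x hx =>
          obtain ⟨M, hM, rfl⟩ := hx
          rcases hhom M n with h | h
          · rw [h]; exact hsJ M hM
          · rw [h]; exact J.zero_mem
        | zero => rw [map_zero]; exact J.zero_mem
        | add x y _ _ hx hy => rw [map_add]; exact J.add_mem hx hy
        | smul a x _ hx =>
          rw [map_smul, MvPolynomial.smul_eq_C_mul]; exact J.mul_mem_left _ hx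
      have key : ∀ n, ∀ f ∈ I, homogeneousComponent n f ∈ J := by
        intro n
        induction n with
        | zero =>
          intro f hfI
          have hfT : f ∈ T := D.mem_of_csum I hK hS T hT1 hT2 (hf f hfI)
          rw [hT, Submodule.mem_sup] at hfT
          obtain ⟨a, ha, y, hyS, rfl⟩ := hfT
          rw [map_add]
          refine J.add_mem ?_ (hy 0 y hyS)
          rw [Submodule.restrictScalars_mem] at ha
          refine Submodule.mul_induction_on (C := fun a => homogeneousComponent 0 a ∈ J) ha ?_ ?_
          · intro x hx b hb
            induction hx using Submodule.span_induction generalizing b with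
            | mem x hx =>
              obtain ⟨i, rfl⟩ := hx
              rw [hc_X_mul_zero]; exact J.zero_mem
            | zero => rw [zero_mul, map_zero]; exact J.zero_mem
            | add x y _ _ hx hy => rw [add_mul, map_add]; exact J.add_mem (hx b hb) (hy b hb)
            | smul c x _ hx =>
              have h1 : (c • x) * b = x * (c * b) := by rw [smul_eq_mul]; ring
              rw [h1]
              exact hx _ (I.mul_mem_left _ hb)
          · intro x y hx hy
            rw [map_add]; exact J.add_mem hx hy
        | succ n ih =>
          intro f hfI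
          have hfT : f ∈ T := D.mem_of_csum I hK hS T hT1 hT2 (hf f hfI)
          rw [hT, Submodule.mem_sup] at hfT
          obtain ⟨a, ha, y, hyS, rfl⟩ := hfT
          rw [map_add]
          refine J.add_mem ?_ (hy (n + 1) y hyS)
          rw [Submodule.restrictScalars_mem] at ha
          refine Submodule.mul_induction_on (C := fun a => homogeneousComponent (n + 1) a ∈ J)
            ha ?_ ?_
          · intro x hx b hb
            induction hx using Submodule.span_induction generalizing b with
            | mem x hx =>
              obtain ⟨i, rfl⟩ := hx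
              rw [hc_X_mul]; exact J.mul_mem_left _ (ih b hb)
            | zero => rw [zero_mul, map_zero]; exact J.zero_mem
            | add x y _ _ hx hy => rw [add_mul, map_add]; exact J.add_mem (hx b hb) (hy b hb)
            | smul c x _ hx =>
              have h1 : (c • x) * b = x * (c * b) := by rw [smul_eq_mul]; ring
              rw [h1]
              exact hx _ (I.mul_mem_left _ hb)
          · intro x y hx hy
            rw [map_add]; exact J.add_mem hx hy
      intro f hfI
      rw [← sum_homogeneousComponent f]
      exact J.sum_mem fun n _ => key n f hfI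

end Dat

end Pool.Agent.H13.HS
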