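import Mathlib

/-! # The final numerical inequalities -/

set_option autoImplicit false
set_option linter.unusedSectionVars false
set_option linter.unusedVariables false

namespace Pool.Agent.H13.HS

theorem nat_mul_pred_nonneg (x : ℕ) : (0 : ℤ) ≤ (x : ℤ) * (x - 1) := by
  rcases Nat.eq_zero_or_pos x with h | h
  · subst h; simp
  · have : (1:ℤ) ≤ x := by exact_mod_cast h
    exact mul_nonneg (by linarith) (by linarith)

/-- case `2 a ≤ 3 κ`, `a ≥ 4` -/
theorem num_caseI (a t κ q ρ Δ : ℕ) (ha : 4 ≤ a) (hκ : 2 * a ≤ 3 * κ) (hκa : κ + 1 ≤ a)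
    (ht : t = q * κ + ρ) (hρ : ρ < κ) (hΔ : 2 * Δ ≤ (q + 1) * (q * κ + 2 * ρ)) :
    (a + 2) * Δ ≤ t * (t + a + 1) := by
  have h1 : (a + 2) * (2 * Δ) ≤ (a + 2) * ((q + 1) * (q * κ + 2 * ρ)) := Nat.mul_le_mul_left _ hΔ
  have h2 : (a + 2) * ((q + 1) * (q * κ + 2 * ρ)) ≤ 2 * (t * (t + a + 1)) := by
    have e1 : (0:ℤ) ≤ ρ := by positivity
    have e2 : (0:ℤ) ≤ q := by positivity
    have e3 := nat_mul_pred_nonneg ρ
    have e4 := nat_mul_pred_nonneg q
    have e0 : (0:ℤ) ≤ κ := by positivity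
    rcases Nat.lt_or_ge κ 4 with h | h
    · have hk : κ = 3 := by omega
      have ha4 : a = 4 := by omega
      subst hk ha4 ht
      zify
      have key : (2:ℤ) * ((q * 3 + ρ) * (q * 3 + ρ + 4 + 1)) - (4 + 2) * ((q + 1) * (q * 3 + 2 * ρ))
          = 2 * (ρ * (ρ - 1)) + 12 * q := by ring
      linarith
    · subst ht
      zify at *
      have e5 : (0:ℤ) ≤ (3 * κ - 2 * a) * (κ * (q * (q - 1)) + 2 * (q * ρ)) := by
        apply mul_nonneg (by linarith)
        have := mul_nonneg e0 e4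
        have := mul_nonneg e2 e1
        linarith
      have e6 : (0:ℤ) ≤ κ * q ^ 2 * (κ - 4) := by
        apply mul_nonneg (by positivity) (by linarith)
      have e7 : (0:ℤ) ≤ ρ * q * (κ - 4) := by
        apply mul_nonneg (by positivity) (by linarith)
      have e8 : (0:ℤ) ≤ 3 * κ ^ 2 * q := by positivity
      have key : (2:ℤ) * (2 * ((q * κ + ρ) * (q * κ + ρ + a + 1)) -
          (a + 2) * ((q + 1) * (q * κ + 2 * ρ)))
          = κ * q ^ 2 * (κ - 4) + 3 * κ ^ 2 * q + 2 * (ρ * q * (κ - 4)) + 4 * (ρ * (ρ - 1))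
            + (3 * κ - 2 * a) * (κ * (q * (q - 1)) + 2 * (q * ρ)) := by ring
      linarith
  have h3 : (a + 2) * (2 * Δ) = 2 * ((a + 2) * Δ) := by ring
  omega

/-- the two-coset case: `a = 2κ - ρ`, `w = κ (q+2)`, `t = κ q + ρ` -/
theorem num_caseII (a w t κ q ρ Δ g : ℕ) (hκ : 2 ≤ κ) (hρ : ρ < κ) (ha : a + ρ = 2 * κ)
    (hw : w = κ * (q + 2)) (ht : t = q * κ + ρ)
    (hΔ : 2 * Δ ≤ (q + 1) * (q * κ + 2 * ρ))
    (hg : (q + 1) * (q + 1) ≤ 2 * g + (q + 1) * κ) :
    (a + 2) * Δ ≤ t * (w + 1) + a * g := by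
  have h1 : (a + 2) * (2 * Δ) ≤ (a + 2) * ((q + 1) * (q * κ + 2 * ρ)) := Nat.mul_le_mul_left _ hΔ
  have h2 : (a + 2) * ((q + 1) * (q * κ + 2 * ρ)) ≤ 2 * (t * (w + 1) + a * g) := by
    subst hw ht
    zify at *
    have ha' : (a : ℤ) = 2 * κ - ρ := by linarith
    have hρ' : (ρ:ℤ) + 1 ≤ κ := by linarith
    have e1 : (0:ℤ) ≤ ρ := by positivity
    have e2 : (0:ℤ) ≤ q := by positivity
    have e3 := nat_mul_pred_nonneg ρ
    have e4 := nat_mul_pred_nonneg q
    have e0 : (0:ℤ) ≤ κ := by positivity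
    have ha0 : (0:ℤ) ≤ a := by positivity
    have eg : (0:ℤ) ≤ a * g := by positivity
    have ea : (0:ℤ) ≤ (ρ * (ρ - 1)) * (q + 1) := mul_nonneg e3 (by linarith)
    rcases le_or_gt (q:ℤ) κ with h | h
    · -- use g ≥ 0
      have key : (2:ℤ) * ((q * κ + ρ) * (κ * (q + 2) + 1)) - (a + 2) * ((q + 1) * (q * κ + 2 * ρ))
          = 2 * (κ * q * (κ - q)) + ρ * q * (κ * (q - 1) - 2) + 2 * ((ρ * (ρ - 1)) * (q + 1)) := by
        rw [ha']; ring
      have k1 : (0:ℤ) ≤ 2 * (κ * q * (κ - q)) + ρ * q * (κ * (q - 1) - 2) := by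
        rcases Nat.lt_or_ge q 2 with h' | h'
        · interval_cases q
          · simp
          · push_cast
            have : (ρ:ℤ) * 1 ≤ κ - 1 := by linarith
            nlinarith
        · have h'' : (2:ℤ) ≤ q := by exact_mod_cast h'
          have k2 : (0:ℤ) ≤ κ * q * (κ - q) := mul_nonneg (by positivity) (by linarith)
          have k3 : (0:ℤ) ≤ κ * (q - 1) - 2 := by nlinarith
          have k4 : (0:ℤ) ≤ ρ * q * (κ * (q - 1) - 2) := mul_nonneg (by positivity) k3
          linarith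
      linarith
    · -- use the genus bound
      have k0 : (a:ℤ) * ((q + 1) * (q + 1)) ≤ a * (2 * g + (q + 1) * κ) :=
        mul_le_mul_of_nonneg_left hg ha0
      have key : (2:ℤ) * ((q * κ + ρ) * (κ * (q + 2) + 1)) - (a + 2) * ((q + 1) * (q * κ + 2 * ρ))
          + (a * ((q + 1) * (q + 1)) - a * ((q + 1) * κ))
          = 2 * (κ * (2 * q + 1 - κ)) + ρ * ((κ - 1) * q ^ 2 - 4 * q + (κ - 1))
            + 2 * ((ρ * (ρ - 1)) * (q + 1)) := by
        rw [ha']; ring
      have k1 : (0:ℤ) ≤ 2 * (κ * (2 * q + 1 - κ)) + ρ * ((κ - 1) * q ^ 2 - 4 * q + (κ - 1)) := by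
        have k2 : (-3:ℤ) ≤ (κ - 1) * q ^ 2 - 4 * q + (κ - 1) := by
          nlinarith [sq_nonneg ((q:ℤ) - 2), sq_nonneg (q:ℤ)]
        have k3 : (ρ:ℤ) * (-3) ≤ ρ * ((κ - 1) * q ^ 2 - 4 * q + (κ - 1)) :=
          mul_le_mul_of_nonneg_left k2 e1
        have k4 : (κ:ℤ) * 3 ≤ κ * (2 * q + 1 - κ) :=
          mul_le_mul_of_nonneg_left (by linarith) e0
        linarith
      linarith
  have h3 : (a + 2) * (2 * Δ) = 2 * ((a + 2) * Δ) := by ring
  omega

/-- `a = 3` -/
theorem num_case3 (t q ρ Δ : ℕ) (ht : t = q * 2 + ρ) (hρ : ρ < 2)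
    (hΔ : 2 * Δ ≤ (q + 1) * (q * 2 + 2 * ρ)) : 4 * Δ ≤ t * (t + 3) := by
  subst ht
  interval_cases ρ
  · nlinarith
  · nlinarith

/-- the sum `κ Σ_{j<x} ⌊j/κ⌋` -/
theorem floor_sum (κ : ℕ) (hκ : 0 < κ) (x : ℕ) :
    x * x ≤ 2 * (κ * ∑ j ∈ Finset.range x, j / κ) + x * κ := by
  have key : ∀ x : ℕ, 2 * (κ * ∑ j ∈ Finset.range x, j / κ) + x * κ
      = x * x + (x % κ) * (κ - x % κ) := by
    intro x
    induction x with
    | zero => simp
    | succ x ih =>
      rw [Finset.sum_range_succ]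
      have h1 : 2 * (κ * (∑ j ∈ Finset.range x, j / κ + x / κ)) + (x + 1) * κ
          = (2 * (κ * ∑ j ∈ Finset.range x, j / κ) + x * κ) + (2 * (κ * (x / κ)) + κ) := by ring
      rw [h1, ih]
      have hdm := Nat.div_add_mod x κ
      set r := x % κ with hr
      set d := x / κ with hd
      have hrlt : r < κ := Nat.mod_lt _ hκ
      rcases Nat.lt_or_ge (r + 1) κ with h | h
      · have h2 : (x + 1) % κ = r + 1 := by
          rw [← hdm]
          rw [show κ * d + r + 1 = (r + 1) + κ * d by ring, Nat.add_mul_mod_self_left]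
          exact Nat.mod_eq_of_lt h
        rw [h2]
        obtain ⟨s, hs⟩ : ∃ s, κ = r + 1 + s := ⟨κ - (r + 1), by omega⟩
        have h3 : κ - r = s + 1 := by omega
        have h4 : κ - (r + 1) = s := by omega
        rw [h3, h4]
        have h5 : x = κ * d + r := hdm.symm
        have h6 : (x + 1) * (x + 1) = x * x + 2 * x + 1 := by ring
        rw [h6]
        generalize κ * d = y at *
        have h7 : x = y + r := h5
        nlinarith
      · have h2 : (x + 1) % κ = 0 := by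
          rw [← hdm]
          have : κ * d + r + 1 = κ * (d + 1) := by
            have : r + 1 = κ := by omega
            rw [Nat.mul_add, mul_one]; omega
          rw [this]; exact Nat.mul_mod_right _ _
        rw [h2]
        have h3 : κ - r = 1 := by omega
        rw [h3]
        have h5 : x = κ * d + r := hdm.symm
        have h6 : (x + 1) * (x + 1) = x * x + 2 * x + 1 := by ring
        rw [h6]
        generalize κ * d = y at *
        omega
  rw [key x]
  exact Nat.le_add_right _ _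

end Pool.Agent.H13.HS
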