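import Pool.Agent.H13.HS.Classes
import Pool.Agent.H13.HS.Numeric

/-! # The two-coset case: lower bounds for the coordinates -/

set_option autoImplicit false
set_option linter.unusedSectionVars false
set_option linter.unusedVariables false

namespace Pool.Agent.H13.HS

open Finset Pointwise

variable {e : ℕ}

namespace Dat

variable (D : Dat e)

/-- the generators generate the cyclic group -/
theorem closure_B : AddSubgroup.closure (D.B : Set (ZMod D.w)) = ⊤ := by
  set S := AddSubgroup.closure (D.B : Set (ZMod D.w)) with hS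
  obtain ⟨n, hn⟩ := Int.subgroup_cyclic (S.comap (Int.castAddHom (ZMod D.w)))
  have hmem : ∀ z : ℤ, (z : ZMod D.w) ∈ S ↔ n ∣ z := by
    intro z
    have h1 : z ∈ S.comap (Int.castAddHom (ZMod D.w)) ↔ (z : ZMod D.w) ∈ S := Iff.rfl
    rw [← h1, hn, ← AddSubgroup.zmultiples_eq_closure, AddSubgroup.mem_zmultiples_iff]
    constructor
    · rintro ⟨k, rfl⟩
      exact ⟨k, by simp [mul_comm]⟩
    · rintro ⟨k, rfl⟩
      exact ⟨k, by simp [mul_comm]⟩
  have hdvd : n.natAbs ∣ Finset.univ.gcd D.b := by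
    apply Finset.dvd_gcd
    intro i _
    have h1 : ((D.b i : ℤ) : ZMod D.w) ∈ S := by
      apply AddSubgroup.subset_closure
      rw [Finset.mem_coe, B, Finset.mem_image]
      exact ⟨i, Finset.mem_univ _, by push_cast; rfl⟩
    rw [hmem] at h1
    exact Int.natAbs_dvd_natAbs.2 h1
  rw [D.hgcd, Nat.dvd_one] at hdvd
  rw [eq_top_iff]
  intro x _
  have h1 := (hmem (x.val : ℤ)).2 (by
    rw [← Int.natAbs_dvd, hdvd]; exact one_dvd _)
  have h2 : (((x.val : ℕ) : ℤ) : ZMod D.w) = x := by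
    push_cast; exact ZMod.natCast_zmod_val x
  rwa [h2] at h1

/-- least first coordinate in the class -/
noncomputable def amin (c : ZMod D.w) : ℕ := sInf (D.ac '' {u | D.cl u = c})

/-- least second coordinate in the class -/
noncomputable def qmin (c : ZMod D.w) : ℕ := sInf (D.qc '' {u | D.cl u = c})

theorem amin_le (u : Mon e) : D.amin (D.cl u) ≤ D.ac u := Nat.sInf_le ⟨u, rfl, rfl⟩

theorem qmin_le (u : Mon e) : D.qmin (D.cl u) ≤ D.qc u := Nat.sInf_le ⟨u, rfl, rfl⟩

theorem amin_spec {J : ℕ} (hJ : (J + 1) • D.B = univ) (c : ZMod D.w) :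
    ∃ u, D.cl u = c ∧ D.ac u = D.amin c := by
  obtain ⟨y, hy, _⟩ := D.exists_low hJ c
  obtain ⟨u, hu, hu2⟩ := Nat.sInf_mem (s := D.ac '' {u | D.cl u = c}) ⟨_, y, hy, rfl⟩
  exact ⟨u, hu, hu2⟩

theorem qmin_spec {J : ℕ} (hJ : (J + 1) • D.B = univ) (c : ZMod D.w) :
    ∃ u, D.cl u = c ∧ D.qc u = D.qmin c := by
  obtain ⟨y, hy, _⟩ := D.exists_low hJ c
  obtain ⟨u, hu, hu2⟩ := Nat.sInf_mem (s := D.qc '' {u | D.cl u = c}) ⟨_, y, hy, rfl⟩
  exact ⟨u, hu, hu2⟩

theorem amin_pos {J : ℕ} (hJ : (J + 1) • D.B = univ) {c : ZMod D.w} (hc : c ≠ 0) :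
    1 ≤ D.amin c := by
  obtain ⟨u, hu, hu2⟩ := D.amin_spec hJ c
  rw [← hu2]
  exact D.ac_pos (by rw [hu]; exact hc)

section TwoCoset

variable (F : AddSubgroup (ZMod D.w)) (ξ : ZMod D.w) (hξB : ξ ∈ D.B) (hξF : ξ ∉ F)
  (hcos : ∀ x ∈ D.B, x ∈ F ∨ x - ξ ∈ F)

include hξB hcos in
/-- the order of `ξ` modulo `F` is the index -/
theorem order_quot : addOrderOf (QuotientAddGroup.mk ξ : ZMod D.w ⧸ F)
    = Nat.card (ZMod D.w ⧸ F) := by
  apply addOrderOf_eq_card_of_forall_mem_zmultiples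
  intro x
  obtain ⟨y, rfl⟩ := QuotientAddGroup.mk_surjective x
  have hy : y ∈ AddSubgroup.closure (D.B : Set (ZMod D.w)) := by
    rw [D.closure_B]; exact AddSubgroup.mem_top y
  induction hy using AddSubgroup.closure_induction with
  | mem x hx =>
    rcases hcos x hx with h | h
    · have : (QuotientAddGroup.mk x : ZMod D.w ⧸ F) = 0 := (QuotientAddGroup.eq_zero_iff x).2 h
      rw [this]
      exact AddSubgroup.zero_mem _
    · have : (QuotientAddGroup.mk (x - ξ) : ZMod D.w ⧸ F) = 0 :=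
        (QuotientAddGroup.eq_zero_iff _).2 h
      rw [QuotientAddGroup.mk_sub, sub_eq_zero] at this
      rw [this]
      exact AddSubgroup.mem_zmultiples _
  | zero => exact AddSubgroup.zero_mem _
  | add x y _ _ hx hy =>
    rw [QuotientAddGroup.mk_add]
    exact AddSubgroup.add_mem _ hx hy
  | neg x _ hx =>
    rw [QuotientAddGroup.mk_neg]
    exact AddSubgroup.neg_mem _ hx

include hξB hcos in
theorem nsmul_mem_iff (j : ℕ) : j • ξ ∈ F ↔ Nat.card (ZMod D.w ⧸ F) ∣ j := by
  rw [← D.order_quot F ξ hξB hcos, addOrderOf_dvd_iff_nsmul_eq_zero, ← QuotientAddGroup.mk_nsmul,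
    QuotientAddGroup.eq_zero_iff]

theorem card_mul : Nat.card (ZMod D.w ⧸ F) * Nat.card F = D.w := by
  rw [← AddSubgroup.card_eq_card_quotient_mul_card_addSubgroup, Nat.card_zmod]

include hξB hξF hcos in
theorem index_bound {J : ℕ} (hJ : (J + 1) • D.B = univ) (c : ZMod D.w) (ι : ℕ)
    (hι : ι < Nat.card (ZMod D.w ⧸ F)) (hc : c - ι • ξ ∈ F) :
    ι ≤ Nat.card F * (D.amin c + D.qmin c) := by
  classical
  -- the `ξ`-type indices
  set T : Finset (Fin (e + 1)) := univ.filter (fun i => (D.b i : ZMod D.w) ∉ F) with hT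
  have hTne : T.Nonempty := by
    rw [B, Finset.mem_image] at hξB
    obtain ⟨i, _, hi⟩ := hξB
    exact ⟨i, Finset.mem_filter.2 ⟨Finset.mem_univ _, by rw [hi]; exact hξF⟩⟩
  have hTξ : ∀ i ∈ T, (D.b i : ZMod D.w) - ξ ∈ F := by
    intro i hi
    rcases hcos (D.b i : ZMod D.w) (by
      rw [B, Finset.mem_image]; exact ⟨i, Finset.mem_univ _, rfl⟩) with h | h
    · exact absurd h (Finset.mem_filter.1 hi).2
    · exact h
  obtain ⟨i1, hi1, hmin⟩ := Finset.exists_min_image T D.b hTne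
  obtain ⟨i2, hi2, hmax⟩ := Finset.exists_max_image T D.b hTne
  -- the number of `ξ`-type generators
  have hν : ∀ u : Mon e, D.cl u = c → ι ≤ ∑ i ∈ T, u i := by
    intro u hu
    set ν := ∑ i ∈ T, u i with hνdef
    have h1 : D.cl u - ν • ξ ∈ F := by
      have h2 : D.cl u - ν • ξ = ∑ i ∈ T, u i • ((D.b i : ZMod D.w) - ξ)
          + ∑ i ∈ univ.filter (fun i => ¬ (D.b i : ZMod D.w) ∉ F), u i • (D.b i : ZMod D.w) := by
        have h3 : D.cl u = ∑ i, u i • (D.b i : ZMod D.w) := by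
          rw [cl, rho]; push_cast; simp [nsmul_eq_mul]
        have h4 : ∑ i, u i • (D.b i : ZMod D.w) = ∑ i ∈ T, u i • (D.b i : ZMod D.w)
            + ∑ i ∈ univ.filter (fun i => ¬ (D.b i : ZMod D.w) ∉ F), u i • (D.b i : ZMod D.w) := by
          rw [hT]; exact (Finset.sum_filter_add_sum_filter_not _ _ _).symm
        rw [h3, h4, hνdef, Finset.sum_smul]
        simp only [smul_sub, Finset.sum_sub_distrib]
        abel
      rw [h2]
      apply F.add_mem
      · exact F.sum_mem fun i hi => F.nsmul_mem (hTξ i hi) _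
      · apply F.sum_mem
        intro i hi
        have := (Finset.mem_filter.1 hi).2
        rw [not_not] at this
        exact F.nsmul_mem this _
    by_contra hcon
    push Not at hcon
    obtain ⟨j, hj⟩ : ∃ j, ι = ν + j := ⟨ι - ν, by omega⟩
    have h2 : j • ξ ∈ F := by
      have h3 : j • ξ = (D.cl u - ν • ξ) - (c - ι • ξ) := by
        rw [hu, hj, add_nsmul]; abel
      rw [h3]
      exact F.sub_mem h1 hc
    rw [D.nsmul_mem_iff F ξ hξB hcos] at h2
    have := Nat.le_of_dvd (by omega) h2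
    omega
  obtain ⟨ua, hua, hua2⟩ := D.amin_spec hJ c
  obtain ⟨uq, huq, huq2⟩ := D.qmin_spec hJ c
  -- lower bound for the second coordinate
  have hq : ι * D.b i1 ≤ c.val + D.qmin c * D.w := by
    rw [← huq2, ← huq, ← D.rho_eq uq]
    calc ι * D.b i1 ≤ (∑ i ∈ T, uq i) * D.b i1 := Nat.mul_le_mul_right _ (hν uq huq)
      _ = ∑ i ∈ T, uq i * D.b i1 := Finset.sum_mul _ _ _
      _ ≤ ∑ i ∈ T, uq i * D.b i := Finset.sum_le_sum fun i hi =>
          Nat.mul_le_mul_left _ (hmin i hi)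
      _ ≤ ∑ i, uq i * D.b i := Finset.sum_le_sum_of_subset (Finset.subset_univ _)
      _ = D.rho uq := rfl
  have ha : ι * (D.w - D.b i2) + c.val ≤ D.amin c * D.w := by
    have h1 : ι * (D.w - D.b i2) ≤ ∑ i, ua i * (D.w - D.b i) := by
      calc ι * (D.w - D.b i2) ≤ (∑ i ∈ T, ua i) * (D.w - D.b i2) :=
            Nat.mul_le_mul_right _ (hν ua hua)
        _ = ∑ i ∈ T, ua i * (D.w - D.b i2) := Finset.sum_mul _ _ _
        _ ≤ ∑ i ∈ T, ua i * (D.w - D.b i) := Finset.sum_le_sum fun i hi =>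
            Nat.mul_le_mul_left _ (Nat.sub_le_sub_left (hmax i hi) _)
        _ ≤ ∑ i, ua i * (D.w - D.b i) := Finset.sum_le_sum_of_subset (Finset.subset_univ _)
    have h2 : ∑ i, ua i * (D.w - D.b i) + D.rho ua = dg ua * D.w := by
      rw [rho, dg, Finset.sum_mul, ← Finset.sum_add_distrib]
      apply Finset.sum_congr rfl
      intro i _
      rw [← Nat.mul_add, Nat.sub_add_cancel (D.b_le_w i)]
    have h3 := D.rho_eq ua
    have h4 := D.dg_eq ua
    rw [hua] at h3
    rw [hua2] at h4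
    rw [h4, add_mul] at h2
    omega
  -- the gap
  have hgap : D.w ≤ Nat.card F * (D.b i1 + (D.w - D.b i2)) := by
    have h1 : ((D.b i1 + (D.w - D.b i2) : ℕ) : ZMod D.w) ∈ F := by
      have h2 : ((D.b i1 + (D.w - D.b i2) : ℕ) : ZMod D.w)
          = ((D.b i1 : ZMod D.w) - ξ) - ((D.b i2 : ZMod D.w) - ξ) := by
        rw [Nat.cast_add, Nat.cast_sub (D.b_le_w i2)]
        simp
        abel
      rw [h2]
      exact F.sub_mem (hTξ i1 hi1) (hTξ i2 hi2)
    have h2 : Nat.card F • ((D.b i1 + (D.w - D.b i2) : ℕ) : ZMod D.w) = 0 := by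
      have h3 : Nat.card F • (⟨_, h1⟩ : F) = 0 := card_nsmul_eq_zero'
      have h4 := congrArg Subtype.val h3
      rw [AddSubgroup.coe_nsmul] at h4
      exact h4
    rw [nsmul_eq_mul, ← Nat.cast_mul, ZMod.natCast_eq_zero_iff] at h2
    apply Nat.le_of_dvd _ h2
    apply Nat.mul_pos
    · exact Nat.card_pos
    · have : D.b i1 ≠ 0 := by
        intro h0
        have := (Finset.mem_filter.1 hi1).2
        rw [h0] at this
        apply this
        simp
      omega
  -- conclusion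
  have hsum : ι * (D.b i1 + (D.w - D.b i2)) ≤ (D.amin c + D.qmin c) * D.w := by
    rw [Nat.mul_add, Nat.add_mul]; omega
  have h5 : ι * D.w ≤ (Nat.card F * (D.amin c + D.qmin c)) * D.w := by
    calc ι * D.w ≤ ι * (Nat.card F * (D.b i1 + (D.w - D.b i2))) := Nat.mul_le_mul_left _ hgap
      _ = Nat.card F * (ι * (D.b i1 + (D.w - D.b i2))) := by ring
      _ ≤ Nat.card F * ((D.amin c + D.qmin c) * D.w) := Nat.mul_le_mul_left _ hsum
      _ = _ := by ring
  exact Nat.le_of_mul_le_mul_right h5 D.w_pos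

include hξB hξF hcos in
theorem genus_bound {J : ℕ} (hJ : (J + 1) • D.B = univ) :
    Nat.card F * ∑ j ∈ range (Nat.card (ZMod D.w ⧸ F) - 1), j / Nat.card F
      ≤ ∑ c ∈ univ.erase (0 : ZMod D.w), (D.amin c + D.qmin c - 1) := by
  classical
  set κ := Nat.card F with hκ
  set d := Nat.card (ZMod D.w ⧸ F) with hd
  have hκpos : 0 < κ := Nat.card_pos
  set Ff : Finset (ZMod D.w) := univ.filter (fun x => x ∈ F) with hFf
  have hFfcard : Ff.card = κ := by
    rw [hκ, Nat.card_eq_fintype_card, Fintype.card_subtype]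
  set g : ℕ × ZMod D.w → ZMod D.w := fun p => (p.1 + 1) • ξ + p.2 with hg
  set P := range (d - 1) ×ˢ Ff with hP
  have hmemP : ∀ p ∈ P, p.1 + 1 < d ∧ p.2 ∈ F := by
    intro p hp
    rw [hP, Finset.mem_product, Finset.mem_range, hFf, Finset.mem_filter] at hp
    exact ⟨by omega, hp.2.2⟩
  have hne : ∀ j, 0 < j → j < d → j • ξ ∉ F := by
    intro j hj0 hj h
    rw [D.nsmul_mem_iff F ξ hξB hcos] at h
    have := Nat.le_of_dvd hj0 h
    omega
  have hinj : Set.InjOn g (P : Set (ℕ × ZMod D.w)) := by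
    have hlt : ∀ p ∈ P, ∀ p' ∈ P, g p = g p' → ¬ p.1 < p'.1 := by
      intro p hp p' hp' h hlt
      have h1 := hmemP p hp
      have h2 := hmemP p' hp'
      apply hne (p'.1 - p.1) (by omega) (by omega)
      have h3 : (p'.1 - p.1) • ξ = p.2 - p'.2 := by
        obtain ⟨j, hj⟩ : ∃ j, p'.1 = p.1 + j := ⟨p'.1 - p.1, by omega⟩
        have h4 : p'.1 - p.1 = j := by omega
        rw [h4]
        simp only [hg, hj] at h
        have h6 : (p.1 + j + 1) • ξ = (p.1 + 1) • ξ + j • ξ := by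
          rw [← add_nsmul]; congr 1; ring
        have h5 : p.2 = j • ξ + p'.2 :=
          add_left_cancel (a := (p.1 + 1) • ξ) (by rw [h, h6, add_assoc])
        rw [h5]; abel
      rw [h3]
      exact F.sub_mem h1.2 h2.2
    intro p hp p' hp' h
    have h1 := hlt p hp p' hp' h
    have h2 := hlt p' hp' p hp h.symm
    have h3 : p.1 = p'.1 := by omega
    simp only [hg, h3] at h
    exact Prod.ext h3 (add_left_cancel h)
  have hval : ∀ p ∈ P, p.1 / κ ≤ D.amin (g p) + D.qmin (g p) - 1 := by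
    intro p hp
    have h1 := hmemP p hp
    have h2 := D.index_bound F ξ hξB hξF hcos hJ (g p) (p.1 + 1) h1.1 (by
      simp only [hg]; rw [add_sub_cancel_left]; exact h1.2)
    rw [← hκ] at h2
    have h3 : p.1 / κ < D.amin (g p) + D.qmin (g p) := by
      rw [Nat.div_lt_iff_lt_mul hκpos, mul_comm]
      omega
    omega
  have hsub : P.image g ⊆ univ.erase 0 := by
    intro c hc
    rw [Finset.mem_image] at hc
    obtain ⟨p, hp, rfl⟩ := hc
    rw [Finset.mem_erase]
    refine ⟨?_, Finset.mem_univ _⟩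
    intro h0
    have h1 := hmemP p hp
    apply hne (p.1 + 1) (by omega) h1.1
    simp only [hg] at h0
    rw [eq_neg_of_add_eq_zero_left h0]
    exact F.neg_mem h1.2
  calc κ * ∑ j ∈ range (d - 1), j / κ = ∑ p ∈ P, p.1 / κ := by
        rw [hP, Finset.sum_product_right]
        simp only [Finset.sum_const, hFfcard, smul_eq_mul]
    _ ≤ ∑ p ∈ P, (D.amin (g p) + D.qmin (g p) - 1) := Finset.sum_le_sum hval
    _ = ∑ c ∈ P.image g, (D.amin c + D.qmin c - 1) :=
        (Finset.sum_image (f := fun c => D.amin c + D.qmin c - 1) hinj).symm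
    _ ≤ _ := Finset.sum_le_sum_of_subset hsub

end TwoCoset

end Dat

end Pool.Agent.H13.HS
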