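import Pool.Agent.H13.HS.GrDefs
import Pool.Agent.H13.HS.Final

/-! # The kernel of `S → G_Γ` is the ideal of initial forms -/

set_option autoImplicit false
set_option linter.unusedVariables false

namespace Pool.Agent.H13.HS.Gr

open MvPolynomial Pool.MP_c8f462_al.Width

section
variable {k : Type} [Field k] {e : ℕ} {Γ : AddSubmonoid ℕ} (g : Fin (e + 1) → ℕ)

/-- the sums of at least `n` generators -/
def Sm (n c : ℕ) : Prop := ∃ u : Fin (e + 1) →₀ ℕ, n ≤ Finsupp.degree u ∧ ∑ i, u i * g i = c

theorem Sm_add {n m c d : ℕ} (h1 : Sm g n c) (h2 : Sm g m d) : Sm g (n + m) (c + d) := by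
  obtain ⟨u, hu, rfl⟩ := h1
  obtain ⟨v, hv, rfl⟩ := h2
  refine ⟨u + v, ?_, ?_⟩
  · rw [map_add]; omega
  · simp [add_mul, Finset.sum_add_distrib]

theorem Sm_zero (hΓ : Γ = AddSubmonoid.closure (Set.range g)) {c : ℕ} (hc : c ∈ Γ) :
    Sm g 0 c := by
  subst hΓ
  induction hc using AddSubmonoid.closure_induction with
  | mem x hx =>
    obtain ⟨i, rfl⟩ := hx
    refine ⟨Finsupp.single i 1, by simp, ?_⟩
    rw [Finset.sum_eq_single i]
    · simp
    · intro j _ hj; simp [Finsupp.single_apply, Ne.symm hj]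
    · simp
  | zero => exact ⟨0, by simp, by simp⟩
  | add x y _ _ h1 h2 => exact Sm_add g h1 h2

theorem Sm_one (hΓ : Γ = AddSubmonoid.closure (Set.range g)) {c : ℕ} (hc : c ∈ Γ) (h0 : c ≠ 0) :
    Sm g 1 c := by
  obtain ⟨u, _, hu⟩ := Sm_zero g hΓ hc
  refine ⟨u, ?_, hu⟩
  by_contra hcon
  have h1 : Finsupp.degree u = 0 := by omega
  rw [Finsupp.degree_eq_zero_iff] at h1
  apply h0
  rw [← hu, h1]
  simp

theorem supp_pow (hΓ : Γ = AddSubmonoid.closure (Set.range g)) (n : ℕ) (f : semigroupRing k Γ)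
    (hf : f ∈ maxIdeal k Γ ^ n) (c : ℕ) (hc : PowerSeries.coeff c (f : PowerSeries k) ≠ 0) :
    Sm g n c := by
  induction n generalizing f c with
  | zero => exact Sm_zero g hΓ (f.2 c hc)
  | succ n ih =>
    rw [pow_succ] at hf
    refine Submodule.mul_induction_on (C := fun f => ∀ c, PowerSeries.coeff c
      ((f : semigroupRing k Γ) : PowerSeries k) ≠ 0 → Sm g (n + 1) c) hf ?_ ?_ c hc
    · intro a ha b hb c hc
      rw [Subalgebra.coe_mul, PowerSeries.coeff_mul] at hc
      obtain ⟨p, hp, h⟩ := Finset.exists_ne_zero_of_sum_ne_zero hc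
      rw [← Finset.HasAntidiagonal.mem_antidiagonal.1 hp]
      refine Sm_add g (ih a ha _ (left_ne_zero_of_mul h)) (Sm_one g hΓ
        (b.2 _ (right_ne_zero_of_mul h)) ?_)
      intro h0
      apply right_ne_zero_of_mul h
      rw [h0, PowerSeries.coeff_zero_eq_constantCoeff_apply]
      exact hb
    · intro a b ha hb c hc
      rw [Subalgebra.coe_add, map_add] at hc
      by_cases h : PowerSeries.coeff c (a : PowerSeries k) = 0
      · rw [h, zero_add] at hc
        exact hb c hc
      · exact ha c h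

theorem tau_mem {c : ℕ} (hc : c ∈ Γ) (h0 : c ≠ 0) : tau k Γ c hc ∈ maxIdeal k Γ := by
  change PowerSeries.constantCoeff (PowerSeries.X ^ c : PowerSeries k) = 0
  rw [map_pow, PowerSeries.constantCoeff_X, zero_pow h0]

theorem prod_mem (hg : ∀ i, g i ∈ Γ) (h0 : ∀ i, g i ≠ 0) (u : Fin (e + 1) →₀ ℕ) :
    ∏ i, tau k Γ (g i) (hg i) ^ u i ∈ maxIdeal k Γ ^ Finsupp.degree u := by
  have h : ∀ s : Finset (Fin (e + 1)), ∏ i ∈ s, tau k Γ (g i) (hg i) ^ u i ∈
      maxIdeal k Γ ^ (∑ i ∈ s, u i) := by
    intro s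
    induction s using Finset.induction_on with
    | empty => simp
    | insert a s ha ih =>
      rw [Finset.prod_insert ha, Finset.sum_insert ha, pow_add]
      exact Ideal.mul_mem_mul (Ideal.pow_mem_pow (tau_mem _ (h0 a)) _) ih
  have := h Finset.univ
  rwa [← Finsupp.degree_eq_sum] at this

theorem aeval_mono (hg : ∀ i, g i ∈ Γ) (u : Fin (e + 1) →₀ ℕ) (a : k) :
    aeval (fun i => tau k Γ (g i) (hg i)) (monomial u a) =
      algebraMap k (semigroupRing k Γ) a * ∏ i, tau k Γ (g i) (hg i) ^ u i := by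
  rw [aeval_monomial, Finsupp.prod_fintype _ _ (fun i => pow_zero _)]

theorem high_mem (hg : ∀ i, g i ∈ Γ) (h0 : ∀ i, g i ≠ 0) (n : ℕ)
    (f : MvPolynomial (Fin (e + 1)) k) (hf : ∀ u ∈ f.support, n ≤ Finsupp.degree u) :
    aeval (fun i => tau k Γ (g i) (hg i)) f ∈ maxIdeal k Γ ^ n := by
  rw [f.as_sum, map_sum]
  refine Ideal.sum_mem _ fun u hu => ?_
  rw [aeval_mono g hg]
  exact Ideal.mul_mem_left _ _ (Ideal.pow_le_pow_right (hf u hu) (prod_mem g hg h0 u))

theorem val_aeval (hg : ∀ i, g i ∈ Γ) (f : MvPolynomial (Fin (e + 1)) k) :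
    ((aeval (fun i => tau k Γ (g i) (hg i)) f : semigroupRing k Γ) : PowerSeries k) =
      ((aeval (fun i => (Polynomial.X : Polynomial k) ^ g i) f : Polynomial k) :
        PowerSeries k) := by
  have h1 : ((semigroupRing k Γ).val.comp (aeval (fun i => tau k Γ (g i) (hg i)))) =
      ((Polynomial.coeToPowerSeries.algHom (R := k) k).comp
        (aeval (fun i => (Polynomial.X : Polynomial k) ^ g i))) := by
    apply MvPolynomial.algHom_ext
    intro i
    simp [tau]
  have h2 := congrArg (fun φ => φ f) h1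
  simp only [AlgHom.comp_apply, Subalgebra.coe_val] at h2
  rw [h2]
  simp

theorem aeval_pol (u : Fin (e + 1) →₀ ℕ) (a : k) :
    aeval (fun i => (Polynomial.X : Polynomial k) ^ g i) (monomial u a) =
      Polynomial.monomial (∑ i, u i * g i) a := by
  rw [aeval_monomial, Finsupp.prod_fintype _ _ (fun i => pow_zero _)]
  rw [Polynomial.algebraMap_eq, ← Polynomial.C_mul_X_pow_eq_monomial]
  congr 1
  rw [← Finset.prod_pow_eq_pow_sum]
  exact Finset.prod_congr rfl fun i _ => by rw [← pow_mul, mul_comm]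

/-- The kernel of `S → G_Γ` is the ideal of initial forms of the elements of the kernel of
`S → k[τ]`. -/
theorem coneIdeal_eq (hΓ : Γ = AddSubmonoid.closure (Set.range g)) (hg : ∀ i, g i ∈ Γ)
    (h0 : ∀ i, g i ≠ 0) :
    coneIdeal k Γ g hg = Ideal.span {h : MvPolynomial (Fin (e + 1)) k |
          ∃ f ∈ RingHom.ker (MvPolynomial.aeval
              (fun i : Fin (e + 1) => (Polynomial.X : Polynomial k) ^ g i)),
            ∃ n : ℕ, MvPolynomial.homogeneousComponent n f = h ∧
              ∀ m < n, MvPolynomial.homogeneousComponent m f = 0} := by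
  classical
  apply le_antisymm
  · refine Ideal.span_le.2 ?_
    rintro F ⟨n, hF, hm⟩
    apply Ideal.subset_span
    set P : Polynomial k := aeval (fun i => (Polynomial.X : Polynomial k) ^ g i) F with hP
    have h1 : ∀ c ∈ P.support, Sm g (n + 1) c := by
      intro c hc
      refine supp_pow g hΓ (n + 1) _ hm c ?_
      rw [val_aeval, ← hP, Polynomial.coeff_coe]
      exact Polynomial.mem_support_iff.1 hc
    choose! u hu1 hu2 using h1
    refine ⟨F - ∑ c ∈ P.support, monomial (u c) (P.coeff c), ?_, n, ?_, ?_⟩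
    · rw [RingHom.mem_ker, map_sub, map_sum, sub_eq_zero]
      change P = _
      conv_lhs => rw [P.as_sum_support]
      refine Finset.sum_congr rfl fun c hc => ?_
      rw [aeval_pol, hu2 c hc]
    · rw [map_sub, homogeneousComponent_of_mem hF, if_pos rfl, map_sum, Finset.sum_eq_zero,
        sub_zero]
      intro c hc
      rw [homogeneousComponent_of_mem (isHomogeneous_monomial _ rfl), if_neg]
      have := hu1 c hc
      omega
    · intro m hmn
      rw [map_sub, homogeneousComponent_of_mem hF, if_neg (by omega), map_sum,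
        Finset.sum_eq_zero, sub_zero]
      intro c hc
      rw [homogeneousComponent_of_mem (isHomogeneous_monomial _ rfl), if_neg]
      have := hu1 c hc
      omega
  · refine Ideal.span_le.2 ?_
    rintro h ⟨f, hf, n, rfl, hn⟩
    apply Ideal.subset_span
    refine ⟨n, homogeneousComponent_isHomogeneous n f, ?_⟩
    have h1 : aeval (fun i => tau k Γ (g i) (hg i)) f = 0 := by
      apply Subtype.ext
      rw [val_aeval]
      rw [RingHom.mem_ker] at hf
      have hf' : aeval (fun i => (Polynomial.X : Polynomial k) ^ g i) f = 0 := hf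
      rw [hf']
      simp
    have h2 : aeval (fun i => tau k Γ (g i) (hg i)) (homogeneousComponent n f) =
        - aeval (fun i => tau k Γ (g i) (hg i)) (f - homogeneousComponent n f) := by
      rw [map_sub, h1]; ring
    rw [h2]
    refine neg_mem ?_
    refine high_mem g hg h0 (n + 1) _ ?_
    intro u hu
    rw [mem_support_iff, coeff_sub, coeff_homogeneousComponent] at hu
    by_contra hcon
    have h3 : Finsupp.degree u ≤ n := by omega
    rcases Nat.lt_or_eq_of_le h3 with h4 | h4
    · apply hu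
      rw [if_neg (by omega), sub_zero]
      have h5 := congrArg (coeff u) (hn _ h4)
      rw [coeff_homogeneousComponent, if_pos rfl, coeff_zero] at h5
      exact h5
    · apply hu
      rw [if_pos h4, sub_self]

end

end Pool.Agent.H13.HS.Gr
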