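import Mathlib

/-!
# The tangent cone of a numerical semigroup ring

Definitions for the width bound of Herzog and Stamate (MP_c8f462_al).
-/

set_option autoImplicit false

namespace Pool.MP_c8f462_al.Width

/-- `R_Γ`: the power series over `k` in one variable all of whose exponents lie in `Γ` -/
def semigroupRing (k : Type) [Field k] (Γ : AddSubmonoid ℕ) : Subalgebra k (PowerSeries k) where
  carrier := {f | ∀ n, PowerSeries.coeff n f ≠ 0 → n ∈ Γ}
  mul_mem' := by
    intro a b ha hb n hn
    rw [PowerSeries.coeff_mul] at hn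
    obtain ⟨p, hp, h⟩ := Finset.exists_ne_zero_of_sum_ne_zero hn
    rw [← Finset.HasAntidiagonal.mem_antidiagonal.1 hp]
    exact Γ.add_mem (ha _ (left_ne_zero_of_mul h)) (hb _ (right_ne_zero_of_mul h))
  add_mem' := by
    intro a b ha hb n hn
    rw [map_add] at hn
    by_cases h : PowerSeries.coeff n a = 0
    · rw [h, zero_add] at hn
      exact hb n hn
    · exact ha n h
  algebraMap_mem' := by
    intro r n hn
    rw [PowerSeries.algebraMap_apply, Algebra.algebraMap_self_apply, PowerSeries.coeff_C] at hn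
    split_ifs at hn with h
    · rw [h]; exact Γ.zero_mem
    · exact absurd rfl hn

/-- `𝔪`: the elements of `R_Γ` with constant term `0` -/
def maxIdeal (k : Type) [Field k] (Γ : AddSubmonoid ℕ) : Ideal (semigroupRing k Γ) where
  carrier := {f | PowerSeries.constantCoeff (f : PowerSeries k) = 0}
  add_mem' := by
    intro a b ha hb
    change _ = _ at ha hb ⊢
    rw [Subalgebra.coe_add, map_add, ha, hb, add_zero]
  zero_mem' := by simp
  smul_mem' := by
    intro c a ha
    change _ = _ at ha ⊢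
    rw [smul_eq_mul, Subalgebra.coe_mul, map_mul, ha, mul_zero]

/-- `τ^g`, an element of `R_Γ` -/
noncomputable def tau (k : Type) [Field k] (Γ : AddSubmonoid ℕ) (g : ℕ) (hg : g ∈ Γ) :
    semigroupRing k Γ :=
  ⟨PowerSeries.X ^ g, by
    intro n hn
    rw [PowerSeries.coeff_X_pow] at hn
    split_ifs at hn with h
    · rwa [h]
    · exact absurd rfl hn⟩

/-- The kernel of `S = k[x₀, …, x_e] → G_Γ = ⨁ 𝔪ⁿ/𝔪ⁿ⁺¹`, `x_i ↦ class of τ^(g_i)`: it is spanned by
the forms `F` whose value `F(τ^(g_0), …, τ^(g_e))` is in `𝔪ⁿ⁺¹`, where `n` is the degree of `F`. -/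
noncomputable def coneIdeal (k : Type) [Field k] (Γ : AddSubmonoid ℕ) {e : ℕ} (g : Fin (e + 1) → ℕ)
    (hg : ∀ i, g i ∈ Γ) : Ideal (MvPolynomial (Fin (e + 1)) k) :=
  Ideal.span {F | ∃ n, F.IsHomogeneous n ∧
    MvPolynomial.aeval (fun i => tau k Γ (g i) (hg i)) F ∈ maxIdeal k Γ ^ (n + 1)}

/-- `b₁(G_Γ)`: the minimal number of generators of the ideal `J`, that is, the dimension of
`J/(x₀, …, x_e)J` -/
noncomputable def minGens {k : Type} [Field k] {e : ℕ}
    (J : Ideal (MvPolynomial (Fin (e + 1)) k)) : ℕ :=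
  Module.finrank k (J ⧸ ((Ideal.span (Set.range (MvPolynomial.X : Fin (e + 1) →
    MvPolynomial (Fin (e + 1)) k))) • (⊤ : Submodule (MvPolynomial (Fin (e + 1)) k) J)))

end Pool.MP_c8f462_al.Width
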