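import Mathlib

/-!
# The isoperimetric lemma (Hamidoune) in finite abelian groups

For a generating set `B ∋ 0` of a finite abelian group, `B ≠ G`, the minimum `κ` of
`|X + B| - |X|` over nonempty `X` with `X + B ≠ G` is attained at a subgroup.
-/

set_option autoImplicit false
set_option linter.unusedSectionVars false
set_option linter.unusedVariables false

namespace Pool.Agent.H13.HS

open Finset Pointwise

section Iso

variable {G : Type*} [AddCommGroup G] [Fintype G] [DecidableEq G]

/-- admissible sets -/
def Adm (B X : Finset G) : Prop := X.Nonempty ∧ X + B ≠ univ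

theorem subset_add_of_zero_mem {B : Finset G} (h0 : (0 : G) ∈ B) (X : Finset G) : X ⊆ X + B := by
  intro x hx
  exact Finset.mem_add.2 ⟨x, hx, 0, h0, by simp⟩

theorem adm_translate {B X : Finset G} (h : Adm B X) (x : G) : Adm B (x +ᵥ X) := by
  refine ⟨h.1.vadd_finset, ?_⟩
  intro h'
  apply h.2
  have h1 : (x +ᵥ X) + B = x +ᵥ (X + B) := vadd_add_assoc x X B
  rw [h1] at h'
  have h2 : (x +ᵥ (X + B)).card = (univ : Finset G).card := by rw [h']
  rw [Finset.card_vadd_finset] at h2
  exact Finset.eq_univ_of_card _ (by rw [h2]; simp)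

theorem card_translate (B X : Finset G) (x : G) :
    ((x +ᵥ X) + B).card = (X + B).card ∧ (x +ᵥ X).card = X.card := by
  have h1 : (x +ᵥ X) + B = x +ᵥ (X + B) := vadd_add_assoc x X B
  rw [h1, Finset.card_vadd_finset, Finset.card_vadd_finset]
  exact ⟨rfl, rfl⟩

/-- Two intersecting atoms coincide. -/
theorem atoms_eq {B : Finset G} {κ α : ℕ}
    (hmin : ∀ X, Adm B X → X.card + κ ≤ (X + B).card)
    (hatom : ∀ X, Adm B X → (X + B).card = X.card + κ → α ≤ X.card)
    {X Y : Finset G} (hX : Adm B X) (hY : Adm B Y)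
    (hXk : (X + B).card = X.card + κ) (hYk : (Y + B).card = Y.card + κ)
    (hXa : X.card = α) (hYa : Y.card = α) (hXY : (X ∩ Y).Nonempty) : X = Y := by
  by_contra hne
  -- the intersection is a proper subset of X
  have hssub : (X ∩ Y) ⊂ X := by
    refine Finset.ssubset_iff_subset_ne.2 ⟨Finset.inter_subset_left, ?_⟩
    intro h
    apply hne
    have : X ⊆ Y := by
      intro x hx
      rw [← h] at hx
      exact (Finset.mem_inter.1 hx).2
    exact Finset.eq_of_subset_of_card_le this (by rw [hXa, hYa])
  have hcard_lt : (X ∩ Y).card < X.card := Finset.card_lt_card hssub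
  have hadm : Adm B (X ∩ Y) := by
    refine ⟨hXY, ?_⟩
    intro h
    apply hX.2
    apply Finset.eq_univ_of_forall
    intro z
    have hz : z ∈ (X ∩ Y) + B := by rw [h]; exact Finset.mem_univ _
    exact Finset.add_subset_add_right Finset.inter_subset_left hz
  have h1 := hmin _ hadm
  have h1' : (X ∩ Y).card + κ < ((X ∩ Y) + B).card := by
    rcases h1.lt_or_eq with h | h
    · exact h
    · exfalso
      have := hatom _ hadm h.symm
      omega
  -- submodularity
  have hsub1 : (X ∩ Y) + B ⊆ (X + B) ∩ (Y + B) := by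
    intro z hz
    exact Finset.mem_inter.2
      ⟨Finset.add_subset_add_right Finset.inter_subset_left hz,
       Finset.add_subset_add_right Finset.inter_subset_right hz⟩
  have hunion : (X ∪ Y) + B = (X + B) ∪ (Y + B) := Finset.union_add
  have hc1 : ((X ∩ Y) + B).card ≤ ((X + B) ∩ (Y + B)).card := Finset.card_le_card hsub1
  have hc2 : ((X + B) ∪ (Y + B)).card + ((X + B) ∩ (Y + B)).card = (X + B).card + (Y + B).card :=
    Finset.card_union_add_card_inter _ _
  have hc3 : (X ∪ Y).card + (X ∩ Y).card = X.card + Y.card := Finset.card_union_add_card_inter _ _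
  -- the union is not admissible
  have hnadm : (X ∪ Y) + B = univ := by
    by_contra h
    have := hmin (X ∪ Y) ⟨hX.1.mono Finset.subset_union_left, h⟩
    rw [hunion] at this
    omega
  have hG : ((X + B) ∪ (Y + B)).card = Fintype.card G := by
    rw [← hunion, hnadm, Finset.card_univ]
  -- duality
  have hdual : 2 * X.card + κ ≤ Fintype.card G := by
    set Z : Finset G := -((X + B)ᶜ) with hZ
    have hZcard : Z.card + (X + B).card = Fintype.card G := by
      rw [hZ, Finset.card_neg, Finset.card_compl]
      have := Finset.card_le_univ (X + B)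
      omega
    have hZne : Z.Nonempty := by
      rw [← Finset.card_pos]
      have : (X + B).card < Fintype.card G := by
        rcases (Finset.card_le_univ (X + B)).lt_or_eq with h | h
        · exact h
        · exact absurd (Finset.eq_univ_of_card _ h) hX.2
      omega
    -- Z + B misses -X
    have hdisj : Disjoint (Z + B) (-X) := by
      rw [Finset.disjoint_left]
      intro z hz hzX
      obtain ⟨y, hy, b, hb, rfl⟩ := Finset.mem_add.1 hz
      rw [hZ, Finset.mem_neg'] at hy
      rw [Finset.mem_neg'] at hzX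
      apply (Finset.mem_compl.1 hy)
      exact Finset.mem_add.2 ⟨-(y + b), hzX, b, hb, by abel⟩
    have hZB : (Z + B).card + X.card ≤ Fintype.card G := by
      have := Finset.card_le_univ ((Z + B) ∪ (-X))
      rw [Finset.card_union_of_disjoint hdisj, Finset.card_neg] at this
      exact this
    have hZadm : Adm B Z := by
      refine ⟨hZne, ?_⟩
      intro h
      have hXpos : 0 < X.card := Finset.card_pos.2 hX.1
      rw [h, Finset.card_univ] at hZB
      omega
    have h3 := hmin Z hZadm
    have h4 : (Z + B).card = Z.card + κ := by omega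
    have h5 := hatom Z hZadm h4
    omega
  have hXY2 : 0 < (X ∩ Y).card := Finset.card_pos.2 hXY
  omega

/-- The isoperimetric lemma. -/
theorem iso_exists (B : Finset G) (h0 : (0 : G) ∈ B) (hB : B ≠ univ) :
    ∃ (F : AddSubgroup G) (κ : ℕ),
      (∀ X, Adm B X → X.card + κ ≤ (X + B).card) ∧
      (∃ X : Finset G, (X : Set G) = (F : Set G) ∧ Adm B X ∧ (X + B).card = X.card + κ) := by
  classical
  -- the family of admissible sets
  let A : Finset (Finset G) := univ.filter (fun X => Adm B X)
  have hAne : A.Nonempty := by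
    refine ⟨{0}, ?_⟩
    simp only [A, Finset.mem_filter, Finset.mem_univ, true_and]
    refine ⟨Finset.singleton_nonempty _, ?_⟩
    rw [Finset.singleton_add]
    simpa using hB
  obtain ⟨X0, hX0, hX0min⟩ := Finset.exists_min_image A (fun X => (X + B).card - X.card) hAne
  set κ := (X0 + B).card - X0.card with hκ
  have hle : ∀ X : Finset G, X.card ≤ (X + B).card := fun X =>
    Finset.card_le_card (subset_add_of_zero_mem h0 X)
  have hmin : ∀ X, Adm B X → X.card + κ ≤ (X + B).card := by
    intro X hX
    have := hX0min X (by simp only [A, Finset.mem_filter, Finset.mem_univ, true_and]; exact hX)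
    have h2 := hle X
    omega
  let A' : Finset (Finset G) := A.filter (fun X => (X + B).card = X.card + κ)
  have hA'ne : A'.Nonempty := by
    refine ⟨X0, ?_⟩
    rw [Finset.mem_filter]
    refine ⟨hX0, ?_⟩
    have := hle X0
    omega
  obtain ⟨X1, hX1, hX1min⟩ := Finset.exists_min_image A' (fun X => X.card) hA'ne
  have hX1' : Adm B X1 ∧ (X1 + B).card = X1.card + κ := by
    have := Finset.mem_filter.1 hX1
    refine ⟨?_, this.2⟩
    have := this.1
    simpa [A] using this
  have hatom : ∀ X, Adm B X → (X + B).card = X.card + κ → X1.card ≤ X.card := by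
    intro X hX hXk
    apply hX1min
    rw [Finset.mem_filter]
    exact ⟨by simp only [A, Finset.mem_filter, Finset.mem_univ, true_and]; exact hX, hXk⟩
  obtain ⟨x1, hx1⟩ := hX1'.1.1
  set X : Finset G := (-x1) +ᵥ X1 with hXdef
  have hX0mem : (0 : G) ∈ X := by
    rw [hXdef, Finset.mem_vadd_finset]
    exact ⟨x1, hx1, by simp⟩
  have hXadm : Adm B X := adm_translate hX1'.1 _
  have hXk : (X + B).card = X.card + κ := by
    rw [(card_translate B X1 (-x1)).1, (card_translate B X1 (-x1)).2]; exact hX1'.2
  have hXa : X.card = X1.card := (card_translate B X1 (-x1)).2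
  -- translates of X containing 0 equal X
  have htrans : ∀ x ∈ X, (-x) +ᵥ X = X := by
    intro x hx
    apply atoms_eq hmin hatom (adm_translate hXadm _) hXadm
      (by rw [(card_translate B X (-x)).1, (card_translate B X (-x)).2]; exact hXk) hXk
      (by rw [(card_translate B X (-x)).2]; exact hXa) hXa
    refine ⟨0, Finset.mem_inter.2 ⟨?_, hX0mem⟩⟩
    rw [Finset.mem_vadd_finset]
    exact ⟨x, hx, by simp⟩
  have hsub : ∀ x ∈ X, ∀ y ∈ X, y - x ∈ X := by
    intro x hx y hy
    rw [← htrans x hx, Finset.mem_vadd_finset]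
    exact ⟨y, hy, by rw [vadd_eq_add]; abel⟩
  have hneg : ∀ x ∈ X, -x ∈ X := by
    intro x hx
    have := hsub x hx 0 hX0mem
    simpa using this
  let F : AddSubgroup G :=
    { carrier := (X : Set G)
      zero_mem' := hX0mem
      add_mem' := by
        intro a b ha hb
        have ha' : a ∈ X := ha
        have hb' : b ∈ X := hb
        have := hsub (-b) (hneg b hb') a ha'
        simpa using this
      neg_mem' := by
        intro a ha
        exact hneg a ha }
  exact ⟨F, κ, hmin, X, rfl, hXadm, hXk⟩

/-- The structure theorem used below. -/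
theorem iso_structure (B : Finset G) (h0 : (0 : G) ∈ B) (hB : B ≠ univ)
    (hgen : AddSubgroup.closure (B : Set G) = ⊤) :
    ∃ κ : ℕ, (∀ X, Adm B X → X.card + κ ≤ (X + B).card) ∧ 1 ≤ κ ∧ κ + 1 ≤ B.card ∧
      (2 * B.card ≤ 3 * κ ∨
        ∃ (F : AddSubgroup G) (ξ : G), Nat.card F = κ ∧ ξ ∈ B ∧ ξ ∉ F ∧
          (∀ x ∈ B, x ∈ F ∨ x - ξ ∈ F) ∧ B.card ≤ 2 * κ) := by
  classical
  obtain ⟨F, κ, hmin, X, hXF, hXadm, hXk⟩ := iso_exists B h0 hB
  have hmemX : ∀ x, x ∈ X ↔ x ∈ F := by
    intro x
    rw [← Finset.mem_coe, hXF]; rfl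
  have hXcard : Nat.card F = X.card := by
    have h1 : Nat.card F = (F : Set G).ncard := Nat.card_coe_set_eq _
    rw [h1, ← hXF, Set.ncard_coe_finset]
  have h0X : (0 : G) ∈ X := (hmemX 0).2 F.zero_mem
  have hBsub : B ⊆ X + B := by
    intro x hx
    exact Finset.mem_add.2 ⟨0, h0X, x, hx, by simp⟩
  have hXsub : X ⊆ X + B := subset_add_of_zero_mem h0 X
  -- `B` is not contained in `F`
  obtain ⟨ξ, hξB, hξF⟩ : ∃ ξ ∈ B, ξ ∉ F := by
    by_contra hcon
    push Not at hcon
    have h1 : AddSubgroup.closure (B : Set G) ≤ F := by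
      rw [AddSubgroup.closure_le]
      exact fun x hx => hcon x hx
    rw [hgen] at h1
    apply hXadm.2
    apply Finset.eq_univ_of_forall
    intro z
    exact hXsub ((hmemX z).2 (h1 (AddSubgroup.mem_top z)))
  have hξX : ξ ∉ X := fun h => hξF ((hmemX ξ).1 h)
  have hκ1 : 1 ≤ κ := by
    have h1 : X ⊂ X + B := by
      refine Finset.ssubset_iff_subset_ne.2 ⟨hXsub, ?_⟩
      intro h
      exact hξX (h ▸ hBsub hξB)
    have := Finset.card_lt_card h1
    omega
  have hadm0 : Adm B {0} := by
    refine ⟨Finset.singleton_nonempty _, ?_⟩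
    rw [Finset.singleton_add]
    simpa using hB
  have hκB : κ + 1 ≤ B.card := by
    have h1 := hmin {0} hadm0
    rw [Finset.singleton_add] at h1
    simp only [Finset.card_singleton, zero_vadd] at h1
    omega
  -- divisibility
  have hdvd : X.card ∣ (X + B).card := by
    have h1 : ((X + B : Finset G) : Set G) = (QuotientAddGroup.mk : G → G ⧸ F) ⁻¹'
        (QuotientAddGroup.mk '' (B : Set G)) := by
      rw [QuotientAddGroup.preimage_image_mk_eq_add, Finset.coe_add, hXF, add_comm]
    have h2 := Nat.card_congr (QuotientAddGroup.preimageMkEquivAddSubgroupProdSet F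
      ((QuotientAddGroup.mk : G → G ⧸ F) '' (B : Set G)))
    rw [← h1, Nat.card_prod, hXcard] at h2
    have h3 : Nat.card ((X + B : Finset G) : Set G) = (X + B).card := by
      rw [Nat.card_coe_set_eq, Set.ncard_coe_finset]
    rw [h3] at h2
    exact Dvd.intro _ h2.symm
  have hdvd' : X.card ∣ κ := by
    rw [hXk] at hdvd
    exact (Nat.dvd_add_right (dvd_refl _)).1 hdvd
  obtain ⟨c, hc⟩ := hdvd'
  have hBle : B.card ≤ X.card + κ := by
    rw [← hXk]; exact Finset.card_le_card hBsub
  refine ⟨κ, hmin, hκ1, hκB, ?_⟩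
  rcases Nat.lt_or_ge c 2 with hc2 | hc2
  · right
    have hc1 : c = 1 := by
      rcases Nat.eq_zero_or_pos c with h | h
      · subst h; omega
      · omega
    subst hc1
    have hκX : κ = X.card := by omega
    refine ⟨F, ξ, by rw [hXcard, hκX], hξB, hξF, ?_, by omega⟩
    have hsub2 : ξ +ᵥ X ⊆ X + B := by
      intro z hz
      rw [Finset.mem_vadd_finset] at hz
      obtain ⟨y, hy, rfl⟩ := hz
      exact Finset.mem_add.2 ⟨y, hy, ξ, hξB, by rw [vadd_eq_add, add_comm]⟩
    have hdisj : Disjoint X (ξ +ᵥ X) := by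
      rw [Finset.disjoint_left]
      intro z hz hz2
      rw [Finset.mem_vadd_finset] at hz2
      obtain ⟨y, hy, rfl⟩ := hz2
      apply hξF
      have h3 := F.sub_mem ((hmemX _).1 hz) ((hmemX _).1 hy)
      rwa [vadd_eq_add, add_sub_cancel_right] at h3
    have heq : X ∪ (ξ +ᵥ X) = X + B := by
      apply Finset.eq_of_subset_of_card_le (Finset.union_subset hXsub hsub2)
      rw [Finset.card_union_of_disjoint hdisj, Finset.card_vadd_finset]
      omega
    intro x hx
    have hx2 : x ∈ X ∪ (ξ +ᵥ X) := by rw [heq]; exact hBsub hx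
    rcases Finset.mem_union.1 hx2 with h | h
    · left; exact (hmemX _).1 h
    · right
      rw [Finset.mem_vadd_finset] at h
      obtain ⟨y, hy, rfl⟩ := h
      rw [vadd_eq_add, add_sub_cancel_left]
      exact (hmemX _).1 hy
  · left
    have : 2 * X.card ≤ κ := by
      rw [hc, mul_comm]
      exact Nat.mul_le_mul_left _ hc2
    omega

end Iso

end Pool.Agent.H13.HS
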