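import Pool.Agent.H13.HS.Total

/-! # The nonredundant corners -/

set_option autoImplicit false
set_option linter.unusedSectionVars false
set_option linter.unusedVariables false

namespace Pool.Agent.H13.HS

open Finset Pointwise

variable {e : ℕ}

namespace Dat

variable (D : Dat e)

/-- corners: minimal nonstandard monomials -/
def Corner (M : Mon e) : Prop := ¬ D.Std M ∧ ∀ i ∈ M.support, D.Std (M - Finsupp.single i 1)

/-- redundant corners -/
def Redun (M : Mon e) : Prop := M 0 ≠ 0 ∧ ∃ N' : Mon e,
  D.Same (N' + Finsupp.single (Fin.last e) 1) (M - Finsupp.single 0 1) ∧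
    D.K (N' + Finsupp.single 0 1)

theorem exists_corner {u : Mon e} (hu : ¬ D.Std u) : ∃ M, M ≤ u ∧ D.Corner M := by
  induction hn : dg u using Nat.strong_induction_on generalizing u with
  | _ n ih =>
    by_cases h : ∀ i ∈ u.support, D.Std (u - Finsupp.single i 1)
    · exact ⟨u, le_refl u, hu, h⟩
    · push Not at h
      obtain ⟨i, hi, hi2⟩ := h
      have h1 := congrArg dg (sub_single_add u hi)
      rw [dg_add, dg_single] at h1
      obtain ⟨M, hM, hM2⟩ := ih (dg (u - Finsupp.single i 1)) (by omega) hi2 rfl
      exact ⟨M, hM.trans tsub_le_self, hM2⟩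

/-- corners divisible by `x_0` are in `K` -/
theorem corner_K {M : Mon e} (hM : D.Corner M) (h0 : M 0 ≠ 0) : D.K M := by
  by_contra hK
  have hnot : ∃ v, D.Same v M ∧ key M < key v := by
    by_contra hcon
    push Not at hcon
    exact hM.1 ⟨hK, hcon⟩
  obtain ⟨P, hP, hlt⟩ := hnot
  have hP0 : P 0 ≠ 0 := by
    have := zero_le_of_key_le hlt.le
    omega
  have h1 := sub_single_add M (Finsupp.mem_support_iff.2 h0)
  have h2 := sub_single_add P (Finsupp.mem_support_iff.2 hP0)
  have hStd := hM.2 0 (Finsupp.mem_support_iff.2 h0)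
  have hsame : D.Same (P - Finsupp.single 0 1) (M - Finsupp.single 0 1) := by
    constructor
    · have e1 := congrArg dg h1
      have e2 := congrArg dg h2
      rw [dg_add, dg_single] at e1 e2
      have := hP.1
      omega
    · have e1 := congrArg D.rho h1
      have e2 := congrArg D.rho h2
      rw [rho_add, rho_single] at e1 e2
      have := hP.2
      omega
  have h3 := hStd.2 _ hsame
  have h4 : key P ≤ key M := by
    rw [← h1, ← h2, key_add, key_add]
    exact add_le_add_left h3 _
  exact absurd hlt (not_lt.2 h4)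

/-- the nonredundant corners -/
def NC : Set (Mon e) := {M | D.Corner M ∧ ¬ D.Redun M}

theorem NC_bound (F : Finset (Mon e)) (hF : ∀ M ∈ F, M ∈ D.NC) :
    2 * F.card ≤ (D.w + 1) * D.w := by
  classical
  set F3 := F.filter (fun M => M 0 ≠ 0) with hF3
  set F12 := F.filter (fun M => ¬ M 0 ≠ 0) with hF12
  set F2 := F12.filter (fun M => M (Fin.last e) ≠ 0) with hF2
  set F1 := F12.filter (fun M => ¬ M (Fin.last e) ≠ 0) with hF1
  have hcard : F.card = F3.card + (F2.card + F1.card) := by
    rw [hF2, hF1, Finset.card_filter_add_card_filter_not,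
      hF3, hF12, Finset.card_filter_add_card_filter_not]
  -- first kind
  have h1 : ∀ M ∈ F1, M.support ⊆ V e ∧ M ∉ D.OG ∧
      ∀ i ∈ M.support, M - Finsupp.single i 1 ∈ D.OG := by
    intro M hM
    rw [hF1, hF12, Finset.mem_filter, Finset.mem_filter] at hM
    obtain ⟨⟨hM1, hM2⟩, hM3⟩ := hM
    rw [not_not] at hM2 hM3
    have hc := (hF M hM1).1
    refine ⟨support_subset_V hM2 hM3, fun h => hc.1 h.1, ?_⟩
    intro i hi
    refine ⟨hc.2 i hi, ?_, ?_⟩
    · simp [hM2]
    · simp [hM3]
  -- second kind
  have h2 : F2.card ≤ D.OG.ncard := by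
    rw [Set.ncard_eq_toFinset_card _ D.OG_finite]
    apply Finset.card_le_card_of_injOn (fun M => M.erase (Fin.last e))
    · intro M hM
      have hM' := hM
      rw [Finset.mem_coe, hF2, hF12, Finset.mem_filter, Finset.mem_filter] at hM'
      obtain ⟨⟨hM1, hM2⟩, hM3⟩ := hM'
      rw [not_not] at hM2
      rw [Finset.mem_coe, Set.Finite.mem_toFinset]
      have hc := (hF M hM1).1
      refine ⟨?_, ?_, ?_⟩
      · apply (hc.2 _ (Finsupp.mem_support_iff.2 hM3)).of_le
        intro i
        by_cases hi : i = Fin.last e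
        · subst hi; simp
        · rw [Finsupp.erase_ne hi]
          simp [Finsupp.single_apply, Ne.symm hi]
      · rw [Finsupp.erase_ne D.zero_ne_last]; exact hM2
      · exact Finsupp.erase_same
    · have hlt : ∀ M ∈ F2, ∀ M' ∈ F2, M.erase (Fin.last e) = M'.erase (Fin.last e) →
          ¬ M (Fin.last e) < M' (Fin.last e) := by
        intro M hM M' hM' heq hlt
        rw [hF2, hF12, Finset.mem_filter, Finset.mem_filter] at hM hM'
        have hc := (hF M hM.1.1).1
        have hc' := (hF M' hM'.1.1).1
        apply hc.1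
        apply (hc'.2 _ (Finsupp.mem_support_iff.2 hM'.2)).of_le
        intro i
        by_cases hi : i = Fin.last e
        · subst hi; simp; omega
        · have := DFunLike.congr_fun heq i
          rw [Finsupp.erase_ne hi, Finsupp.erase_ne hi] at this
          simp [Finsupp.single_apply, Ne.symm hi, this]
      intro M hM M' hM' heq
      have h3 := hlt M hM M' hM' heq
      have h4 := hlt M' hM' M hM heq.symm
      ext i
      by_cases hi : i = Fin.last e
      · subst hi; omega
      · have := DFunLike.congr_fun heq i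
        simp only at this
        rwa [Finsupp.erase_ne hi, Finsupp.erase_ne hi] at this
  -- third kind
  set C3 := F3.image (fun M => M - Finsupp.single 0 1) with hC3
  have hinj : Set.InjOn (fun M : Mon e => M - Finsupp.single 0 1) (F3 : Set (Mon e)) := by
    intro M hM M' hM' heq
    rw [Finset.mem_coe, hF3, Finset.mem_filter] at hM hM'
    rw [← sub_single_add M (Finsupp.mem_support_iff.2 hM.2),
      ← sub_single_add M' (Finsupp.mem_support_iff.2 hM'.2)]
    simp only at heq
    rw [heq]
  have hC3card : C3.card = F3.card := Finset.card_image_of_injOn hinj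
  have h3 : ∀ N ∈ C3, D.XZ N := by
    intro N hN
    rw [hC3, Finset.mem_image] at hN
    obtain ⟨M, hM, rfl⟩ := hN
    rw [hF3, Finset.mem_filter] at hM
    have hc := (hF M hM.1)
    refine ⟨hc.1.2 0 (Finsupp.mem_support_iff.2 hM.2), ?_, ?_⟩
    · rw [sub_single_add M (Finsupp.mem_support_iff.2 hM.2)]
      exact D.corner_K hc.1 hM.2
    · intro N' hN' hK
      exact hc.2 ⟨hM.2, N', hN', hK⟩
  have htot := D.total_bound F1 C3 h1 h3
  rw [hC3card] at htot
  omega

theorem NC_finite : D.NC.Finite := by
  by_contra hinf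
  obtain ⟨F, hF, hcard⟩ := Set.Infinite.exists_subset_card_eq hinf ((D.w + 1) * D.w + 1)
  have := D.NC_bound F (fun u hu => hF hu)
  omega

theorem NC_ncard : 2 * D.NC.ncard ≤ (D.w + 1) * D.w := by
  rw [Set.ncard_eq_toFinset_card _ D.NC_finite]
  exact D.NC_bound _ (fun M hM => by rwa [Set.Finite.mem_toFinset] at hM)

end Dat

end Pool.Agent.H13.HS
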