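import Pool.Agent.H13.HS.Gens

/-! # The width bound, for the tangent cone as in the problem -/

set_option autoImplicit false
set_option linter.unusedVariables false

namespace Pool.Agent.H13.HS

open MvPolynomial Pool.MP_c8f462_al.Width

/-- a single generator: the kernel is zero -/
theorem Istar_eq_bot (k : Type) [Field k] (g : Fin (0 + 1) → ℕ) (hg0 : 1 ≤ g 0) :
    Ideal.span {h : MvPolynomial (Fin (0 + 1)) k |
          ∃ f ∈ RingHom.ker (MvPolynomial.aeval
              (fun i : Fin (0 + 1) => (Polynomial.X : Polynomial k) ^ g i)),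
            ∃ n : ℕ, MvPolynomial.homogeneousComponent n f = h ∧
              ∀ m < n, MvPolynomial.homogeneousComponent m f = 0} = ⊥ := by
  have hker : ∀ f : MvPolynomial (Fin (0 + 1)) k, MvPolynomial.aeval
      (fun i : Fin (0 + 1) => (Polynomial.X : Polynomial k) ^ g i) f = 0 → f = 0 := by
    intro f hf
    ext u
    rw [coeff_zero]
    have h1 := congrArg (fun p => Polynomial.coeff p (g 0 * u 0)) hf
    simp only [Polynomial.coeff_zero] at h1
    rw [MvPolynomial.aeval_def, MvPolynomial.eval₂_eq', Polynomial.finsetSum_coeff] at h1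
    have h2 : ∀ v ∈ f.support, (algebraMap k (Polynomial k) (coeff v f) *
        ∏ i, ((Polynomial.X : Polynomial k) ^ g i) ^ v i).coeff (g 0 * u 0)
        = if v = u then coeff v f else 0 := by
      intro v _
      have h3 : ∏ i : Fin (0 + 1), ((Polynomial.X : Polynomial k) ^ g i) ^ v i
          = Polynomial.X ^ (g 0 * v 0) := by
        rw [Fin.prod_univ_one, ← pow_mul]
      rw [h3, Polynomial.algebraMap_eq, Polynomial.coeff_C_mul_X_pow]
      by_cases h : v = u
      · rw [if_pos h, if_pos (by rw [h])]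
      · rw [if_neg h, if_neg]
        intro h4
        apply h
        have h5 := Nat.eq_of_mul_eq_mul_left hg0 h4
        ext i
        have hi : i = 0 := Fin.fin_one_eq_zero i
        rw [hi, h5]
    rw [Finset.sum_congr rfl h2, Finset.sum_ite_eq'] at h1
    by_cases h : u ∈ f.support
    · rwa [if_pos h] at h1
    · exact MvPolynomial.notMem_support_iff.1 h
  rw [eq_bot_iff, Ideal.span_le]
  rintro h ⟨f, hf, n, rfl, _⟩
  rw [RingHom.mem_ker] at hf
  rw [hker f hf, map_zero]
  exact Submodule.zero_mem _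

theorem own (k : Type) [Field k] (Γ : AddSubmonoid ℕ) (hfin : (Γ : Set ℕ)ᶜ.Finite) (e : ℕ)
    (g : Fin (e + 1) → ℕ) (hmono : StrictMono g)
    (hgen : AddSubmonoid.closure (Set.range g) = Γ)
    (hmin : ∀ i, g i ∉ AddSubmonoid.closure (g '' {j | j ≠ i})) (hg : ∀ i, g i ∈ Γ)
    (d : ℕ) (hd : ∀ i, d ∣ g i - g 0) :
    ∃ s : Finset (MvPolynomial (Fin (e + 1)) k),
      s.card ≤ ((g (Fin.last e) - g 0) / d + 1).choose 2 ∧
      (∀ f ∈ s, ∃ u v : Fin (e + 1) →₀ ℕ, Finsupp.degree u = Finsupp.degree v ∧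
        (f = monomial u 1 ∨ f = monomial u 1 - monomial v 1)) ∧
      Ideal.span (s : Set (MvPolynomial (Fin (e + 1)) k)) = coneIdeal k Γ g hg := by
  classical
  have h0 : ∀ i, g i ≠ 0 := by
    intro i h
    apply hmin i
    rw [h]
    exact AddSubmonoid.zero_mem _
  have hgcd : Finset.univ.gcd g = 1 := by
    set c := Finset.univ.gcd g with hc
    have hdvd : ∀ x ∈ Γ, c ∣ x := by
      intro x hx
      rw [← hgen] at hx
      induction hx using AddSubmonoid.closure_induction with
      | mem x hx =>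
        obtain ⟨i, rfl⟩ := hx
        exact Finset.gcd_dvd (Finset.mem_univ i)
      | zero => exact dvd_zero _
      | add x y _ _ h1 h2 => exact dvd_add h1 h2
    obtain ⟨N, hN⟩ := hfin.bddAbove
    have hmem : ∀ x, N < x → x ∈ Γ := by
      intro x hx
      by_contra hcon
      have := hN (show x ∈ (Γ : Set ℕ)ᶜ from hcon)
      omega
    have h1 := hdvd _ (hmem (N + 1) (by omega))
    have h2 := hdvd _ (hmem (N + 2) (by omega))
    have h3 : c ∣ 1 := by
      have := Nat.dvd_sub h2 h1
      rwa [show N + 2 - (N + 1) = 1 by omega] at this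
    exact Nat.dvd_one.1 h3
  rw [Gr.coneIdeal_eq g hgen.symm hg h0]
  rcases Nat.eq_zero_or_pos e with he | he
  · subst he
    refine ⟨∅, by simp, by simp, ?_⟩
    rw [Finset.coe_empty, Ideal.span_empty,
      Istar_eq_bot k g (Nat.one_le_iff_ne_zero.2 (h0 0))]
  · obtain ⟨D, hgD, hcop, hw⟩ := exists_dat he g hmono hgcd hmin
    obtain ⟨s, h1, h2, h3⟩ := D.exists_gens (k := k) (Dat.Istar k g)
      (fun u hu => D.K_mem_Istar g hgD hu)
      (fun u v h => D.same_mem_Istar g hgD h)
      (fun f hf => (D.mem_W).1 (D.Istar_le_W g hgD hcop hf))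
    refine ⟨s, ?_, h2, h3⟩
    have h4 := D.NC_ncard
    have hb0 : g 0 = D.m := by rw [hgD 0, D.hb0, mul_zero, add_zero]
    have hdiff : ∀ i, g i - g 0 = D.γ * D.b i := by
      intro i
      rw [hb0, hgD i]; omega
    have hdγ : d ∣ D.γ := by
      have h5 : d ∣ Finset.univ.gcd (fun i => D.γ * D.b i) :=
        Finset.dvd_gcd fun i _ => by rw [← hdiff i]; exact hd i
      rw [Finset.gcd_mul_left, D.hgcd] at h5
      simpa using h5
    have hw2 : D.w ≤ (g (Fin.last e) - g 0) / d := by
      have hdpos : 0 < d := Nat.pos_of_dvd_of_pos hdγ D.hγ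
      rw [Nat.le_div_iff_mul_le hdpos, hdiff, mul_comm]
      exact Nat.mul_le_mul_right _ (Nat.le_of_dvd D.hγ hdγ)
    have h6 : D.NC.ncard ≤ Nat.choose (D.w + 1) 2 := by
      rw [Nat.choose_two_right, Nat.le_div_iff_mul_le (by norm_num)]
      simp only [Nat.add_sub_cancel]
      omega
    exact h1.trans (h6.trans (Nat.choose_le_choose 2 (by omega)))

end Pool.Agent.H13.HS
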