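import Pool.Agent.H13.HS.Classes
import Pool.Agent.H13.HS.Corner

/-! # Inner variables and pure powers -/

set_option autoImplicit false
set_option linter.unusedSectionVars false
set_option linter.unusedVariables false

namespace Pool.Agent.H13.HS

open Finset Pointwise

variable {e : ℕ}

theorem eq_zero_of_dg {v : Mon e} (h : dg v = 0) : v = 0 := by
  ext i
  rw [dg, Finset.sum_eq_zero_iff] at h
  simpa using h i (Finset.mem_univ i)

theorem exists_single_le {v : Mon e} (h : dg v ≠ 0) : ∃ l, v l ≠ 0 := by
  by_contra hcon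
  push Not at hcon
  apply h
  rw [dg]
  exact Finset.sum_eq_zero fun i _ => hcon i

theorem eq_single_of_dg {v : Mon e} (h : dg v = 1) : ∃ l, v = Finsupp.single l 1 := by
  obtain ⟨l, hl⟩ := exists_single_le (v := v) (by omega)
  refine ⟨l, ?_⟩
  have h1 := sub_single_add v (Finsupp.mem_support_iff.2 hl)
  have h2 : dg (v - Finsupp.single l 1) = 0 := by
    have := congrArg dg h1
    rw [dg_add, dg_single] at this
    omega
  rw [eq_zero_of_dg h2, zero_add] at h1
  exact h1.symm

/-- inner indices -/
def V (e : ℕ) : Finset (Fin (e + 1)) := (univ.erase 0).erase (Fin.last e)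

theorem mem_V {i : Fin (e + 1)} : i ∈ V e ↔ i ≠ Fin.last e ∧ i ≠ 0 := by
  simp [V]

namespace Dat

variable (D : Dat e)

include D in
theorem card_V : (V e).card + 1 = e := by
  have h := D.zero_ne_last
  have he := D.he
  rw [V, Finset.card_erase_of_mem (Finset.mem_erase.2 ⟨h.symm, Finset.mem_univ _⟩),
    Finset.card_erase_of_mem (Finset.mem_univ _), Finset.card_univ, Fintype.card_fin]
  omega

/-- inner standard monomials -/
def OG : Set (Mon e) := {u | D.Std u ∧ u 0 = 0 ∧ u (Fin.last e) = 0}

theorem single_mem_OG {i : Fin (e + 1)} (hi : i ∈ V e) : Finsupp.single i 1 ∈ D.OG := by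
  rw [mem_V] at hi
  refine ⟨⟨?_, ?_⟩, ?_, ?_⟩
  · rintro ⟨u', k, hk, h1, h2⟩
    rw [dg_single] at h1
    rw [rho_single, one_mul] at h2
    exact D.hmin i u' k hk h1 h2
  · intro v hv
    have h1 : dg v = 1 := by rw [hv.1, dg_single]
    obtain ⟨l, rfl⟩ := eq_single_of_dg h1
    have h2 := hv.2
    rw [rho_single, rho_single, one_mul, one_mul] at h2
    rw [D.hb.injective h2]
  · simp [hi.2]
  · simp [hi.1]

theorem zero_mem_OG : (0 : Mon e) ∈ D.OG := by
  refine ⟨⟨?_, ?_⟩, ?_, ?_⟩
  · rintro ⟨u', k, hk, h1, h2⟩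
    rw [rho_zero] at h2
    have := D.hm
    have h3 : k * D.m ≠ 0 := Nat.mul_ne_zero (by omega) (by omega)
    omega
  · intro v hv
    have h1 : dg v = 0 := by rw [hv.1, dg_zero]
    rw [eq_zero_of_dg h1]
  · simp
  · simp

/-- pure powers -/
theorem pure_count {i : Fin (e + 1)} (hi : i ∈ V e) (F : Finset (Mon e))
    (hF : ∀ u ∈ F, u ∈ D.OG ∧ u.support = {i}) : F.card + e ≤ D.w + 1 := by
  classical
  rw [mem_V] at hi
  have hbi : D.b i < D.w := D.b_lt_w hi.1
  have hbi0 : 0 < D.b i := D.b_pos hi.2
  have hform : ∀ u ∈ F, u = Finsupp.single i (u i) ∧ 1 ≤ u i := by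
    intro u hu
    have h1 := (hF u hu).2
    constructor
    · exact Finsupp.eq_single_iff.2 ⟨h1.subset, rfl⟩
    · have : i ∈ u.support := by rw [h1]; exact Finset.mem_singleton_self i
      have := Finsupp.mem_support_iff.1 this
      omega
  have hrho : ∀ u ∈ F, D.rho u = u i * D.b i := by
    intro u hu
    conv_lhs => rw [(hform u hu).1]
    rw [rho_single]
  have hdg : ∀ u ∈ F, dg u = u i := by
    intro u hu
    conv_lhs => rw [(hform u hu).1]
    rw [dg_single]
  -- injectivity of the class map
  have hlt : ∀ u ∈ F, ∀ v ∈ F, D.cl u = D.cl v → ¬ u i < v i := by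
    intro u hu v hv hc hlt
    have h1 : u i * D.b i ≤ v i * D.b i := Nat.mul_le_mul_right _ hlt.le
    rw [cl, cl, hrho u hu, hrho v hv, ZMod.natCast_eq_natCast_iff, Nat.modEq_iff_dvd' h1] at hc
    obtain ⟨k, hk⟩ := hc
    have hk' : v i * D.b i = u i * D.b i + k * D.w := by
      rw [mul_comm k]; omega
    have hkd : k < v i - u i := by
      by_contra hcon
      push Not at hcon
      have h2 : (v i - u i) * D.w ≤ k * D.w := Nat.mul_le_mul_right _ hcon
      have h3 : (v i - u i) * D.b i < (v i - u i) * D.w :=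
        Nat.mul_lt_mul_of_pos_left hbi (by omega)
      rw [Nat.sub_mul] at h3
      omega
    obtain ⟨s, hs⟩ : ∃ s, v i = u i + k + s ∧ 0 < s := ⟨v i - u i - k, by omega, by omega⟩
    have hsame : D.Same (u + (Finsupp.single 0 s + Finsupp.single (Fin.last e) k)) v := by
      constructor
      · rw [dg_add, dg_add, dg_single, dg_single, hdg u hu, hdg v hv]; omega
      · rw [rho_add, rho_add, rho_single, rho_single, D.hb0, hrho u hu, hrho v hv, hk']
        show _ + (s * 0 + k * D.w) = _
        ring
    apply (hF v hv).1.1.no_outer (hF v hv).1.2.1 (hF v hv).1.2.2 hsame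
    rw [D.up_zero, D.up_last]
    omega
  have hinj : Set.InjOn D.cl (F : Set (Mon e)) := by
    intro u hu v hv hc
    have h1 := hlt u hu v hv hc
    have h2 := hlt v hv u hu hc.symm
    rw [(hform u hu).1, (hform v hv).1, show u i = v i by omega]
  -- the classes of higher powers are not in `B`
  have hnot : ∀ u ∈ F, u i ≠ 1 → D.cl u ∉ D.B := by
    intro u hu hu1 hB
    have hu2 : 2 ≤ u i := by have := (hform u hu).2; omega
    rw [B, Finset.mem_image] at hB
    obtain ⟨l, _, hl⟩ := hB
    -- replace `l`
    obtain ⟨l', hl'⟩ : ∃ l', D.b l' = D.rho u % D.w := by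
      have h1 : D.b l % D.w = D.rho u % D.w := by
        have := congrArg ZMod.val hl
        rw [ZMod.val_natCast, D.val_cl] at this
        exact this
      by_cases hll : l = Fin.last e
      · refine ⟨0, ?_⟩
        rw [← h1, hll, D.hb0]
        show 0 = D.w % D.w
        simp
      · exact ⟨l, by rw [← h1, Nat.mod_eq_of_lt (D.b_lt_w hll)]⟩
    set k := D.rho u / D.w with hk
    have hdm : D.rho u = D.b l' + k * D.w := by
      rw [hl', hk, mul_comm]; exact (Nat.mod_add_div _ _).symm
    clear_value k
    have hklt : k < u i := by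
      by_contra hcon
      push Not at hcon
      have h2 : u i * D.w ≤ k * D.w := Nat.mul_le_mul_right _ hcon
      have h3 : u i * D.b i < u i * D.w := Nat.mul_lt_mul_of_pos_left hbi (by omega)
      rw [hrho u hu] at hdm
      omega
    obtain ⟨s, hs⟩ : ∃ s, u i = 1 + k + s := ⟨u i - 1 - k, by omega⟩
    have hsame : D.Same (Finsupp.single l' 1 +
        (Finsupp.single 0 s + Finsupp.single (Fin.last e) k)) u := by
      constructor
      · rw [dg_add, dg_add, dg_single, dg_single, dg_single, hdg u hu]; omega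
      · rw [rho_add, rho_add, rho_single, rho_single, rho_single, D.hb0, hdm]
        show 1 * D.b l' + (s * 0 + k * D.w) = _
        ring
    apply (hF u hu).1.1.no_outer (hF u hu).1.2.1 (hF u hu).1.2.2 hsame
    rw [D.up_zero, D.up_last]
    omega
  have himg : F.image D.cl ⊆ insert (D.b i : ZMod D.w) (univ \ D.B) := by
    intro c hc
    rw [Finset.mem_image] at hc
    obtain ⟨u, hu, rfl⟩ := hc
    rw [Finset.mem_insert, Finset.mem_sdiff]
    by_cases h : u i = 1
    · left
      rw [cl, hrho u hu, h, one_mul]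
    · right
      exact ⟨Finset.mem_univ _, hnot u hu h⟩
  have h1 := Finset.card_le_card himg
  rw [Finset.card_image_of_injOn hinj] at h1
  have h2 := Finset.card_insert_le (D.b i : ZMod D.w) (univ \ D.B)
  rw [Finset.card_sdiff_of_subset (Finset.subset_univ _), D.card_B, Finset.card_univ,
    ZMod.card] at h2
  have h3 : e ≤ D.w := by
    have := Finset.card_le_univ D.B
    rwa [D.card_B, ZMod.card] at this
  omega

end Dat

end Pool.Agent.H13.HS
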