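import Pool.Agent.H13.HS.Alg

/-! # The tangent cone ideal of the toric ideal -/

set_option autoImplicit false
set_option linter.unusedSectionVars false
set_option linter.unusedVariables false

namespace Pool.Agent.H13.HS

open Finset MvPolynomial

variable {e : ℕ}

theorem dg_eq_degree (u : Mon e) : Finsupp.degree u = dg u := by
  rw [Finsupp.degree_eq_sum]; rfl

namespace Dat

variable (D : Dat e) {k : Type} [Field k]

theorem csum_add (u0 : Mon e) (f g : MvPolynomial (Fin (e + 1)) k) :
    D.csum u0 (f + g) = D.csum u0 f + D.csum u0 g := by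
  simp [csum, Finset.sum_add_distrib]

theorem csum_zero (u0 : Mon e) : D.csum u0 (0 : MvPolynomial (Fin (e + 1)) k) = 0 := by
  simp [csum]

theorem csum_monomial_mul {f : MvPolynomial (Fin (e + 1)) k}
    (hf : ∀ u0, ¬ D.K u0 → D.csum u0 f = 0) (s : Mon e) (c : k) (u0 : Mon e) (hu0 : ¬ D.K u0) :
    D.csum u0 (monomial s c * f) = 0 := by
  classical
  rw [csum]
  simp only [coeff_monomial_mul']
  rw [← Finset.sum_filter]
  rcases ((D.finite_same u0).toFinset.filter (fun v => s ≤ v)).eq_empty_or_nonempty with
    h | ⟨v1, hv1⟩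
  · rw [h, Finset.sum_empty]
  · rw [Finset.mem_filter, Set.Finite.mem_toFinset] at hv1
    obtain ⟨hv1, hs1⟩ := hv1
    obtain ⟨x1, rfl⟩ := exists_add_of_le hs1
    have hv1' : D.Same (s + x1) u0 := hv1
    have hK1 : ¬ D.K x1 := by
      intro h
      apply hu0
      have := (h.add s)
      rw [add_comm] at this
      exact this.congr hv1'
    rw [← Finset.mul_sum]
    have h2 : ∑ v ∈ (D.finite_same u0).toFinset.filter (fun v => s ≤ v), coeff (v - s) f
        = D.csum x1 f := by
      rw [csum]
      apply Finset.sum_bij (fun v _ => v - s)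
      · intro v hv
        rw [Finset.mem_filter, Set.Finite.mem_toFinset] at hv
        obtain ⟨hv, hs⟩ := hv
        obtain ⟨x, rfl⟩ := exists_add_of_le hs
        have hv' : D.Same (s + x) u0 := hv
        rw [Set.Finite.mem_toFinset, add_tsub_cancel_left]
        have h3 := hv'.trans hv1'.symm
        constructor
        · have := h3.1; rw [dg_add, dg_add] at this; omega
        · have := h3.2; rw [rho_add, rho_add] at this; omega
      · intro v hv v' hv' h
        rw [Finset.mem_filter] at hv hv'
        rw [← tsub_add_cancel_of_le hv.2, ← tsub_add_cancel_of_le hv'.2]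
        rw [h]
      · intro x hx
        rw [Set.Finite.mem_toFinset] at hx
        refine ⟨s + x, ?_, ?_⟩
        · rw [Finset.mem_filter, Set.Finite.mem_toFinset]
          refine ⟨?_, le_self_add⟩
          exact ((Same.refl D s).add hx).trans hv1'
        · exact add_tsub_cancel_left _ _
      · intro v _; rfl
    rw [h2, hf _ hK1, mul_zero]

/-- the ideal of polynomials with vanishing class sums -/
def W (k : Type) [Field k] : Ideal (MvPolynomial (Fin (e + 1)) k) where
  carrier := {f | ∀ u0, ¬ D.K u0 → D.csum u0 f = 0}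
  zero_mem' := fun u0 _ => D.csum_zero u0
  add_mem' := by
    intro f g hf hg u0 hu0
    rw [csum_add, hf u0 hu0, hg u0 hu0, add_zero]
  smul_mem' := by
    intro p f hf
    rw [smul_eq_mul]
    induction p using MvPolynomial.induction_on' with
    | monomial s c =>
      intro u0 hu0
      exact D.csum_monomial_mul hf s c u0 hu0
    | add p q hp hq =>
      intro u0 hu0
      rw [add_mul, csum_add, hp u0 hu0, hq u0 hu0, add_zero]

theorem mem_W {f : MvPolynomial (Fin (e + 1)) k} :
    f ∈ D.W k ↔ ∀ u0, ¬ D.K u0 → D.csum u0 f = 0 := Iff.rfl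

/-- the weight -/
def phi (u : Mon e) : ℕ := D.m * dg u + D.γ * D.rho u

theorem phi_congr {u v : Mon e} (h : D.Same u v) : D.phi u = D.phi v := by
  rw [phi, phi, h.1, h.2]

section Toric

variable (g : Fin (e + 1) → ℕ) (hg : ∀ i, g i = D.m + D.γ * D.b i)

include hg in
theorem sum_g (u : Mon e) : ∑ i, g i * u i = D.phi u := by
  rw [phi, dg, rho, Finset.mul_sum, Finset.mul_sum, ← Finset.sum_add_distrib]
  apply Finset.sum_congr rfl
  intro i _
  rw [hg]; ring

include hg in
theorem coeff_aeval (f : MvPolynomial (Fin (e + 1)) k) (s : ℕ) :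
    (MvPolynomial.aeval (fun i : Fin (e + 1) => (Polynomial.X : Polynomial k) ^ g i) f).coeff s
      = ∑ v ∈ f.support.filter (fun v => D.phi v = s), coeff v f := by
  classical
  rw [MvPolynomial.aeval_def, MvPolynomial.eval₂_eq', Polynomial.finsetSum_coeff,
    Finset.sum_filter]
  apply Finset.sum_congr rfl
  intro v _
  have h1 : ∏ i, ((Polynomial.X : Polynomial k) ^ g i) ^ v i = Polynomial.X ^ D.phi v := by
    rw [← D.sum_g g hg, ← Finset.prod_pow_eq_pow_sum]
    apply Finset.prod_congr rfl
    intro i _
    rw [← pow_mul]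
  rw [h1, Polynomial.algebraMap_eq, Polynomial.coeff_C_mul_X_pow]
  by_cases h : D.phi v = s
  · rw [if_pos h, if_pos h.symm]
  · rw [if_neg h, if_neg (Ne.symm h)]

include hg in
theorem aeval_mo (u : Mon e) :
    MvPolynomial.aeval (fun i : Fin (e + 1) => (Polynomial.X : Polynomial k) ^ g i) (mo k u)
      = Polynomial.X ^ D.phi u := by
  rw [mo, MvPolynomial.aeval_monomial, map_one, one_mul,
    Finsupp.prod_fintype _ _ (fun i => pow_zero _), ← D.sum_g g hg, ← Finset.prod_pow_eq_pow_sum]
  apply Finset.prod_congr rfl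
  intro i _
  rw [← pow_mul]

variable (hcop : Nat.Coprime D.m D.γ)

include hcop in
theorem K_of_phi {u v : Mon e} (h : D.phi v = D.phi u) (hd : dg u < dg v) : D.K u := by
  obtain ⟨j, hj⟩ : ∃ j, dg v = dg u + j := ⟨dg v - dg u, by omega⟩
  rw [phi, phi, hj, Nat.mul_add] at h
  have hle : D.γ * D.rho v ≤ D.γ * D.rho u := by omega
  have hle' : D.rho v ≤ D.rho u := Nat.le_of_mul_le_mul_left hle D.hγ
  obtain ⟨r, hr⟩ : ∃ r, D.rho u = D.rho v + r := ⟨D.rho u - D.rho v, by omega⟩
  rw [hr, Nat.mul_add] at h
  have h2 : D.m * j = D.γ * r := by omega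
  have h3 : D.γ ∣ j := by
    apply Nat.Coprime.dvd_of_dvd_mul_left hcop.symm
    exact ⟨r, h2⟩
  obtain ⟨q, hq⟩ := h3
  have h4 : r = D.m * q := by
    apply Nat.eq_of_mul_eq_mul_left D.hγ
    rw [← h2, hq]; ring
  refine ⟨v, q, ?_, ?_, ?_⟩
  · rcases Nat.eq_zero_or_pos q with h5 | h5
    · subst h5; omega
    · exact h5
  · rw [hj, hq, mul_comm]
  · rw [hr, h4, mul_comm]

include hg hcop in
/-- initial forms have vanishing class sums -/
theorem initial_mem_W {f : MvPolynomial (Fin (e + 1)) k}
    (hf : MvPolynomial.aeval (fun i : Fin (e + 1) => (Polynomial.X : Polynomial k) ^ g i) f = 0)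
    (n : ℕ) (hn : ∀ m < n, MvPolynomial.homogeneousComponent m f = 0) :
    MvPolynomial.homogeneousComponent n f ∈ D.W k := by
  classical
  rw [mem_W]
  intro u0 hu0
  rw [csum]
  simp only [coeff_homogeneousComponent, dg_eq_degree]
  by_cases hd : dg u0 = n
  · have h1 : ∑ v ∈ (D.finite_same u0).toFinset, (if dg v = n then coeff v f else 0)
        = ∑ v ∈ f.support.filter (fun v => D.phi v = D.phi u0), coeff v f := by
      symm
      apply Finset.sum_subset_zero_on_sdiff
      · intro v hv
        rw [Finset.mem_filter] at hv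
        obtain ⟨hv1, hv2⟩ := hv
        rw [Set.Finite.mem_toFinset]
        rw [MvPolynomial.mem_support_iff] at hv1
        have hge : n ≤ dg v := by
          by_contra hcon
          push Not at hcon
          apply hv1
          have h2 := hn _ hcon
          have h3 : coeff v (homogeneousComponent (dg v) f) = 0 := by rw [h2, coeff_zero]
          rwa [coeff_homogeneousComponent, dg_eq_degree, if_pos rfl] at h3
        have hle : dg v ≤ n := by
          by_contra hcon
          push Not at hcon
          exact hu0 (D.K_of_phi hcop hv2 (by omega))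
        have hdv : dg v = dg u0 := by omega
        refine ⟨hdv, ?_⟩
        rw [phi, phi, hdv] at hv2
        exact Nat.eq_of_mul_eq_mul_left D.hγ (by omega)
      · intro v hv
        rw [Finset.mem_sdiff, Set.Finite.mem_toFinset, Finset.mem_filter] at hv
        obtain ⟨hv1, hv2⟩ := hv
        have hv1' : D.Same v u0 := hv1
        rw [if_pos (hv1'.1.trans hd)]
        by_contra hcon
        exact hv2 ⟨MvPolynomial.mem_support_iff.2 hcon, D.phi_congr hv1'⟩
      · intro v hv
        rw [Finset.mem_filter] at hv
        obtain ⟨hv1, hv2⟩ := hv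
        rw [MvPolynomial.mem_support_iff] at hv1
        have hge : n ≤ dg v := by
          by_contra hcon
          push Not at hcon
          apply hv1
          have h2 := hn _ hcon
          have h3 : coeff v (homogeneousComponent (dg v) f) = 0 := by rw [h2, coeff_zero]
          rwa [coeff_homogeneousComponent, dg_eq_degree, if_pos rfl] at h3
        have hle : dg v ≤ n := by
          by_contra hcon
          push Not at hcon
          exact hu0 (D.K_of_phi hcop hv2 (by omega))
        rw [if_pos (by omega)]
    rw [h1, ← D.coeff_aeval g hg, hf, Polynomial.coeff_zero]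
  · apply Finset.sum_eq_zero
    intro v hv
    rw [Set.Finite.mem_toFinset] at hv
    have hv' : D.Same v u0 := hv
    rw [if_neg (by rw [hv'.1]; exact hd)]

/-- the tangent cone ideal -/
noncomputable def Istar (k : Type) [Field k] (g : Fin (e + 1) → ℕ) : Ideal (MvPolynomial (Fin (e + 1)) k) :=
  Ideal.span {h : MvPolynomial (Fin (e + 1)) k |
          ∃ f ∈ RingHom.ker (MvPolynomial.aeval
              (fun i : Fin (e + 1) => (Polynomial.X : Polynomial k) ^ g i)),
            ∃ n : ℕ, MvPolynomial.homogeneousComponent n f = h ∧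
              ∀ m < n, MvPolynomial.homogeneousComponent m f = 0}

include hg hcop in
theorem Istar_le_W : Istar k g ≤ D.W k := by
  rw [Istar, Ideal.span_le]
  rintro h ⟨f, hf, n, rfl, hn⟩
  rw [RingHom.mem_ker] at hf
  exact D.initial_mem_W g hg hcop hf n hn

theorem hc_mo (u : Mon e) (n : ℕ) :
    homogeneousComponent n (mo k u) = if n = dg u then mo k u else 0 := by
  apply homogeneousComponent_of_mem
  rw [mem_homogeneousSubmodule]
  exact isHomogeneous_monomial _ (dg_eq_degree u)

include hg in
theorem K_mem_Istar {u : Mon e} (hu : D.K u) : mo k u ∈ Istar k g := by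
  obtain ⟨u', q, hq, h1, h2⟩ := hu
  apply Ideal.subset_span
  have hphi : D.phi u' = D.phi u := by
    rw [phi, phi, h1, ← h2]; ring
  have hlt : dg u < dg u' := by
    rw [h1]
    have : 0 < q * D.γ := Nat.mul_pos hq D.hγ
    omega
  refine ⟨mo k u - mo k u', ?_, dg u, ?_, ?_⟩
  · rw [RingHom.mem_ker, map_sub, D.aeval_mo g hg, D.aeval_mo g hg, hphi, sub_self]
  · rw [map_sub, hc_mo, hc_mo, if_pos rfl, if_neg (by omega), sub_zero]
  · intro n hn
    rw [map_sub, hc_mo, hc_mo, if_neg (by omega), if_neg (by omega), sub_zero]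

include hg in
theorem same_mem_Istar {u v : Mon e} (h : D.Same u v) : mo k u - mo k v ∈ Istar k g := by
  apply Ideal.subset_span
  refine ⟨mo k u - mo k v, ?_, dg u, ?_, ?_⟩
  · rw [RingHom.mem_ker, map_sub, D.aeval_mo g hg, D.aeval_mo g hg, D.phi_congr h, sub_self]
  · rw [map_sub, hc_mo, hc_mo, if_pos rfl, if_pos h.1]
  · intro n hn
    rw [map_sub, hc_mo, hc_mo, if_neg (by omega), if_neg (by rw [← h.1]; omega), sub_zero]

include hg hcop in
theorem main_bound : Module.finrank k (↥(Istar k g) ⧸ ((Ideal.span (Set.range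
                (MvPolynomial.X : Fin (e + 1) → MvPolynomial (Fin (e + 1)) k))) •
              (⊤ : Submodule (MvPolynomial (Fin (e + 1)) k) ↥(Istar k g)))) ≤ D.NC.ncard :=
  D.finrank_le (Istar k g) (fun u hu => D.K_mem_Istar g hg hu)
    (fun u v h => D.same_mem_Istar g hg h) (fun f hf => (D.mem_W).1 (D.Istar_le_W g hg hcop hf))

end Toric

end Dat

end Pool.Agent.H13.HS
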