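import Pool.Agent.H13.HS.XZero
import Pool.Agent.H13.HS.Pure
import Pool.Agent.H13.HS.Genus

/-! # The total count -/

set_option autoImplicit false
set_option linter.unusedSectionVars false
set_option linter.unusedVariables false

namespace Pool.Agent.H13.HS

open Finset Pointwise

variable {e : ℕ}

namespace Dat

variable (D : Dat e)

theorem OG_finite_of {J : ℕ} (hJ : (J + 1) • D.B = univ) : D.OG.Finite := by
  by_contra hinf
  obtain ⟨F, hF, hcard⟩ := Set.Infinite.exists_subset_card_eq hinf (D.w + ∑ c, D.dc J c + 1)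
  have := D.NG_bound F (fun u hu => hF hu) hJ (fun _ => 1) (fun _ => 0)
    (fun u hu => D.ac_pos hu) (fun _ _ => Nat.zero_le _) (fun _ _ => by omega)
  omega

/-- the sumsets exhaust the group; the isoperimetric number and its consequences -/
theorem exists_J : ∃ J, (J + 1) • D.B = univ := by
  by_cases hB : D.B = univ
  · exact ⟨0, by rw [zero_add, one_nsmul]; exact hB⟩
  · obtain ⟨κ, hmin, hκ, _⟩ := iso_structure D.B D.zero_mem_B hB D.closure_B
    exact exists_nsmul_univ D.zero_mem_B hκ hmin

theorem OG_finite : D.OG.Finite := by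
  obtain ⟨J, hJ⟩ := D.exists_J
  exact D.OG_finite_of hJ

theorem support_subset_V {u : Mon e} (h0 : u 0 = 0) (hl : u (Fin.last e) = 0) :
    u.support ⊆ V e := by
  intro i hi
  rw [Finsupp.mem_support_iff] at hi
  rw [mem_V]
  constructor
  · rintro rfl; exact hi hl
  · rintro rfl; exact hi h0

theorem pi_le (O : Finset (Mon e)) (hO : ∀ u, u ∈ O ↔ u ∈ D.OG) :
    (O.filter (fun u => u.support.card = 1)).card + 1 ≤ O.card ∧
    (O.filter (fun u => u.support.card = 1)).card + (e - 1) * e ≤ (e - 1) * (D.w + 1) ∧
    (e = 2 → O.card ≤ (O.filter (fun u => u.support.card = 1)).card + 1) := by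
  classical
  refine ⟨?_, ?_, ?_⟩
  · have h0 : (0 : Mon e) ∈ O := (hO 0).2 D.zero_mem_OG
    rw [← Finset.card_erase_add_one h0]
    apply Nat.add_le_add_right
    apply Finset.card_le_card
    intro u hu
    rw [Finset.mem_filter] at hu
    rw [Finset.mem_erase]
    refine ⟨?_, hu.1⟩
    rintro rfl
    simp at hu
  · have hV := D.card_V
    have hVe : (V e).card = e - 1 := by omega
    have hmaps : (O.filter (fun u => u.support.card = 1)).card
        ≤ ∑ i ∈ V e, (O.filter (fun u => u.support = {i})).card := by
      have hsub : O.filter (fun u => u.support.card = 1)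
          ⊆ (V e).biUnion (fun i => O.filter (fun u => u.support = {i})) := by
        intro u hu
        rw [Finset.mem_filter, Finset.card_eq_one] at hu
        obtain ⟨huO, i, hi⟩ := hu
        rw [Finset.mem_biUnion]
        refine ⟨i, ?_, Finset.mem_filter.2 ⟨huO, hi⟩⟩
        have h1 := support_subset_V ((hO u).1 huO).2.1 ((hO u).1 huO).2.2
        apply h1
        rw [hi]; exact Finset.mem_singleton_self i
      exact (Finset.card_le_card hsub).trans Finset.card_biUnion_le
    have hpure : ∀ i ∈ V e, (O.filter (fun u => u.support = {i})).card + e ≤ D.w + 1 := by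
      intro i hi
      apply D.pure_count hi
      intro u hu
      rw [Finset.mem_filter] at hu
      exact ⟨(hO u).1 hu.1, hu.2⟩
    have hsum := Finset.sum_le_sum hpure
    rw [Finset.sum_add_distrib, Finset.sum_const, Finset.sum_const, smul_eq_mul, smul_eq_mul,
      hVe] at hsum
    omega
  · intro he2
    have h0 : (0 : Mon e) ∈ O := (hO 0).2 D.zero_mem_OG
    rw [← Finset.card_erase_add_one h0]
    apply Nat.add_le_add_right
    apply Finset.card_le_card
    intro u hu
    rw [Finset.mem_erase] at hu
    rw [Finset.mem_filter]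
    refine ⟨hu.2, ?_⟩
    have h1 := support_subset_V ((hO u).1 hu.2).2.1 ((hO u).1 hu.2).2.2
    have h2 := Finset.card_le_card h1
    have h3 : 0 < u.support.card := by
      rw [Finset.card_pos, Finsupp.support_nonempty_iff]; exact hu.1
    have hV := D.card_V
    omega

theorem total_bound (C1 C3 : Finset (Mon e))
    (hC1 : ∀ M ∈ C1, M.support ⊆ V e ∧ M ∉ D.OG ∧
      ∀ i ∈ M.support, M - Finsupp.single i 1 ∈ D.OG)
    (hC3 : ∀ N ∈ C3, D.XZ N) :
    2 * (C1.card + D.OG.ncard + C3.card) ≤ (D.w + 1) * D.w := by
  classical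
  set O := D.OG_finite.toFinset with hOdef
  have hO : ∀ u, u ∈ O ↔ u ∈ D.OG := fun u => by rw [hOdef, Set.Finite.mem_toFinset]
  have hncard : D.OG.ncard = O.card := Set.ncard_eq_toFinset_card _ D.OG_finite
  rw [hncard]
  have hV := D.card_V
  have hcorner := corner_bound (V e) O C1
    (fun u hu => support_subset_V ((hO u).1 hu).2.1 ((hO u).1 hu).2.2)
    ((hO 0).2 D.zero_mem_OG)
    (fun i hi => (hO _).2 (D.single_mem_OG hi))
    (by
      intro u hu i hi
      rw [hO] at hu ⊢
      refine ⟨hu.1.of_le (tsub_le_self), ?_, ?_⟩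
      · have := hu.2.1; simp [this]
      · have := hu.2.2; simp [this])
    (by
      intro M hM
      obtain ⟨h1, h2, h3⟩ := hC1 M hM
      exact ⟨h1, fun h => h2 ((hO M).1 h), fun i hi => (hO _).2 (h3 i hi)⟩)
  obtain ⟨hpi1, hpi2, hpi3⟩ := D.pi_le O hO
  set π := (O.filter (fun u => u.support.card = 1)).card with hπ
  have hVe : (V e).card = e - 1 := by omega
  have he := D.he
  -- the general corner bound
  have hgen : 2 * C1.card + 2 * O.card ≤ (O.card + 1) * e := by
    obtain ⟨n, hn⟩ : ∃ n, e = n + 1 := ⟨e - 1, by omega⟩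
    have h1 : (V e).card = n := by omega
    rw [h1] at hcorner
    have h2 : ∀ N : ℕ, (N + 1) * e = N * n + N + n + 1 := by intro N; rw [hn]; ring
    rw [h2]
    omega
  have hmemO : ∀ u ∈ O, D.Std u ∧ u 0 = 0 ∧ u (Fin.last e) = 0 := fun u hu => (hO u).1 hu
  by_cases hB : D.B = univ
  · -- all residues occur
    have hJ : (0 + 1) • D.B = univ := by rw [zero_add, one_nsmul]; exact hB
    have hN := D.NG_bound O hmemO hJ (fun _ => 1) (fun _ => 0)
      (fun u hu => D.ac_pos hu) (fun _ _ => Nat.zero_le _) (fun _ _ => by omega)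
    have hX := D.X0_bound C3 hC3 hJ
    have hdc : ∑ c, D.dc 0 c = 0 := by simp [dc]
    have hew : e = D.w := by
      have := D.card_B
      rw [hB, Finset.card_univ, ZMod.card] at this
      exact this.symm
    have h1 : (O.card + 1) * e ≤ (D.w + 1) * D.w := by
      rw [← hew]
      exact Nat.mul_le_mul_right _ (by omega)
    omega
  · obtain ⟨κ, hmin, hκ1, hκe, halt⟩ := iso_structure D.B D.zero_mem_B hB D.closure_B
    obtain ⟨J, hJ⟩ := exists_nsmul_univ D.zero_mem_B hκ1 hmin
    rw [D.card_B] at hκe halt
    set Δ := ∑ c, D.dc J c with hΔ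
    have hΔeq : Δ = ∑ j ∈ range J, (Fintype.card (ZMod D.w) - ((j + 1) • D.B).card) := by
      rw [hΔ]; exact sum_deficiency D.B J
    have hX := D.X0_bound C3 hC3 hJ
    rw [← hΔ] at hX
    have hNg := D.NG_bound O hmemO hJ D.amin D.qmin
      (fun u _ => D.amin_le u) (fun u _ => D.qmin_le u)
      (fun c hc => by have := D.amin_pos hJ hc; omega)
    rw [← hΔ] at hNg
    set g := ∑ c ∈ univ.erase (0 : ZMod D.w), (D.amin c + D.qmin c - 1) with hg
    have hew : e ≤ D.w := by
      have := Finset.card_le_univ D.B
      rwa [D.card_B, ZMod.card] at this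
    obtain ⟨t, ht⟩ : ∃ t, D.w = e + t := ⟨D.w - e, by omega⟩
    have hΔle : ∀ q ρ, ρ < κ → t = q * κ + ρ → 2 * Δ ≤ (q + 1) * (q * κ + 2 * ρ) := by
      intro q ρ hρ hq
      rw [hΔeq]
      apply two_delta_le D.zero_mem_B hmin q ρ hρ
      rw [ZMod.card, D.card_B, ht, hq]
    have hdm : t = (t / κ) * κ + t % κ := by rw [mul_comm]; exact (Nat.div_add_mod t κ).symm
    have hmod : t % κ < κ := Nat.mod_lt _ hκ1
    rcases Nat.lt_or_ge e 4 with he4 | he4
    · rcases Nat.lt_or_ge e 3 with he3 | he3
      · -- e = 2
        have he2 : e = 2 := by omega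
        have hκ : κ = 1 := by omega
        have hN := hpi3 he2
        have hpi2' : ∀ x p : ℕ, p + (e - 1) * e ≤ (e - 1) * x → p + 2 ≤ x := by
          intro x p h; rw [he2] at h; omega
        have hpi2'' := hpi2' _ _ hpi2
        have h1 := hΔle t 0 (by omega) (by rw [hκ]; ring)
        rw [hκ] at h1
        have hVe' : (V e).card = 1 := by omega
        rw [hVe'] at hcorner
        have h2 : D.w = t + 2 := by omega
        have h3 : O.card ≤ t + 2 := by omega
        have h4 : C1.card ≤ 1 := by omega
        have h5 : (D.w + 1) * D.w = (t + 1) * (t * 1 + 2 * 0) + 4 * t + 6 := by rw [h2]; ring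
        omega
      · -- e = 3
        have he3' : e = 3 := by omega
        have hκ : κ = 2 := by
          rcases halt with h | ⟨F, ξ, _, _, _, _, h⟩ <;> omega
        have hpi2' : ∀ x p : ℕ, p + (e - 1) * e ≤ (e - 1) * x → p + 6 ≤ 2 * x := by
          intro x p h; rw [he3'] at h; omega
        have hpi2'' := hpi2' _ _ hpi2
        have h1 := hΔle (t / κ) (t % κ) hmod hdm
        rw [hκ] at h1 hdm hmod
        have h6 := num_case3 t (t / 2) (t % 2) Δ hdm hmod h1
        have hVe' : (V e).card = 2 := by omega
        rw [hVe'] at hcorner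
        have h2 : D.w = t + 3 := by omega
        have h5 : (D.w + 1) * D.w = t * (t + 3) + 4 * t + 12 := by rw [h2]; ring
        omega
    · -- e ≥ 4
      have hfinal : (e + 2) * Δ ≤ t * (D.w + 1) + e * g →
          2 * (C1.card + O.card + C3.card) ≤ (D.w + 1) * D.w := by
        intro hkey
        have h1 : (O.card + g + 1) * e ≤ (D.w + Δ + 1) * e := Nat.mul_le_mul_right _ (by omega)
        have h2 : (D.w + 1) * D.w = (D.w + 1) * e + t * (D.w + 1) := by
          conv_lhs => rw [ht]
          rw [ht]; ring
        have h3 : (O.card + g + 1) * e = (O.card + 1) * e + e * g := by ring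
        have h4 : (D.w + Δ + 1) * e = (D.w + 1) * e + Δ * e := by ring
        have h5 : (e + 2) * Δ = Δ * e + 2 * Δ := by ring
        omega
      apply hfinal
      rcases halt with h | ⟨F, ξ, hFκ, hξB, hξF, hcos, h2κ⟩
      · have h1 := hΔle (t / κ) (t % κ) hmod hdm
        have h2 := num_caseI e t κ (t / κ) (t % κ) Δ he4 h hκe hdm hmod h1
        rw [show t + e + 1 = D.w + 1 by omega] at h2
        exact le_trans h2 (Nat.le_add_right _ _)
      · have hgb := D.genus_bound F ξ hξB hξF hcos hJ
        rw [← hg] at hgb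
        have hcm := D.card_mul F
        rw [hFκ] at hgb hcm
        set d := Nat.card (ZMod D.w ⧸ F) with hd
        have hd2 : 2 ≤ d := by
          by_contra hcon
          have hd1 : d ∣ 1 := by
            have h0 : 0 < d := by
              rcases Nat.eq_zero_or_pos d with h0 | h0
              · rw [h0] at hcm
                have := D.w_pos
                omega
              · exact h0
            have : d = 1 := by omega
            rw [this]
          rw [hd, ← D.nsmul_mem_iff F ξ hξB hcos, one_nsmul] at hd1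
          exact hξF hd1
        obtain ⟨q, hq⟩ : ∃ q, d = q + 2 := ⟨d - 2, by omega⟩
        obtain ⟨ρ, hρ⟩ : ∃ ρ, e + ρ = 2 * κ := ⟨2 * κ - e, by omega⟩
        have hρκ : ρ < κ := by omega
        have hw : D.w = κ * (q + 2) := by rw [← hcm, hq]; ring
        have htq : t = q * κ + ρ := by
          have h1 : κ * (q + 2) = q * κ + 2 * κ := by ring
          omega
        have h1 := hΔle q ρ hρκ htq
        have hfs := floor_sum κ hκ1 (d - 1)
        have hd1 : d - 1 = q + 1 := by omega
        rw [hd1] at hfs hgb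
        apply num_caseII e D.w t κ q ρ Δ g (by omega) hρκ hρ hw htq h1
        omega

end Dat

end Pool.Agent.H13.HS
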