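import Pool.Agent.H13.HS.WDefs
import Pool.Agent.H13.HS.Own

/-! # The two descriptions of the kernel agree -/

set_option autoImplicit false
set_option linter.unusedVariables false

namespace Pool.Agent.H13.HS.Gr

open MvPolynomial Pool.MP_c8f462_al.Width

section
variable {k : Type} [Field k] {Γ : AddSubmonoid ℕ}

theorem inMax_iff (f : PowerSeries k) : InMax Γ f ↔ ∃ x ∈ maxIdeal k Γ, (x : PowerSeries k) = f := by
  constructor
  · intro h
    refine ⟨⟨f, fun n hn => (h n hn).1⟩, ?_, rfl⟩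
    change PowerSeries.constantCoeff f = 0
    by_contra hcon
    rw [← PowerSeries.coeff_zero_eq_constantCoeff_apply] at hcon
    exact (h 0 hcon).2 rfl
  · rintro ⟨x, hx, rfl⟩ n hn
    refine ⟨x.2 n hn, ?_⟩
    rintro rfl
    apply hn
    rw [PowerSeries.coeff_zero_eq_constantCoeff_apply]
    exact hx

theorem InPow.add {n : ℕ} {f h : PowerSeries k} (hf : InPow Γ n f) (hh : InPow Γ n h) :
    InPow Γ n (f + h) := by
  obtain ⟨r, a, ha, rfl⟩ := hf
  obtain ⟨s, b, hb, rfl⟩ := hh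
  refine ⟨r + s, Fin.append a b, ?_, ?_⟩
  · intro i
    refine Fin.addCases (fun i => ?_) (fun i => ?_) i
    · rw [Fin.append_left]; exact ha i
    · rw [Fin.append_right]; exact hb i
  · rw [Fin.sum_univ_add]
    simp only [Fin.append_left, Fin.append_right]

theorem InPow.mul {n : ℕ} {f h : PowerSeries k} (hf : InPow Γ n f) (hh : InMax Γ h) :
    InPow Γ (n + 1) (f * h) := by
  obtain ⟨r, a, ha, rfl⟩ := hf
  refine ⟨r, fun i => Fin.snoc (a i) h, ?_, ?_⟩
  · intro i j
    refine Fin.lastCases ?_ (fun j => ?_) j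
    · simp only [Fin.snoc_last]; exact hh
    · simp only [Fin.snoc_castSucc]; exact ha i j
  · rw [Finset.sum_mul]
    refine Finset.sum_congr rfl fun i _ => ?_
    rw [Fin.prod_univ_castSucc]
    simp only [Fin.snoc_castSucc, Fin.snoc_last]

theorem inPow_of_mem (n : ℕ) (x : semigroupRing k Γ) (hx : x ∈ maxIdeal k Γ ^ (n + 1)) :
    InPow Γ (n + 1) (x : PowerSeries k) := by
  induction n generalizing x with
  | zero =>
    rw [zero_add, pow_one] at hx
    refine ⟨1, fun _ _ => (x : PowerSeries k), fun _ _ => (inMax_iff _).2 ⟨x, hx, rfl⟩, ?_⟩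
    simp
  | succ n ih =>
    rw [pow_succ] at hx
    refine Submodule.mul_induction_on (C := fun x => InPow Γ (n + 1 + 1)
      ((x : semigroupRing k Γ) : PowerSeries k)) hx ?_ ?_
    · intro a ha b hb
      rw [Subalgebra.coe_mul]
      exact InPow.mul (ih a ha) ((inMax_iff _).2 ⟨b, hb, rfl⟩)
    · intro a b ha hb
      rw [Subalgebra.coe_add]
      exact InPow.add ha hb

theorem inPow_iff (n : ℕ) (f : PowerSeries k) :
    InPow Γ (n + 1) f ↔ ∃ x ∈ maxIdeal k Γ ^ (n + 1), (x : PowerSeries k) = f := by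
  constructor
  · rintro ⟨r, a, ha, rfl⟩
    choose y hy1 hy2 using fun i j => (inMax_iff _).1 (ha i j)
    refine ⟨∑ i, ∏ j, y i j, ?_, ?_⟩
    · refine Ideal.sum_mem _ fun i _ => ?_
      have h : ∀ m : ℕ, ∀ b : Fin m → semigroupRing k Γ, (∀ j, b j ∈ maxIdeal k Γ) →
          ∏ j, b j ∈ maxIdeal k Γ ^ m := by
        intro m
        induction m with
        | zero => intro b _; simp
        | succ m ih =>
          intro b hb
          rw [Fin.prod_univ_castSucc, pow_succ]
          exact Ideal.mul_mem_mul (ih _ fun j => hb _) (hb _)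
      exact h _ _ fun j => hy1 i j
    · have h1 : ((∑ i, ∏ j, y i j : semigroupRing k Γ) : PowerSeries k) =
          (semigroupRing k Γ).val (∑ i, ∏ j, y i j) := rfl
      rw [h1, map_sum]
      refine Finset.sum_congr rfl fun i _ => ?_
      rw [map_prod]
      exact Finset.prod_congr rfl fun j _ => hy2 i j
  · rintro ⟨x, hx, rfl⟩
    exact inPow_of_mem n x hx

theorem coneKernel_eq {e : ℕ} (g : Fin (e + 1) → ℕ) (hg : ∀ i, g i ∈ Γ) :
    coneKernel k Γ g = coneIdeal k Γ g hg := by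
  have h : ∀ F : MvPolynomial (Fin (e + 1)) k,
      ((aeval (fun i => tau k Γ (g i) (hg i)) F : semigroupRing k Γ) : PowerSeries k) =
        aeval (fun i => (PowerSeries.X : PowerSeries k) ^ g i) F := by
    intro F
    have h1 : ((semigroupRing k Γ).val.comp (aeval (fun i => tau k Γ (g i) (hg i)))) =
        aeval (fun i => (PowerSeries.X : PowerSeries k) ^ g i) := by
      apply MvPolynomial.algHom_ext
      intro i
      simp [tau]
    exact congrArg (fun φ => φ F) h1
  rw [coneKernel, coneIdeal]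
  congr 1
  ext F
  constructor
  · rintro ⟨n, hn, hF⟩
    refine ⟨n, hn, ?_⟩
    obtain ⟨x, hx, hxF⟩ := (inPow_iff n _).1 hF
    rw [← h F] at hxF
    rwa [← Subtype.ext hxF]
  · rintro ⟨n, hn, hF⟩
    exact ⟨n, hn, (inPow_iff n _).2 ⟨_, hF, h F⟩⟩

end

/-- the width bound -/
theorem width (k : Type) [Field k] (Γ : AddSubmonoid ℕ) (hfin : {n | n ∉ Γ}.Finite) (e : ℕ)
    (g : Fin (e + 1) → ℕ) (hmono : StrictMono g)
    (hgen : AddSubmonoid.closure (Set.range g) = Γ)
    (hmin : ∀ i, g i ∉ AddSubmonoid.closure (g '' {j | j ≠ i}))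
    (d : ℕ) (hd : ∀ i, d ∣ g i - g 0) :
    ∃ s : Finset (MvPolynomial (Fin (e + 1)) k),
      s.card ≤ ((g (Fin.last e) - g 0) / d + 1).choose 2 ∧
      (∀ f ∈ s, ∃ u v : Fin (e + 1) →₀ ℕ, ∑ i, u i = ∑ i, v i ∧
        (f = monomial u 1 ∨ f = monomial u 1 - monomial v 1)) ∧
      Ideal.span s = coneKernel k Γ g := by
  have hg : ∀ i, g i ∈ Γ := fun i => hgen ▸ AddSubmonoid.subset_closure ⟨i, rfl⟩
  rw [coneKernel_eq g hg]
  obtain ⟨s, h1, h2, h3⟩ := own k Γ hfin e g hmono hgen hmin hg d hd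
  refine ⟨s, h1, fun f hf => ?_, h3⟩
  obtain ⟨u, v, huv, h⟩ := h2 f hf
  rw [Finsupp.degree_eq_sum, Finsupp.degree_eq_sum] at huv
  exact ⟨u, v, huv, h⟩

end Pool.Agent.H13.HS.Gr
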