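import Mathlib

/-!
# The tangent cone of a numerical semigroup ring

Definitions for the width bound of Herzog and Stamate (MP_c8f462_al). `R_Γ` is the ring of the
power series with exponents in `Γ`, and `𝔪` is its maximal ideal.
-/

set_option autoImplicit false

namespace Pool.MP_c8f462_al.Width

open MvPolynomial

variable {k : Type} [Field k]

/-- `f ∈ 𝔪`: all exponents of the power series `f` are nonzero elements of `Γ` -/
def InMax (Γ : AddSubmonoid ℕ) (f : PowerSeries k) : Prop :=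
  ∀ n, PowerSeries.coeff n f ≠ 0 → n ∈ Γ ∧ n ≠ 0

/-- `f ∈ 𝔪ⁿ` (`n ≥ 1`): `f` is a finite sum of products of `n` elements of `𝔪` -/
def InPow (Γ : AddSubmonoid ℕ) (n : ℕ) (f : PowerSeries k) : Prop :=
  ∃ (r : ℕ) (a : Fin r → Fin n → PowerSeries k), (∀ i j, InMax Γ (a i j)) ∧ f = ∑ i, ∏ j, a i j

variable (k)

/-- the kernel of `S = k[x₀, …, x_e] → G_Γ = ⨁ 𝔪ⁿ/𝔪ⁿ⁺¹`, `x_i ↦` class of `τ^(g_i)`: it is spanned by
the forms `F` whose value `F(τ^(g_0), …, τ^(g_e))` is in `𝔪ⁿ⁺¹`, where `n` is the degree of `F` -/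
noncomputable def coneKernel (Γ : AddSubmonoid ℕ) {e : ℕ} (g : Fin (e + 1) → ℕ) :
    Ideal (MvPolynomial (Fin (e + 1)) k) :=
  Ideal.span {F | ∃ n, F.IsHomogeneous n ∧
    InPow Γ (n + 1) (aeval (fun i => (PowerSeries.X : PowerSeries k) ^ g i) F)}

end Pool.MP_c8f462_al.Width
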