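import Pool.Agent.H13.HS.Classes

/-! # Counting the nonredundant corners divisible by `x_0` -/

set_option autoImplicit false
set_option linter.unusedSectionVars false
set_option linter.unusedVariables false

namespace Pool.Agent.H13.HS

open Finset Pointwise

variable {e : ℕ}

namespace Dat

variable (D : Dat e)

/-- the condition on `N` for `x_0 N` to be a nonredundant corner -/
def XZ (N : Mon e) : Prop := D.Std N ∧ D.K (N + Finsupp.single 0 1) ∧
  ∀ N', D.Same (N' + Finsupp.single (Fin.last e) 1) N → ¬ D.K (N' + Finsupp.single 0 1)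

theorem count_X0_class (F : Finset (Mon e)) (hF : ∀ N ∈ F, D.XZ N) (c : ZMod D.w)
    (hc : ∀ u ∈ F, D.cl u = c) (y : Mon e) (hy : D.cl y + (D.m : ZMod D.w) = c) :
    F.card ≤ D.qc y + (D.ac y - 1) := by
  classical
  -- the shift
  set δ : ℕ := ((D.cl y).val + D.m) / D.w with hδ
  have hcval : (D.cl y).val + D.m = c.val + δ * D.w := by
    have h1 : c = (((D.cl y).val + D.m : ℕ) : ZMod D.w) := by
      rw [← hy]; push_cast; rw [ZMod.natCast_zmod_val]
    have h2 : c.val = ((D.cl y).val + D.m) % D.w := by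
      conv_lhs => rw [h1]
      rw [ZMod.val_natCast]
    rw [h2, hδ, mul_comm]
    exact (Nat.mod_add_div _ _).symm
  clear_value δ
  have hinj : Set.InjOn (fun u => (D.ac u + 1, D.qc u)) (F : Set (Mon e)) := by
    intro u hu v hv h
    simp only [Prod.mk.injEq, Nat.add_right_cancel_iff] at h
    exact (hF u hu).1.unique (hF v hv).1 (D.same_of ((hc u hu).trans (hc v hv).symm) h.1 h.2)
  have h1 : F.card = (F.image (fun u => (D.ac u + 1, D.qc u))).card :=
    (Finset.card_image_of_injOn hinj).symm
  have h2 := count_class (F.image (fun u => (D.ac u + 1, D.qc u))) (by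
    intro p hp p' hp' hle1 hle2
    rw [Finset.mem_image] at hp hp'
    obtain ⟨u, hu, rfl⟩ := hp
    obtain ⟨v, hv, rfl⟩ := hp'
    simp only [Nat.add_le_add_iff_right] at hle1 hle2
    have hcc : D.cl u = D.cl v := (hc u hu).trans (hc v hv).symm
    rcases hle1.lt_or_eq with hlt | heq
    · exfalso
      -- `v` is above `x_0 u`
      have hs := D.same_up (u := u) (v := v) (s := D.ac v - D.ac u) (t := D.qc v - D.qc u)
        hcc (by omega) (by omega)
      apply (hF v hv).1.1
      refine K.congr ?_ hs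
      obtain ⟨s', hs'⟩ : ∃ s', D.ac v - D.ac u = 1 + s' := ⟨D.ac v - D.ac u - 1, by omega⟩
      rw [hs', Finsupp.single_add]
      have := (hF u hu).2.1.add
        (Finsupp.single 0 s' + Finsupp.single (Fin.last e) (D.qc v - D.qc u))
      rw [show u + (Finsupp.single 0 1 + Finsupp.single 0 s' +
        Finsupp.single (Fin.last e) (D.qc v - D.qc u)) = u + Finsupp.single 0 1 +
        (Finsupp.single 0 s' + Finsupp.single (Fin.last e) (D.qc v - D.qc u)) by abel]
      exact this
    · rcases hle2.lt_or_eq with hlt2 | heq2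
      · exfalso
        obtain ⟨t', ht'⟩ : ∃ t', D.qc v = D.qc u + (t' + 1) :=
          ⟨D.qc v - D.qc u - 1, by omega⟩
        have hs := D.same_up (u := u) (v := v) (s := 0) (t := t' + 1)
          hcc (by omega) (by omega)
        refine (hF v hv).2.2 (u + Finsupp.single (Fin.last e) t') ?_ ?_
        · rw [Finsupp.single_zero, zero_add, Finsupp.single_add, ← add_assoc] at hs
          exact hs
        · have := (hF u hu).2.1.add (Finsupp.single (Fin.last e) t')
          rwa [add_right_comm] at this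
      · rw [heq, heq2]) (D.ac y - D.γ - δ) (δ + D.qc y) 1 δ (by
    intro p hp
    rw [Finset.mem_image] at hp
    obtain ⟨N, hN, rfl⟩ := hp
    have hcN := hc N hN
    have hrho := D.rho_eq N
    rw [hcN] at hrho
    have hyval := ZMod.val_lt (D.cl y)
    -- `rho N ≥ m`
    have hm : D.m ≤ D.rho N := by
      obtain ⟨u', k, hk, _, hk2⟩ := (hF N hN).2.1
      rw [rho_add, rho_single, D.hb0] at hk2
      have : D.m ≤ k * D.m := Nat.le_mul_of_pos_left _ hk
      omega
    have hδq : δ ≤ D.qc N := by
      by_contra hcon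
      push Not at hcon
      have h3 : (D.qc N + 1) * D.w ≤ δ * D.w := Nat.mul_le_mul_right _ hcon
      rw [add_mul, one_mul] at h3
      omega
    refine ⟨by omega, hδq, ?_⟩
    by_contra hcon
    push Not at hcon
    obtain ⟨hcon1, hcon2⟩ := hcon
    simp only at hcon1 hcon2
    -- then `N` is in `K`
    apply (hF N hN).1.1
    obtain ⟨s, hs⟩ : ∃ s, D.ac N + D.γ + δ = D.ac y + s := ⟨D.ac N + D.γ + δ - D.ac y, by omega⟩
    obtain ⟨t, ht⟩ : ∃ t, D.qc N = δ + D.qc y + t := ⟨D.qc N - δ - D.qc y, by omega⟩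
    refine ⟨y + (Finsupp.single 0 s + Finsupp.single (Fin.last e) t), 1, one_pos, ?_, ?_⟩
    · rw [dg_add, dg_add, dg_single, dg_single, D.dg_eq y, D.dg_eq N]
      omega
    · rw [rho_add, rho_add, rho_single, rho_single, D.hb0, hrho, D.rho_eq y, ht]
      show _ + (s * 0 + t * D.w) + 1 * D.m = _
      have e1 : (D.cl y).val + D.qc y * D.w + (s * 0 + t * D.w) + 1 * D.m
          = ((D.cl y).val + D.m) + D.qc y * D.w + t * D.w := by ring
      rw [e1, hcval]; ring)
  rw [← h1] at h2
  have hγ := D.hγ
  have h5 : D.ac y - D.γ - δ ≤ D.ac y - 1 := by omega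
  omega

theorem X0_bound (F : Finset (Mon e)) (hF : ∀ N ∈ F, D.XZ N) {J : ℕ}
    (hJ : (J + 1) • D.B = univ) : F.card ≤ ∑ c, D.dc J c := by
  classical
  have hfib : F.card = ∑ c : ZMod D.w, (F.filter (fun u => D.cl u = c)).card :=
    Finset.card_eq_sum_card_fiberwise (fun u _ => by simp)
  have hshift : ∑ c : ZMod D.w, (F.filter (fun u => D.cl u = c + (D.m : ZMod D.w))).card
      = ∑ c : ZMod D.w, (F.filter (fun u => D.cl u = c)).card :=
    Equiv.sum_comp (Equiv.addRight (D.m : ZMod D.w))
      (fun c => (F.filter (fun u => D.cl u = c)).card)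
  rw [hfib, ← hshift]
  apply Finset.sum_le_sum
  intro c _
  by_cases hc : c = 0
  · have := D.count_X0_class (F.filter (fun u => D.cl u = c + (D.m : ZMod D.w)))
      (fun u hu => hF u (Finset.mem_filter.1 hu).1) _ (fun u hu => (Finset.mem_filter.1 hu).2)
      0 (by rw [hc, cl, rho_zero]; simp)
    have h1 : D.qc (0 : Mon e) = 0 := by rw [qc, rho_zero]; simp
    have h2 : D.ac (0 : Mon e) = 0 := by rw [ac, dg_zero]; simp
    rw [h1, h2] at this
    omega
  · obtain ⟨y, hy1, hy2⟩ := D.exists_low hJ c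
    have := D.count_X0_class (F.filter (fun u => D.cl u = c + (D.m : ZMod D.w)))
      (fun u hu => hF u (Finset.mem_filter.1 hu).1) _ (fun u hu => (Finset.mem_filter.1 hu).2)
      y (by rw [hy1])
    have h1 := D.ac_pos (u := y) (by rw [hy1]; exact hc)
    have h2 := D.dg_eq y
    omega

end Dat

end Pool.Agent.H13.HS
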